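import Mathlib

/-!
# Weil numbers and Tate classes: definitions
-/

set_option autoImplicit false

universe u v

namespace Pool.Agent.H21.TC

/-- `π` is a Weil `q`-number of the number field `K`: an algebraic integer all of whose complex
conjugates have the absolute value `√q`. -/
def IsWeilNumber {K : Type v} [Field K] (q : ℕ) (π : K) : Prop :=
  IsIntegral ℤ π ∧ ∀ φ : K →+* ℂ, ‖φ π‖ ^ 2 = (q : ℝ)

/-- Let `Φ` be an endomorphism of the vector space `V` (the Frobenius endomorphism over the field with
`q` elements on the first cohomology of an abelian variety, so that the exterior algebra of `V` is its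
cohomology). A Tate class of degree `2 m` is an element `x` of degree `2 m` of the exterior algebra
such that `Φ ^ s x = (q ^ m) ^ s x` for some `s > 0`. All Tate classes are polynomials in Tate
classes of degree two. -/
def TateFromDegreeTwo {Ω V : Type*} [Field Ω] [AddCommGroup V] [Module Ω V] (q : ℕ)
    (Φ : V →ₗ[Ω] V) : Prop :=
  ∀ (m s : ℕ), 0 < s → ∀ x ∈ ⋀[Ω]^(2 * m) V,
    ExteriorAlgebra.map (Φ ^ s) x = ((q : Ω) ^ m) ^ s • x →
    x ∈ Algebra.adjoin Ω {y : ExteriorAlgebra Ω V |
      y ∈ ⋀[Ω]^2 V ∧ ∃ t : ℕ, 0 < t ∧ ExteriorAlgebra.map (Φ ^ t) y = (q : Ω) ^ t • y}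

/-- The property `TateFromDegreeTwo` for every finite dimensional vector space `V` over `Ω` with an
endomorphism `Φ` that is diagonalisable with eigenvalues among the conjugates `σ π` of `π` (with any
multiplicities). -/
def OnlyLefschetz (Ω : Type u) [Field Ω] {K : Type v} [Field K] (q : ℕ) (π : K) : Prop :=
  ∀ (V : Type u) [AddCommGroup V] [Module Ω V] [FiniteDimensional Ω V] (Φ : V →ₗ[Ω] V),
    Submodule.span Ω {v : V | ∃ σ : K →+* Ω, Φ v = σ π • v} = ⊤ → TateFromDegreeTwo q Φ

/-- The Frobenius endomorphism of the `n`-th power: the diagonal endomorphism which has every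
conjugate `σ π` as an eigenvalue, with multiplicity `n`. -/
def powFrob (Ω : Type u) [Field Ω] {K : Type v} [Field K] (π : K) (n : ℕ) :
    (Fin n → (K →+* Ω) → Ω) →ₗ[Ω] (Fin n → (K →+* Ω) → Ω) where
  toFun v := fun i σ => σ π * v i σ
  map_add' v w := by
    ext i σ
    simp [mul_add]
  map_smul' c v := by
    ext i σ
    simp [mul_left_comm]

/-- The property `TateFromDegreeTwo` for all powers. -/
def OnlyLefschetzOnPowers (Ω : Type u) [Field Ω] {K : Type v} [Field K] (q : ℕ) (π : K) : Prop :=
  ∀ n : ℕ, TateFromDegreeTwo q (powFrob Ω π n)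

end Pool.Agent.H21.TC
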