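import Pool.Agent.H21.TC.Rep

/-!
# Odd functions: spaces with many coincidences
-/

set_option autoImplicit false
set_option linter.unusedSectionVars false

namespace Pool.Agent.H21.TC

variable {X : Type*} [Fintype X]

/-- The coincidences of a space of functions. -/
def RelOf (W : Submodule ℚ (X → ℚ)) (x y : X) : Prop := ∀ f ∈ W, f x = f y

/-- Every proper space has coincidences. -/
def PropB (P : Subgroup (Equiv.Perm X)) (bar : X → X) : Prop :=
  ∀ W : Submodule ℚ (X → ℚ), StableS P W → W ≤ OddS bar → W ≠ OddS bar →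
    ∃ x y, x ≠ y ∧ RelOf W x y

variable (P : Subgroup (Equiv.Perm X)) (bar : X → X)

/-- Proper spaces have coincidences if this is true for vectors. -/
theorem propB_of_good
    (hgood : ∀ w : X → ℤ, (∀ x, w (bar x) = - w x) →
      (∀ x y, (∀ σ ∈ P, w (σ x) = w (σ y)) → x = y) → GoodW P bar w) : PropB P bar := by
  classical
  intro W hW hWo hne
  by_contra hno
  push Not at hno
  -- an injective member
  let v : X → X → (W →ₗ[ℚ] ℚ) := fun x y =>
    (LinearMap.proj x : (X → ℚ) →ₗ[ℚ] ℚ).comp W.subtype -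
      (LinearMap.proj y : (X → ℚ) →ₗ[ℚ] ℚ).comp W.subtype
  have hv : ∀ x y (f : W), v x y f = (f : X → ℚ) x - (f : X → ℚ) y := fun x y f => rfl
  obtain ⟨g, hg⟩ := Module.exists_dual_forall_apply_ne_zero (K := ℚ)
    (fun i : {i : X × X // i.1 ≠ i.2} => v i.1.1 i.1.2) (by
      rintro ⟨⟨x, y⟩, hxy⟩ h0
      apply hno x y hxy
      intro f hf
      have h1 := LinearMap.congr_fun h0 ⟨f, hf⟩
      rw [hv] at h1
      exact sub_eq_zero.1 h1)
  obtain ⟨w, hw⟩ := (Module.evalEquiv ℚ W).surjective g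
  have hinj : ∀ x y, x ≠ y → (w : X → ℚ) x ≠ (w : X → ℚ) y := by
    intro x y hxy h1
    apply hg ⟨(x, y), hxy⟩
    rw [← hw]
    change v x y w = 0
    rw [hv, h1, sub_self]
  obtain ⟨N, u, hN, hu⟩ := clear_denom (w : X → ℚ)
  have hN' : (N : ℚ) ≠ 0 := by exact_mod_cast hN
  have huinj : ∀ x y, u x = u y → x = y := by
    intro x y h1
    by_contra hxy
    apply hinj x y hxy
    have h2 : (u x : ℚ) = u y := by rw [h1]
    rw [hu, hu] at h2
    exact mul_left_cancel₀ hN' h2
  have huo : ∀ x, u (bar x) = - u x := by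
    intro x
    have h1 : (u (bar x) : ℚ) = - u x := by rw [hu, hu, hWo w.2]; ring
    exact_mod_cast h1
  have hgd := hgood u huo fun x y h => huinj x y (h 1 (one_mem P))
  apply hne
  refine le_antisymm hWo fun f hf => ?_
  obtain ⟨f₀, hf₀, ho⟩ := exists_decomp W f
  let k : X → ℚ := fun x => f x - f₀ x
  have hko : ∀ x, k (bar x) = - k x := by
    intro x
    simp only [k, hf x, hWo hf₀ x]
    ring
  obtain ⟨M, c, hM, hc⟩ := clear_denom k
  have hM' : (M : ℚ) ≠ 0 := by exact_mod_cast hM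
  have h1 := hgd c (by
    intro x
    have h2 : (c (bar x) : ℚ) = - c x := by rw [hc, hc, hko]; ring
    exact_mod_cast h2) (by
    intro σ hσ
    have h2 : ((∑ x, c x * u (σ x) : ℤ) : ℚ) = 0 := by
      push_cast
      have h3 : ∀ x, (c x : ℚ) * u (σ x) = (M * N) * ((f x - f₀ x) * (w : X → ℚ) (σ x)) := by
        intro x
        rw [hc, hu]
        ring
      rw [Finset.sum_congr rfl fun x _ => h3 x, ← Finset.mul_sum, ho _ (hW σ hσ w w.2),
        mul_zero]
    exact_mod_cast h2)
  have hk0 : ∀ x, k x = 0 := by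
    intro x
    have h2 := h1 x
    have h3 : Finset.univ.filter (fun y => ∀ σ ∈ P, u (σ y) = u (σ x)) = {x} := by
      ext y
      rw [Finset.mem_filter, Finset.mem_singleton]
      constructor
      · rintro ⟨-, h⟩
        exact huinj _ _ (h 1 (one_mem P))
      · rintro rfl
        exact ⟨Finset.mem_univ _, fun _ _ => rfl⟩
    rw [h3, Finset.sum_singleton] at h2
    have h4 : (M : ℚ) * k x = 0 := by rw [← hc, h2, Int.cast_zero]
    exact (mul_eq_zero.1 h4).resolve_left hM'
  have h2 : f = f₀ := by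
    funext x
    have := hk0 x
    simp only [k] at this
    linarith
  rw [h2]
  exact hf₀

open Classical in
/-- The projection of a point to a space with coincidences. -/
theorem half_bound (hbar : ∀ x, bar (bar x) = x) (hb : ∀ x, bar x ≠ x)
    (htr : ∀ x y : X, ∃ σ ∈ P, σ x = y) (V : Submodule ℚ (X → ℚ)) (hV : StableS P V)
    (hVo : V ≤ OddS bar) (hrel : ∃ x y, x ≠ y ∧ RelOf V x y) (x : X) (f : X → ℚ) (hf : f ∈ V)
    (hn : ∑ z, f z * f z = 2 * f x) :
    f x ≤ 1 / 2 ∧ (f x = 1 / 2 → ∃ y, y ≠ x ∧ RelOf V y x ∧ ∀ z, f z =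
      (if z = x then 1 / 2 else 0) + (if z = y then 1 / 2 else 0) -
        (if z = bar x then 1 / 2 else 0) - (if z = bar y then 1 / 2 else 0)) := by
  classical
  obtain ⟨a, b, hab, hr⟩ := hrel
  obtain ⟨σ, hσ, hσx⟩ := htr a x
  let y := σ b
  have hyx : y ≠ x := by
    intro h
    apply hab
    apply σ.injective
    rw [hσx]
    exact h.symm
  have hry : RelOf V y x := by
    intro g hg
    have h1 := hr _ (hV σ hσ g hg)
    change g (σ a) = g (σ b) at h1
    rw [hσx] at h1
    exact h1.symm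
  have hfo : ∀ z, f (bar z) = - f z := hVo hf
  have hfy : f y = f x := hry f hf
  rcases le_or_gt (f x) 0 with h0 | h0
  · refine ⟨by linarith, fun h => by linarith⟩
  have hybx : y ≠ bar x := by
    intro h
    rw [h, hfo] at hfy
    linarith
  have hbyx : bar y ≠ x := by
    intro h
    apply hybx
    rw [← h, hbar]
  have hbxy : bar x ≠ bar y := by
    intro h
    apply hyx
    rw [← hbar x, h, hbar]
  let D : Finset X := {x, y, bar x, bar y}
  have hD : ∑ z ∈ D, f z * f z = 4 * (f x * f x) := by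
    have h1 : x ∉ ({y, bar x, bar y} : Finset X) := by
      simp only [Finset.mem_insert, Finset.mem_singleton, not_or]
      exact ⟨hyx.symm, (hb x).symm, hbyx.symm⟩
    have h2 : y ∉ ({bar x, bar y} : Finset X) := by
      simp only [Finset.mem_insert, Finset.mem_singleton, not_or]
      exact ⟨hybx, (hb y).symm⟩
    have h3 : bar x ∉ ({bar y} : Finset X) := by
      simp only [Finset.mem_singleton]
      exact hbxy
    simp only [D]
    rw [Finset.sum_insert h1, Finset.sum_insert h2, Finset.sum_insert h3, Finset.sum_singleton,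
      hfo, hfo, hfy]
    ring
  have hsplit := Finset.sum_add_sum_compl D (fun z => f z * f z)
  have hnn : 0 ≤ ∑ z ∈ Dᶜ, f z * f z := Finset.sum_nonneg fun z _ => mul_self_nonneg (f z)
  refine ⟨?_, fun hx => ?_⟩
  · by_contra hcon
    push Not at hcon
    have h1 : f x * f x > 1 / 2 * f x := by nlinarith
    linarith
  · refine ⟨y, hyx, hry, fun z => ?_⟩
    by_cases hz : z ∈ D
    · simp only [D, Finset.mem_insert, Finset.mem_singleton] at hz
      rcases hz with rfl | rfl | rfl | rfl
      · rw [if_pos rfl, if_neg hyx.symm, if_neg (hb _).symm, if_neg hbyx.symm, hx]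
        ring
      · rw [if_neg hyx, if_pos rfl, if_neg hybx, if_neg (hb _).symm, hfy, hx]
        ring
      · rw [if_neg (hb _), if_neg hybx.symm, if_pos rfl, if_neg hbxy, hfo, hx]
        ring
      · rw [if_neg hbyx, if_neg (hb _), if_neg hbxy.symm, if_pos rfl, hfo, hfy, hx]
        ring
    · have h1 : ∑ z ∈ Dᶜ, f z * f z = 0 := by
        rw [hD, hn, hx] at hsplit
        linarith
      have h2 := (Finset.sum_eq_zero_iff_of_nonneg fun z _ => mul_self_nonneg (f z)).1 h1 z
        (Finset.mem_compl.2 hz)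
      have h3 : f z = 0 := mul_self_eq_zero.1 h2
      simp only [D, Finset.mem_insert, Finset.mem_singleton, not_or] at hz
      rw [if_neg hz.1, if_neg hz.2.1, if_neg hz.2.2.1, if_neg hz.2.2.2, h3]
      ring

/-- All classes of coincidences have two elements. -/
theorem two_of_propB (hbar : ∀ x, bar (bar x) = x) (hb : ∀ x, bar x ≠ x)
    (hcomm : ∀ σ ∈ P, ∀ x, σ (bar x) = bar (σ x))
    (htr : ∀ x y : X, ∃ σ ∈ P, σ x = y) (hB : PropB P bar) (W : Submodule ℚ (X → ℚ))
    (hW : StableS P W) (hWo : W ≤ OddS bar) (h0 : W ≠ ⊥) (h1 : W ≠ OddS bar) (x : X) :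
    ∃ y, y ≠ x ∧ (∀ z, RelOf W z x ↔ z = x ∨ z = y) ∧
      ∀ g : X → ℚ, (∀ h ∈ W, ∑ z, g z * h z = 0) → g x + g y - g (bar x) - g (bar y) = 0 := by
  classical
  let δ : X → ℚ := fun z => (if z = x then 1 else 0) - (if z = bar x then 1 else 0)
  have hδo : ∀ z, δ (bar z) = - δ z := by
    intro z
    have e1 : bar z = x ↔ z = bar x := by
      constructor
      · rintro rfl
        rw [hbar]
      · rintro rfl
        rw [hbar]
    have e2 : bar z = bar x ↔ z = x := by
      constructor
      · intro h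
        rw [← hbar z, h, hbar]
      · rintro rfl
        rfl
    simp only [δ, e1, e2]
    ring
  have hδs : ∀ f : X → ℚ, (∀ z, f (bar z) = - f z) → ∑ z, δ z * f z = 2 * f x := by
    intro f hf
    simp only [δ, sub_mul, ite_mul, one_mul, zero_mul, Finset.sum_sub_distrib, Finset.sum_ite_eq',
      if_pos (Finset.mem_univ _), hf]
    ring
  obtain ⟨f₀, hf₀, ho⟩ := exists_decomp W δ
  let W' : Submodule ℚ (X → ℚ) :=
    { carrier := {f | (∀ z, f (bar z) = - f z) ∧ ∀ h ∈ W, ∑ z, f z * h z = 0}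
      zero_mem' := ⟨fun z => by simp, fun h _ => by simp⟩
      add_mem' := fun {f g} hf hg => ⟨fun z => by
          simp only [Pi.add_apply, hf.1 z, hg.1 z]
          ring, fun h hh => by
          simp only [Pi.add_apply, add_mul, Finset.sum_add_distrib, hf.2 h hh, hg.2 h hh,
            add_zero]⟩
      smul_mem' := fun c f hf => ⟨fun z => by
          simp only [Pi.smul_apply, hf.1 z, smul_eq_mul]
          ring, fun h hh => by
          simp only [Pi.smul_apply, smul_eq_mul, mul_assoc, ← Finset.mul_sum, hf.2 h hh,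
            mul_zero]⟩ }
  have hW'o : W' ≤ OddS bar := fun f hf => hf.1
  have hW' : StableS P W' := by
    intro σ hσ f hf
    refine ⟨fun z => ?_, fun h hh => ?_⟩
    · change f (σ (bar z)) = - f (σ z)
      rw [hcomm σ hσ, hf.1]
    · rw [sum_perm σ f h]
      exact hf.2 _ (hW σ⁻¹ (inv_mem hσ) h hh)
  have hW'1 : W' ≠ OddS bar := by
    intro h
    apply h0
    rw [Submodule.eq_bot_iff]
    intro f hf
    have h2 : f ∈ W' := by
      rw [h]
      exact hWo hf
    have h3 := (Finset.sum_eq_zero_iff_of_nonneg fun z _ => mul_self_nonneg (f z)).1 (h2.2 f hf)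
    funext z
    exact mul_self_eq_zero.1 (h3 z (Finset.mem_univ z))
  let f₁ : X → ℚ := fun z => δ z - f₀ z
  have hf₁ : f₁ ∈ W' := by
    refine ⟨fun z => ?_, ho⟩
    simp only [f₁, hδo, hWo hf₀ z]
    ring
  have hn₀ : ∑ z, f₀ z * f₀ z = 2 * f₀ x := by
    rw [← hδs f₀ (hWo hf₀)]
    have h2 := ho f₀ hf₀
    simp only [sub_mul, Finset.sum_sub_distrib] at h2
    linarith
  have hn₁ : ∑ z, f₁ z * f₁ z = 2 * f₁ x := by
    rw [← hδs f₁ (hW'o hf₁)]
    have h2 := ho f₀ hf₀
    have h3 : ∀ z, δ z * f₁ z = f₁ z * f₁ z + f₁ z * f₀ z := by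
      intro z
      simp only [f₁]
      ring
    rw [Finset.sum_congr rfl fun z _ => h3 z, Finset.sum_add_distrib]
    have h4 : ∑ z, f₁ z * f₀ z = 0 := h2
    rw [h4, add_zero]
  obtain ⟨hb₀, hc₀⟩ := half_bound P bar hbar hb htr W hW hWo (hB W hW hWo h1) x f₀ hf₀ hn₀
  obtain ⟨hb₁, -⟩ := half_bound P bar hbar hb htr W' hW' hW'o (hB W' hW' hW'o hW'1) x f₁ hf₁ hn₁
  have hsum : f₀ x + f₁ x = 1 := by
    simp only [f₁, δ, if_true, if_neg (hb x).symm]
    ring
  obtain ⟨y, hyx, hry, hval⟩ := hc₀ (by linarith)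
  have hx₀ : f₀ x = 1 / 2 := by linarith
  refine ⟨y, hyx, fun z => ⟨fun hz => ?_, ?_⟩, fun g hg => ?_⟩
  · have h2 : f₀ z = 1 / 2 := by rw [hz f₀ hf₀, hx₀]
    by_contra hcon
    push Not at hcon
    rw [hval, if_neg hcon.1, if_neg hcon.2] at h2
    split_ifs at h2 <;> norm_num at h2
  · rintro (rfl | rfl)
    · exact fun _ _ => rfl
    · exact hry
  · have h2 := hg f₀ hf₀
    simp only [hval, mul_add, mul_sub, mul_ite, mul_zero, Finset.sum_add_distrib,
      Finset.sum_sub_distrib, Finset.sum_ite_eq', if_pos (Finset.mem_univ _)] at h2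
    linarith

variable {P bar}

/-- Spaces are determined by their coincidences. -/
theorem eq_oddR_of_propB (hbar : ∀ x, bar (bar x) = x) (hb : ∀ x, bar x ≠ x)
    (hcomm : ∀ σ ∈ P, ∀ x, σ (bar x) = bar (σ x))
    (htr : ∀ x y : X, ∃ σ ∈ P, σ x = y) (hB : PropB P bar) (W : Submodule ℚ (X → ℚ))
    (hW : StableS P W) (hWo : W ≤ OddS bar) : W = oddR bar (RelOf W) := by
  classical
  refine le_antisymm (fun f hf => ⟨hWo hf, fun x y h => h f hf⟩) fun f hf => ?_
  by_cases h0 : W = ⊥
  · have h1 : f = 0 := by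
      funext x
      have h2 := hf.2 x (bar x) (by
        intro g hg
        rw [h0, Submodule.mem_bot] at hg
        rw [hg]
        rfl)
      rw [hf.1] at h2
      change f x = 0
      linarith
    rw [h1]
    exact Submodule.zero_mem _
  by_cases h1 : W = OddS bar
  · rw [h1]
    exact hf.1
  obtain ⟨g₀, hg₀, ho⟩ := exists_decomp W f
  have h2 : f = g₀ := by
    funext x
    obtain ⟨y, hyx, hrel, hg⟩ := two_of_propB P bar hbar hb hcomm htr hB W hW hWo h0 h1 x
    have h3 := hg (fun z => f z - g₀ z) ho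
    have h4 : RelOf W y x := (hrel y).2 (Or.inr rfl)
    have h5 : f y = f x := hf.2 y x h4
    have h6 : g₀ y = g₀ x := h4 g₀ hg₀
    simp only [hf.1, hWo hg₀ _, h5, h6] at h3
    linarith
  rw [h2]
  exact hg₀

/-- Proper spaces are irreducible. -/
theorem irred_of_propB (hbar : ∀ x, bar (bar x) = x) (hb : ∀ x, bar x ≠ x)
    (hcomm : ∀ σ ∈ P, ∀ x, σ (bar x) = bar (σ x))
    (htr : ∀ x y : X, ∃ σ ∈ P, σ x = y) (hB : PropB P bar) (W : Submodule ℚ (X → ℚ))
    (hW : StableS P W) (hWo : W ≤ OddS bar) (h1 : W ≠ OddS bar)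
    (S : Submodule ℚ (X → ℚ)) (hS : StableS P S) (hSW : S ≤ W) : S = ⊥ ∨ S = W := by
  classical
  by_cases h0 : S = ⊥
  · exact Or.inl h0
  right
  have hS1 : S ≠ OddS bar := by
    intro h
    apply h1
    refine le_antisymm hWo ?_
    rw [← h]
    exact hSW
  have hW0 : W ≠ ⊥ := by
    intro h
    apply h0
    rw [Submodule.eq_bot_iff]
    intro f hf
    have h2 := hSW hf
    rw [h, Submodule.mem_bot] at h2
    exact h2
  have hR : RelOf S = RelOf W := by
    funext z x
    apply propext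
    obtain ⟨y, hyx, hrel, -⟩ := two_of_propB P bar hbar hb hcomm htr hB W hW hWo hW0 h1 x
    obtain ⟨y', hyx', hrel', -⟩ := two_of_propB P bar hbar hb hcomm htr hB S hS
      (hSW.trans hWo) h0 hS1 x
    have h3 : RelOf S y x := by
      intro f hf
      exact (hrel y).2 (Or.inr rfl) f (hSW hf)
    have h4 : y = y' := ((hrel' y).1 h3).resolve_left hyx
    rw [hrel, hrel', h4]
  rw [eq_oddR_of_propB hbar hb hcomm htr hB S hS (hSW.trans hWo),
    eq_oddR_of_propB hbar hb hcomm htr hB W hW hWo, hR]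

/-- No maps. -/
theorem noMaps_of_propB (hbar : ∀ x, bar (bar x) = x) (hb : ∀ x, bar x ≠ x)
    (hcomm : ∀ σ ∈ P, ∀ x, σ (bar x) = bar (σ x))
    (htr : ∀ x y : X, ∃ σ ∈ P, σ x = y) (hB : PropB P bar) (A B : Submodule ℚ (X → ℚ))
    (hA : StableS P A) (hAo : A ≤ OddS bar) (hBo : B ≤ OddS bar) (hAB : A ⊓ B = ⊥)
    (T : (X → ℚ) →ₗ[ℚ] (X → ℚ)) (hT : ∀ f ∈ A, T f ∈ B)
    (hTe : ∀ σ ∈ P, ∀ f ∈ A, T (fun x => f (σ x)) = fun x => T f (σ x)) :
    ∀ f ∈ A, T f = 0 := by
  classical
  intro f hf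
  by_contra hne
  let W : ℚ → Submodule ℚ (X → ℚ) := fun l => A.map (LinearMap.id + l • T)
  have hmem : ∀ l g, g ∈ W l ↔ ∃ k ∈ A, k + l • T k = g := fun l g => Submodule.mem_map
  have hWs : ∀ l, StableS P (W l) := by
    intro l σ hσ g hg
    obtain ⟨k, hk, rfl⟩ := (hmem l g).1 hg
    refine (hmem l _).2 ⟨fun x => k (σ x), hA σ hσ k hk, ?_⟩
    rw [hTe σ hσ k hk]
    rfl
  have hWo : ∀ l, W l ≤ OddS bar := by
    intro l g hg
    obtain ⟨k, hk, rfl⟩ := (hmem l g).1 hg
    exact Submodule.add_mem _ (hAo hk) (Submodule.smul_mem _ _ (hBo (hT k hk)))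
  obtain ⟨l, m, hlm, he⟩ := Finite.exists_ne_map_eq_of_infinite (fun l : ℚ => RelOf (W l))
  have hWW : W l = W m := by
    rw [eq_oddR_of_propB hbar hb hcomm htr hB (W l) (hWs l) (hWo l),
      eq_oddR_of_propB hbar hb hcomm htr hB (W m) (hWs m) (hWo m)]
    have he' : RelOf (W l) = RelOf (W m) := he
    rw [he']
  have h1 : f + l • T f ∈ W m := by
    rw [← hWW]
    exact (hmem l _).2 ⟨f, hf, rfl⟩
  obtain ⟨k, hk, he⟩ := (hmem m _).1 h1
  have h2 : k - f = l • T f - m • T k := by
    have h3 : k - f = (k + m • T k) - f - m • T k := by abel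
    rw [h3, he]
    abel
  have h3 : k - f ∈ A ⊓ B := by
    refine ⟨Submodule.sub_mem _ hk hf, ?_⟩
    rw [h2]
    exact Submodule.sub_mem _ (Submodule.smul_mem _ _ (hT f hf)) (Submodule.smul_mem _ _ (hT k hk))
  rw [hAB, Submodule.mem_bot] at h3
  have h4 : k = f := sub_eq_zero.1 h3
  rw [h3, h4, ← sub_smul] at h2
  rcases smul_eq_zero.1 h2.symm with h5 | h5
  · exact hlm (sub_eq_zero.1 h5)
  · exact hne h5

/-- The converse: two irreducible spaces without maps. -/
theorem classify (A B : Submodule ℚ (X → ℚ)) (hA : StableS P A) (hB : StableS P B)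
    (hAB : A ⊓ B = ⊥) (hsum : OddS bar ≤ A ⊔ B) (hA0 : A ≠ ⊥)
    (hAi : ∀ S, StableS P S → S ≤ A → S = ⊥ ∨ S = A)
    (hBi : ∀ S, StableS P S → S ≤ B → S = ⊥ ∨ S = B)
    (hno : ∀ T : (X → ℚ) →ₗ[ℚ] (X → ℚ), (∀ f ∈ A, T f ∈ B) →
      (∀ σ ∈ P, ∀ f ∈ A, T (fun x => f (σ x)) = fun x => T f (σ x)) → ∀ f ∈ A, T f = 0)
    (W : Submodule ℚ (X → ℚ)) (hW : StableS P W) (hWo : W ≤ OddS bar) :
    W = ⊥ ∨ W = A ∨ W = B ∨ W = OddS bar := by
  classical
  have hinf : ∀ S S' : Submodule ℚ (X → ℚ), StableS P S → StableS P S' → StableS P (S ⊓ S') :=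
    fun S S' h h' σ hσ f hf => ⟨h σ hσ f hf.1, h' σ hσ f hf.2⟩
  have hsup : ∀ S S' : Submodule ℚ (X → ℚ), StableS P S → StableS P S' → StableS P (S ⊔ S') := by
    intro S S' h h' σ hσ f hf
    obtain ⟨a, ha, b, hb, rfl⟩ := Submodule.mem_sup.1 hf
    exact Submodule.mem_sup.2 ⟨_, h σ hσ a ha, _, h' σ hσ b hb, rfl⟩
  have hWA := hAi (W ⊓ A) (hinf _ _ hW hA) inf_le_right
  have hWB := hBi (W ⊓ B) (hinf _ _ hW hB) inf_le_right
  have hdec : ∀ w ∈ W, ∃ a ∈ A, ∃ b ∈ B, a + b = w := fun w hw =>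
    Submodule.mem_sup.1 (hsum (hWo hw))
  rcases hWA with hWA | hWA
  · rcases hWB with hWB | hWB
    · left
      have hA₁ := hAi ((W ⊔ B) ⊓ A) (hinf _ _ (hsup _ _ hW hB) hA) inf_le_right
      rcases hA₁ with hA₁ | hA₁
      · rw [Submodule.eq_bot_iff]
        intro w hw
        obtain ⟨a, ha, b, hb, rfl⟩ := hdec w hw
        have h1 : a ∈ (W ⊔ B) ⊓ A := by
          refine ⟨Submodule.mem_sup.2 ⟨a + b, hw, -b, Submodule.neg_mem _ hb, by abel⟩, ha⟩
        rw [hA₁, Submodule.mem_bot] at h1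
        rw [h1, zero_add] at hw ⊢
        have h2 : b ∈ W ⊓ B := ⟨hw, hb⟩
        rw [hWB, Submodule.mem_bot] at h2
        exact h2
      · exfalso
        have hex : ∀ a : A, ∃ b ∈ B, (a : X → ℚ) + b ∈ W := by
          intro a
          have h1 : (a : X → ℚ) ∈ (W ⊔ B) ⊓ A := by
            rw [hA₁]
            exact a.2
          obtain ⟨w, hw, b, hb, he⟩ := Submodule.mem_sup.1 h1.1
          refine ⟨-b, Submodule.neg_mem _ hb, ?_⟩
          rw [← he]
          have h2 : w + b + -b = w := by abel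
          rw [h2]
          exact hw
        choose b hb hbW using hex
        have huniq : ∀ c d : X → ℚ, c ∈ B → d ∈ B → c - d ∈ W → c = d := by
          intro c d hc hd h
          have h1 : c - d ∈ W ⊓ B := ⟨h, Submodule.sub_mem _ hc hd⟩
          rw [hWB, Submodule.mem_bot] at h1
          exact sub_eq_zero.1 h1
        let T₀ : A →ₗ[ℚ] (X → ℚ) :=
          { toFun := b
            map_add' := by
              intro a a'
              apply huniq _ _ (hb _) (Submodule.add_mem _ (hb _) (hb _))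
              have h1 : b (a + a') - (b a + b a') =
                  (((a + a' : A) : X → ℚ) + b (a + a')) - ((a : X → ℚ) + b a) -
                    ((a' : X → ℚ) + b a') := by
                rw [Submodule.coe_add]
                abel
              rw [h1]
              exact Submodule.sub_mem _ (Submodule.sub_mem _ (hbW _) (hbW _)) (hbW _)
            map_smul' := by
              intro c a
              apply huniq _ _ (hb _) (Submodule.smul_mem _ _ (hb _))
              rw [RingHom.id_apply]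
              have h1 : b (c • a) - c • b a =
                  (((c • a : A) : X → ℚ) + b (c • a)) - c • ((a : X → ℚ) + b a) := by
                rw [Submodule.coe_smul, smul_add]
                abel
              rw [h1]
              exact Submodule.sub_mem _ (hbW _) (Submodule.smul_mem _ _ (hbW _)) }
        obtain ⟨T, hT⟩ := LinearMap.exists_extend T₀
        have hTb : ∀ f (hf : f ∈ A), T f = b ⟨f, hf⟩ := fun f hf =>
          LinearMap.congr_fun hT ⟨f, hf⟩
        have h0 := hno T (fun f hf => by rw [hTb f hf]; exact hb _) (by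
          intro σ hσ f hf
          rw [hTb _ (hA σ hσ f hf), hTb f hf]
          apply huniq _ _ (hb _) (hB σ hσ _ (hb _))
          have h1 : b ⟨fun x => f (σ x), hA σ hσ f hf⟩ - (fun x => b ⟨f, hf⟩ (σ x)) =
              ((fun x => f (σ x)) + b ⟨fun x => f (σ x), hA σ hσ f hf⟩) -
                (fun x => (f + b ⟨f, hf⟩) (σ x)) := by
            funext x
            simp only [Pi.sub_apply, Pi.add_apply]
            ring
          rw [h1]
          exact Submodule.sub_mem _ (hbW ⟨fun x => f (σ x), hA σ hσ f hf⟩)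
            (hW σ hσ _ (hbW ⟨f, hf⟩)))
        apply hA0
        rw [Submodule.eq_bot_iff]
        intro a ha
        have h1 : b ⟨a, ha⟩ = 0 := by rw [← hTb a ha, h0 a ha]
        have h2 := hbW ⟨a, ha⟩
        rw [h1, add_zero] at h2
        have h3 : a ∈ W ⊓ A := ⟨h2, ha⟩
        rw [hWA, Submodule.mem_bot] at h3
        exact h3
    · right; right; left
      have hBW : B ≤ W := by
        rw [← hWB]
        exact inf_le_left
      refine le_antisymm (fun w hw => ?_) hBW
      obtain ⟨a, ha, b, hb, rfl⟩ := hdec w hw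
      have h1 : a ∈ W ⊓ A := by
        refine ⟨?_, ha⟩
        have h2 : a = (a + b) - b := by abel
        rw [h2]
        exact Submodule.sub_mem _ hw (hBW hb)
      rw [hWA, Submodule.mem_bot] at h1
      rw [h1, zero_add]
      exact hb
  · have hAW : A ≤ W := by
      rw [← hWA]
      exact inf_le_left
    rcases hWB with hWB | hWB
    · right; left
      refine le_antisymm (fun w hw => ?_) hAW
      obtain ⟨a, ha, b, hb, rfl⟩ := hdec w hw
      have h1 : b ∈ W ⊓ B := by
        refine ⟨?_, hb⟩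
        have h2 : b = (a + b) - a := by abel
        rw [h2]
        exact Submodule.sub_mem _ hw (hAW ha)
      rw [hWB, Submodule.mem_bot] at h1
      rw [h1, add_zero]
      exact ha
    · right; right; right
      have hBW : B ≤ W := by
        rw [← hWB]
        exact inf_le_left
      exact le_antisymm hWo (hsum.trans (sup_le hAW hBW))

end Pool.Agent.H21.TC
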