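import Pool.Agent.H21.TC.GSplit
import Pool.Agent.H21.TC.Rep2

/-!
# General CM fields
-/

set_option autoImplicit false
set_option linter.unusedSectionVars false

universe u

namespace Pool.Agent.H21.TC

open NumberField Module Pool.Agent.H204R3.CM Pool.Agent.H485R3 Pool.Agent.Helper33Dom

section

variable {F : Type*} [Field F] [NumberField F] [IsCMField F]

/-- Complex conjugation as a ring automorphism. -/
noncomputable def conjRing (F : Type*) [Field F] [NumberField F] [IsCMField F] : F ≃+* F :=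
  (IsCMField.complexConj F : F ≃+* F)

theorem comp_conjRing (x : F →+* ℂ) :
    x.comp (conjRing F : F →+* F) = ComplexEmbedding.conjugate x :=
  RingHom.ext fun a => IsCMField.complexEmbedding_complexConj (K := F) x a

theorem conj_conj (x : F →+* ℂ) :
    ComplexEmbedding.conjugate (ComplexEmbedding.conjugate x) = x :=
  RingHom.ext fun a => Complex.conj_conj (x a)

theorem conj_ne (x : F →+* ℂ) : ComplexEmbedding.conjugate x ≠ x := by
  intro h
  obtain ⟨a, ha⟩ : ∃ a, IsCMField.complexConj F a ≠ a := by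
    by_contra hno
    push Not at hno
    apply IsCMField.complexConj_ne_one F
    ext a
    exact hno a
  apply ha
  apply x.injective
  rw [← comp_conjRing] at h
  exact RingHom.congr_fun h a

theorem conj_comm (σ : Equiv.Perm (F →+* ℂ)) (hσ : σ ∈ PC F) (x : F →+* ℂ) :
    σ (ComplexEmbedding.conjugate x) = ComplexEmbedding.conjugate (σ x) := by
  obtain ⟨τ, rfl⟩ := hσ
  rw [← comp_conjRing, ← comp_conjRing]
  rfl

theorem conjRing_comm (σ : F ≃+* F) (x : F) : σ (conjRing F x) = conjRing F (σ x) := by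
  obtain ⟨φ⟩ : Nonempty (F →+* ℂ) := inferInstance
  apply φ.injective
  have h1 := RingHom.congr_fun (comp_conjRing (φ.comp (σ : F →+* F))) x
  have h2 := RingHom.congr_fun (comp_conjRing φ) (σ x)
  exact h1.trans h2.symm

theorem conjRing_conjRing (x : F) : conjRing F (conjRing F x) = x :=
  IsCMField.complexConj_apply_apply F x

theorem comp_trans (σ : F ≃+* F) (φ : F →+* ℂ) :
    φ.comp ((σ.trans (conjRing F) : F ≃+* F) : F →+* F) =
      ComplexEmbedding.conjugate (φ.comp (σ : F →+* F)) :=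
  RingHom.ext fun a => RingHom.congr_fun (comp_conjRing φ) (σ a)

theorem mem_oddInvariants_trans (σ : F ≃+* F) (f : (F →+* ℂ) → ℚ) :
    f ∈ oddInvariants (σ.trans (conjRing F)) ↔
      (∀ φ, f (ComplexEmbedding.conjugate φ) = - f φ) ∧
        ∀ φ : F →+* ℂ, f (φ.comp (σ : F →+* F)) = - f φ := by
  constructor
  · rintro ⟨h1, h2⟩
    refine ⟨h1, fun φ => ?_⟩
    have h3 := h2 φ
    rw [comp_trans, h1] at h3
    rw [← h3, neg_neg]
  · rintro ⟨h1, h2⟩
    refine ⟨h1, fun φ => ?_⟩
    rw [comp_trans, h1, h2, neg_neg]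

theorem stable_oddInvariants (σ : F ≃+* F) : StableS (PC F) (oddInvariants σ) := by
  intro τ hτ f hf
  refine ⟨fun φ => ?_, fun φ => ?_⟩
  · change f (τ _) = - f (τ φ)
    rw [conj_comm τ hτ]
    exact hf.1 _
  · obtain ⟨t, rfl⟩ := hτ
    exact hf.2 (permOf F t φ)

theorem oddInvariants_le (σ : F ≃+* F) : oddInvariants σ ≤ OddS ComplexEmbedding.conjugate :=
  fun _ hf => hf.1

theorem bot_eq : (⊥ : Submodule ℚ ((F →+* ℂ) → ℚ)) = oddInvariants (conjRing F) := by
  symm
  rw [Submodule.eq_bot_iff]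
  rintro f ⟨h1, h2⟩
  funext φ
  have h3 := h2 φ
  rw [comp_conjRing, h1] at h3
  change f φ = 0
  linarith

theorem odd_eq_top : (OddS ComplexEmbedding.conjugate : Submodule ℚ ((F →+* ℂ) → ℚ)) =
    oddOfSubfield (⊤ : Subfield F) := by
  ext f
  constructor
  · intro h
    refine ⟨h, fun φ ψ hh => ?_⟩
    have h1 : φ = ψ := RingHom.ext fun a => hh a trivial
    rw [h1]
  · exact fun h => h.1

theorem inf_eq_bot (σ : F ≃+* F) :
    oddInvariants σ ⊓ oddInvariants (σ.trans (conjRing F)) = ⊥ := by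
  rw [Submodule.eq_bot_iff]
  rintro f ⟨h1, h2⟩
  have h2' := (mem_oddInvariants_trans σ f).1 h2
  funext φ
  have h3 := h1.2 φ
  rw [h2'.2 φ] at h3
  change f φ = 0
  linarith

theorem odd_le_sup (σ : F ≃+* F) (hσ : ∀ x, σ (σ x) = x) :
    OddS ComplexEmbedding.conjugate ≤
      oddInvariants σ ⊔ oddInvariants (σ.trans (conjRing F)) := by
  intro f hf
  have hs : ∀ φ : F →+* ℂ, (φ.comp (σ : F →+* F)).comp (σ : F →+* F) = φ := fun φ =>
    RingHom.ext fun a => congrArg φ (hσ a)
  have hc : ∀ φ : F →+* ℂ, (ComplexEmbedding.conjugate φ).comp (σ : F →+* F) =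
      ComplexEmbedding.conjugate (φ.comp (σ : F →+* F)) := fun φ => rfl
  refine Submodule.mem_sup.2 ⟨fun φ => (f φ + f (φ.comp (σ : F →+* F))) / 2, ⟨fun φ => ?_,
    fun φ => ?_⟩, fun φ => (f φ - f (φ.comp (σ : F →+* F))) / 2, ?_, ?_⟩
  · change (f (ComplexEmbedding.conjugate φ) + f ((ComplexEmbedding.conjugate φ).comp
      (σ : F →+* F))) / 2 = - ((f φ + f (φ.comp (σ : F →+* F))) / 2)
    rw [hc, hf, hf]
    ring
  · change (f (φ.comp (σ : F →+* F)) + f ((φ.comp (σ : F →+* F)).comp (σ : F →+* F))) / 2 =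
      (f φ + f (φ.comp (σ : F →+* F))) / 2
    rw [hs]
    ring
  · rw [mem_oddInvariants_trans]
    refine ⟨fun φ => ?_, fun φ => ?_⟩
    · change (f (ComplexEmbedding.conjugate φ) - f ((ComplexEmbedding.conjugate φ).comp
        (σ : F →+* F))) / 2 = - ((f φ - f (φ.comp (σ : F →+* F))) / 2)
      rw [hc, hf, hf]
      ring
    · change (f (φ.comp (σ : F →+* F)) - f ((φ.comp (σ : F →+* F)).comp (σ : F →+* F))) / 2 =
        - ((f φ - f (φ.comp (σ : F →+* F))) / 2)
      rw [hs]
      ring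
  · funext φ
    change (f φ + f (φ.comp (σ : F →+* F))) / 2 + (f φ - f (φ.comp (σ : F →+* F))) / 2 = f φ
    ring

theorem pc_trans' (x y : F →+* ℂ) : ∃ σ ∈ PC F, σ x = y := by
  obtain ⟨L, _, _, j, h⟩ := exists_galois (fun _ : Unit => F)
  exact pc_trans j (h ()) x y

/-- Invariant relations are given by subfields. -/
theorem exists_subfield' (W : Submodule ℚ ((F →+* ℂ) → ℚ)) (hW : StableS (PC F) W) :
    ∃ E : Subfield F, ∀ x y : F →+* ℂ, (∀ a ∈ E, x a = y a) ↔ RelOf W x y := by
  obtain ⟨L, _, _, j, h⟩ := exists_galois (fun _ : Unit => F)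
  refine exists_subfield j (h ()) (RelOf W) (fun x f _ => rfl) (fun x y h f hf => (h f hf).symm)
    (fun x y z h h' f hf => (h f hf).trans (h' f hf)) ?_
  intro σ hσ x y hxy f hf
  exact hxy _ (hW σ hσ f hf)

/-- All stable spaces of odd functions are given by subfields. -/
def CondSub (F : Type*) [Field F] : Prop :=
  ∀ W : Submodule ℚ ((F →+* ℂ) → ℚ), IsStable W → W ≤ oddFunctions F →
    ∃ E : Subfield F, W = oddOfSubfield E

/-- The decomposition of the space of odd functions. -/
def CondDec (F : Type*) [Field F] [NumberField F] [IsCMField F] : Prop :=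
  IsIrred (oddFunctions F) ∨ ∃ σ : F ≃+* F, (∀ x, σ (σ x) = x) ∧ IsIrred (oddInvariants σ) ∧
    IsIrred (oddInvariants (σ.trans (conjRing F))) ∧
    NoMaps (oddInvariants σ) (oddInvariants (σ.trans (conjRing F)))

theorem eq_oddOfSubfield (W : Submodule ℚ ((F →+* ℂ) → ℚ))
    (hW : W = oddR ComplexEmbedding.conjugate (RelOf W)) (E : Subfield F)
    (hE : ∀ x y : F →+* ℂ, (∀ a ∈ E, x a = y a) ↔ RelOf W x y) : W = oddOfSubfield E := by
  conv_lhs => rw [hW]
  ext f
  constructor
  · rintro ⟨h1, h2⟩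
    exact ⟨h1, fun φ ψ h => h2 _ _ ((hE _ _).1 h)⟩
  · rintro ⟨h1, h2⟩
    exact ⟨h1, fun φ ψ h => h2 _ _ ((hE _ _).2 h)⟩

theorem condSub_of_propB (h : PropB (PC F) ComplexEmbedding.conjugate) : CondSub F := by
  intro W hW hWo
  rw [stable_iff] at hW
  obtain ⟨E, hE⟩ := exists_subfield' W hW
  exact ⟨E, eq_oddOfSubfield W (eq_oddR_of_propB conj_conj conj_ne conj_comm pc_trans' h W hW hWo)
    E hE⟩

theorem propB_of_condSub (h : CondSub F) : PropB (PC F) ComplexEmbedding.conjugate := by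
  intro W hW hWo hne
  rw [← stable_iff] at hW
  obtain ⟨E, rfl⟩ := h W hW hWo
  by_contra hno
  push Not at hno
  apply hne
  refine le_antisymm (fun f hf => hf.1) fun f hf => ⟨hf, fun φ ψ hh => ?_⟩
  by_contra hfne
  have h1 : φ ≠ ψ := by
    rintro rfl
    exact hfne rfl
  exact hno φ ψ h1 fun g hg => hg.2 _ _ hh

theorem condDec_of_propB (h : PropB (PC F) ComplexEmbedding.conjugate) : CondDec F := by
  classical
  by_cases hirr : IsIrred (oddFunctions F)
  · exact Or.inl hirr
  right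
  obtain ⟨x⟩ : Nonempty (F →+* ℂ) := inferInstance
  have hne : oddFunctions F ≠ ⊥ := by
    intro h0
    have h1 : (fun z : F →+* ℂ => (if z = x then (1 : ℚ) else 0) -
        (if z = ComplexEmbedding.conjugate x then 1 else 0)) ∈ oddFunctions F := by
      intro z
      have e1 : ComplexEmbedding.conjugate z = x ↔ z = ComplexEmbedding.conjugate x := by
        constructor
        · rintro rfl
          rw [conj_conj]
        · rintro rfl
          rw [conj_conj]
      have e2 : ComplexEmbedding.conjugate z = ComplexEmbedding.conjugate x ↔ z = x := by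
        constructor
        · intro h
          rw [← conj_conj z, h, conj_conj]
        · rintro rfl
          rfl
      simp only [e1, e2]
      ring
    rw [h0, Submodule.mem_bot] at h1
    have h2 := congrFun h1 x
    simp only [if_true, if_neg (conj_ne x).symm, Pi.zero_apply] at h2
    norm_num at h2
  have hex : ∃ S : Submodule ℚ ((F →+* ℂ) → ℚ), IsStable S ∧ S ≤ oddFunctions F ∧ S ≠ ⊥ ∧
      S ≠ oddFunctions F := by
    by_contra hno
    push Not at hno
    apply hirr
    refine ⟨hne, fun S hS hle => ?_⟩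
    by_cases h0 : S = ⊥
    · exact Or.inl h0
    · exact Or.inr (hno S hS hle h0)
  obtain ⟨S, hS, hSo, hS0, hS1⟩ := hex
  rw [stable_iff] at hS
  obtain ⟨y, hyx, hrel, -⟩ := two_of_propB (PC F) ComplexEmbedding.conjugate conj_conj conj_ne
    conj_comm pc_trans' h S hS hSo hS0 hS1 x
  obtain ⟨E, hE⟩ := exists_subfield' S hS
  obtain ⟨σ, hσ, hEσ, -⟩ := exists_involution E x y hyx.symm (fun z => by rw [hE, hrel])
  have hSE := eq_oddOfSubfield S
    (eq_oddR_of_propB conj_conj conj_ne conj_comm pc_trans' h S hS hSo) E hE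
  have hEf : E = fixedSubfield σ := by
    ext a
    exact hEσ a
  have hSσ : S = oddInvariants σ := by
    rw [hSE, hEf, oddInvariants_eq σ hσ]
  have hsum := odd_le_sup σ hσ
  have hA0 : oddInvariants σ ≠ ⊥ := by
    rw [← hSσ]
    exact hS0
  have hA1 : oddInvariants σ ≠ oddFunctions F := by
    rw [← hSσ]
    exact hS1
  have hB0 : oddInvariants (σ.trans (conjRing F)) ≠ ⊥ := by
    intro h0
    rw [h0, sup_bot_eq] at hsum
    exact hA1 (le_antisymm (oddInvariants_le σ) hsum)
  have hB1 : oddInvariants (σ.trans (conjRing F)) ≠ oddFunctions F := by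
    intro h0
    have h1 := inf_eq_bot σ
    rw [h0] at h1
    apply hA0
    rw [Submodule.eq_bot_iff]
    intro f hf
    have h2 : f ∈ oddInvariants σ ⊓ oddFunctions F := ⟨hf, hf.1⟩
    rw [h1, Submodule.mem_bot] at h2
    exact h2
  refine ⟨σ, hσ, ⟨hA0, fun T hT hle => ?_⟩, ⟨hB0, fun T hT hle => ?_⟩, ?_⟩
  · exact irred_of_propB conj_conj conj_ne conj_comm pc_trans' h _ (stable_oddInvariants _)
      (oddInvariants_le _) hA1 T ((stable_iff T).1 hT) hle
  · exact irred_of_propB conj_conj conj_ne conj_comm pc_trans' h _ (stable_oddInvariants _)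
      (oddInvariants_le _) hB1 T ((stable_iff T).1 hT) hle
  · intro T hT hTe
    refine noMaps_of_propB conj_conj conj_ne conj_comm pc_trans' h _ _ (stable_oddInvariants _)
      (oddInvariants_le _) (oddInvariants_le _) (inf_eq_bot σ) T hT ?_
    rintro _ ⟨τ, rfl⟩ f hf
    exact hTe τ f hf

theorem condSub_of_condDec (h : CondDec F) : CondSub F := by
  classical
  intro W hW hWo
  have hbot : (⊥ : Submodule ℚ ((F →+* ℂ) → ℚ)) = oddOfSubfield (fixedSubfield (conjRing F)) := by
    rw [bot_eq, oddInvariants_eq _ conjRing_conjRing]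
  rcases h with h | ⟨σ, hσ, hA, hB, hno⟩
  · rcases h.2 W hW hWo with rfl | rfl
    · exact ⟨_, hbot⟩
    · exact ⟨_, odd_eq_top⟩
  · have h1 := classify (P := PC F) (bar := ComplexEmbedding.conjugate) (oddInvariants σ)
      (oddInvariants (σ.trans (conjRing F))) (stable_oddInvariants _) (stable_oddInvariants _)
      (inf_eq_bot σ) (odd_le_sup σ hσ) hA.1 (fun S hS => hA.2 S ((stable_iff S).2 hS))
      (fun S hS => hB.2 S ((stable_iff S).2 hS)) (fun T hT hTe => hno T hT (fun τ f hf =>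
        hTe _ (permOf_mem τ) f hf)) W ((stable_iff W).1 hW) hWo
    rcases h1 with rfl | rfl | rfl | rfl
    · exact ⟨_, hbot⟩
    · exact ⟨_, oddInvariants_eq σ hσ⟩
    · refine ⟨_, oddInvariants_eq _ fun x => ?_⟩
      change conjRing F (σ (conjRing F (σ x))) = x
      rw [conjRing_comm, hσ, conjRing_conjRing]
    · exact ⟨_, odd_eq_top⟩

theorem goodW_of_condSub (h : CondSub F) (w : (F →+* ℂ) → ℤ)
    (hw : ∀ x, w (ComplexEmbedding.conjugate x) = - w x) :
    GoodW (PC F) ComplexEmbedding.conjugate w := by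
  refine good_of_subspace (PC F) ComplexEmbedding.conjugate conj_conj conj_comm ?_ w hw
  intro W hW hWo
  obtain ⟨E, rfl⟩ := h W ((stable_iff W).2 hW) hWo
  exact ⟨fun x y => ∀ a ∈ E, x a = y a, rfl⟩

/-- All Weil numbers. -/
theorem all_of_condSub (h : CondSub F) (Ω : Type u) [Field Ω] [IsAlgClosed Ω] [CharZero Ω]
    (p : ℕ) [Fact p.Prime] (a : ℕ) (π : F) (hπ : IsWeilNumber (p ^ a) π) :
    OnlyLefschetz Ω (p ^ a) π := by
  obtain ⟨L, _, _, j, hL⟩ := exists_galois (fun _ : Unit => F)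
  exact weil_of_goodW Ω p j (hL ()) (goodW_of_condSub h) a π hπ

/-- From one completely split prime. -/
theorem propB_of_all (Ω : Type u) [Field Ω] [IsAlgClosed Ω] [CharZero Ω]
    (p : ℕ) [Fact p.Prime] (hs : Nat.card (F →+* ℚ_[p]) = finrank ℚ F)
    (hall : ∀ (a : ℕ) (π : F), 0 < a → IsWeilNumber (p ^ a) π →
      (∀ n : ℕ, 0 < n → IntermediateField.adjoin ℚ {π ^ n} = ⊤) →
      OnlyLefschetzOnPowers Ω (p ^ a) π) :
    PropB (PC F) ComplexEmbedding.conjugate := by
  obtain ⟨L, _, _, j, h, ⟨y₀⟩⟩ := exists_galois_split F p hs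
  apply propB_of_good
  intro w hw htriv
  let e : L →ₐ[ℚ] PadicAlgCl p := IsAlgClosed.lift
  obtain ⟨a, π, ha, hπ, κ, hκ, hu⟩ := exists_weil_slopes p j h e y₀
    (fun x => w (embE j h x)) (fun x => by
      change w (embE j h (cbar x)) = _
      rw [embE_cbar, hw])
  have hgen : ∀ n : ℕ, 0 < n → IntermediateField.adjoin ℚ {π ^ n} = ⊤ := by
    intro n hn
    have hsp : ∀ x : F, ((minpoly ℚ x).map (algebraMap ℚ ℂ)).Splits := fun x =>
      IsAlgClosed.splits _
    rw [Field.primitive_element_iff_algHom_eq_of_eval' ℚ ℂ hsp]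
    intro φ ψ hφψ
    obtain ⟨x, hx⟩ := h (φ : F →+* ℂ)
    obtain ⟨y, hy⟩ := h (ψ : F →+* ℂ)
    have h1 : x (π ^ n) = y (π ^ n) := by
      apply j.injective
      have e1 := RingHom.congr_fun hx (π ^ n)
      have e2 := RingHom.congr_fun hy (π ^ n)
      exact e1.trans (hφψ.trans e2.symm)
    have h2 : ∀ g : L ≃ₐ[ℚ] L, w (embE j h (g • x)) = w (embE j h (g • y)) := by
      intro g
      have h4 : ‖e (g (x π))‖ ^ n = ‖e (g (y π))‖ ^ n := by
        rw [← norm_pow, ← norm_pow, ← map_pow, ← map_pow, ← map_pow, ← map_pow, ← map_pow,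
          ← map_pow, h1]
      have h5 : ‖e (g (x π))‖ = ‖e (g (y π))‖ :=
        (pow_left_inj₀ (norm_nonneg _) (norm_nonneg _) hn.ne').1 h4
      have h6 : uvec p e a π (g • x) = uvec p e a π (g • y) := by
        rw [uvec_eq, uvec_eq]
        change 2 * Real.log ‖e (g (x π))‖ - _ = 2 * Real.log ‖e (g (y π))‖ - _
        rw [h5]
      rw [hu, hu] at h6
      exact_mod_cast mul_left_cancel₀ hκ h6
    have h3 : embE j h x = embE j h y := by
      apply htriv
      rintro _ ⟨τ, rfl⟩
      obtain ⟨g, hg⟩ := Pool.Agent.H977R3.CM.exists_gal j τ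
      rw [embE_smul j h hg, embE_smul j h hg]
      exact h2 g
    have h4 : x = y := (embE j h).injective h3
    ext b
    have e1 := RingHom.congr_fun hx b
    have e2 := RingHom.congr_fun hy b
    rw [h4] at e1
    exact e1.symm.trans e2
  exact goodW_of_goodSlopes j h w _ κ hκ hu
    ((criterion p j h e a π hπ Ω).2 (hall a π ha hπ hgen))

end

end Pool.Agent.H21.TC
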