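import Pool.Agent.H21.TC.Core

/-!
# Explicit relations which do not come from coincidences
-/

set_option autoImplicit false

universe u

namespace Pool.Agent.H21.TC

open Subgroup

variable {G : Type u} [Group G]

/-- A pair of integral odd functions witnessing a relation that is not a coincidence. -/
def BadPair [Fintype G] (c : G) (w d : G → ℤ) : Prop :=
  (∀ g, w (g * c) = - w g) ∧ (∀ g, d (g * c) = - d g) ∧ (∀ g, ∑ x, d x * w (g * x) = 0) ∧
    (∀ t, (∀ g, w (g * t) = w g) → t = 1) ∧ d 1 ≠ 0

theorem conv_zero [Fintype G] {c : G} (hcc : ∀ g, g * c = c * g) (hc2 : c * c = 1) {p q : G → ℤ}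
    (h : ∀ g, ∑ x, q x * p (g * x) = 0) (g : G) :
    ∑ x, (q x - q (x * c)) * (p (g * x) - p (g * x * c)) = 0 := by
  have e1 : ∑ x, q x * p (g * x * c) = 0 := by
    rw [← h (g * c)]
    refine Finset.sum_congr rfl fun x _ => ?_
    rw [mul_assoc, hcc x, ← mul_assoc]
  have e2 : ∑ x, q (x * c) * p (g * x) = 0 := by
    rw [← h (g * c), ← Equiv.sum_comp (Equiv.mulRight c)]
    refine Finset.sum_congr rfl fun x _ => ?_
    simp only [Equiv.coe_mulRight]
    have h1 : x * c * c = x := by rw [mul_assoc, hc2, mul_one]
    have h2 : g * c * x = g * (x * c) := by rw [mul_assoc, ← hcc x]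
    rw [h1, h2]
  have e3 : ∑ x, q (x * c) * p (g * x * c) = 0 := by
    rw [← h g, ← Equiv.sum_comp (Equiv.mulRight c)]
    refine Finset.sum_congr rfl fun x _ => ?_
    rw [Equiv.coe_mulRight, mul_assoc x, hc2, mul_one]
    congr 2
    rw [← mul_assoc, mul_assoc, hc2, mul_one]
  have e4 : ∀ x, (q x - q (x * c)) * (p (g * x) - p (g * x * c)) =
      q x * p (g * x) - q x * p (g * x * c) - q (x * c) * p (g * x) + q (x * c) * p (g * x * c) := by
    intro x
    ring
  simp only [e4, Finset.sum_add_distrib, Finset.sum_sub_distrib, e1, e2, e3, h g]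
  norm_num

/-- The first obstruction: a subgroup of order at least three which avoids `c`. -/
theorem bad_of_three [Fintype G] {c : G} (hcc : ∀ g, g * c = c * g) (hc2 : c * c = 1) (hc1 : c ≠ 1)
    {H : Subgroup G} (hcH : c ∉ H) {a b : G} (ha : a ∈ H) (hb : b ∈ H) (ha1 : a ≠ 1) (hb1 : b ≠ 1)
    (hab : a ≠ b) : ∃ w d : G → ℤ, BadPair c w d := by
  classical
  let p : G → ℤ := fun y => 2 * (if y = 1 then 1 else 0) - (if y = a then 1 else 0) -
    (if y = b then 1 else 0)
  let q : G → ℤ := fun y => if y ∈ H then 1 else 0
  have hpq : ∀ g, ∑ x, q x * p (g * x) = 0 := by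
    intro g
    have e : ∀ (x y : G), g * x = y ↔ x = g⁻¹ * y := fun x y => by
      rw [eq_inv_mul_iff_mul_eq]
    have e1 : ∀ x, q x * p (g * x) = 2 * (if x = g⁻¹ * 1 then q x else 0) -
        (if x = g⁻¹ * a then q x else 0) - (if x = g⁻¹ * b then q x else 0) := by
      intro x
      simp only [p, e]
      split_ifs <;> ring
    simp only [e1, Finset.sum_sub_distrib, ← Finset.mul_sum, Finset.sum_ite_eq', Finset.mem_univ,
      if_true, q]
    have h1 : g⁻¹ * a ∈ H ↔ g⁻¹ * 1 ∈ H := by
      rw [mul_mem_cancel_right ha, mul_one]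
    have h2 : g⁻¹ * b ∈ H ↔ g⁻¹ * 1 ∈ H := by
      rw [mul_mem_cancel_right hb, mul_one]
    simp only [h1, h2]
    split_ifs <;> norm_num
  have hca : c ≠ a := fun h => hcH (h ▸ ha)
  have hcb : c ≠ b := fun h => hcH (h ▸ hb)
  refine ⟨fun y => p y - p (y * c), fun y => q y - q (y * c), ?_, ?_, ?_, ?_, ?_⟩
  · intro g
    simp only [mul_assoc, hc2, mul_one]
    ring
  · intro g
    simp only [mul_assoc, hc2, mul_one]
    ring
  · exact conv_zero hcc hc2 hpq
  · intro t ht
    have h1 := ht 1
    simp only [one_mul] at h1
    have h2 : p 1 - p c = 2 := by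
      simp only [p, if_neg hc1, if_neg hca, if_neg hcb, if_neg ha1.symm, if_neg hb1.symm, if_true]
      norm_num
    rw [h2] at h1
    by_contra hne
    have h3 : p t ≤ 0 := by
      simp only [p, if_neg hne]
      split_ifs <;> norm_num
    have h4 : -1 ≤ p (t * c) := by
      simp only [p]
      split_ifs with i1 i2 i3 i3 i2 i3 i3
      · exact absurd (i1.symm.trans i2) ha1.symm
      · exact absurd (i1.symm.trans i2) ha1.symm
      · exact absurd (i1.symm.trans i3) hb1.symm
      · norm_num
      · exact absurd (i2.symm.trans i3) hab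
      · norm_num
      · norm_num
      · norm_num
    omega
  · simp only [q, one_mul, if_pos (one_mem H), if_neg hcH]
    norm_num

open MonoidAlgebra in
/-- The second obstruction: an involution other than `c` which is not central. -/
theorem bad_of_nonnormal [Fintype G] {c : G} (hcc : ∀ g, g * c = c * g) (hc2 : c * c = 1)
    (hc1 : c ≠ 1) {h g : G} (hh : h * h = 1) (hh1 : h ≠ 1) (hhc : h ≠ c) (hgh : g * h ≠ h * g) :
    ∃ w d : G → ℤ, BadPair c w d := by
  classical
  let e : MonoidAlgebra ℤ G := 1 + single h 1
  let f : MonoidAlgebra ℤ G := 1 - single h 1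
  let γ : MonoidAlgebra ℤ G := single g 1
  let W : MonoidAlgebra ℤ G := 4 • e + e * γ * f
  let D : MonoidAlgebra ℤ G := 4 • f - e * γ * f
  have hs : (single h 1 : MonoidAlgebra ℤ G) * single h 1 = 1 := by
    rw [single_mul_single, hh, one_mul]
    rfl
  have hef : e * f = 0 := by
    simp only [e, f]
    rw [mul_sub, add_mul, add_mul, hs, one_mul, one_mul, mul_one]
    abel
  have hfe : f * e = 0 := by
    simp only [e, f]
    rw [mul_add, sub_mul, sub_mul, hs, one_mul, one_mul, mul_one]
    abel
  have hee : e * e = 2 • e := by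
    simp only [e]
    rw [mul_add, add_mul, add_mul, hs]
    simp only [one_mul, mul_one]
    rw [two_smul]
    abel
  have hff : f * f = 2 • f := by
    simp only [f]
    rw [mul_sub, sub_mul, sub_mul, hs]
    simp only [one_mul, mul_one]
    rw [two_smul]
    abel
  have hWD : W * D = 0 := by
    have h1 : W * D = 16 • (e * f) - 4 • ((e * e) * γ * f) + 4 • (e * γ * (f * f)) -
        e * γ * (f * e) * γ * f := by
      simp only [W, D]
      noncomm_ring
    rw [h1, hef, hfe, hee, hff]
    noncomm_ring
  have hX : e * γ * f = single g 1 + single (h * g) 1 - single (g * h) 1 - single (h * g * h) 1 := by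
    simp only [e, γ, f, add_mul, one_mul, mul_sub, mul_one, single_mul_single]
    abel
  let p : G → ℤ := fun y => W.coeff y
  let q : G → ℤ := fun y => D.coeff y⁻¹
  have hp : ∀ y, p y = 4 * ((if y = 1 then 1 else 0) + (if y = h then 1 else 0)) +
      ((if y = g then 1 else 0) + (if y = h * g then 1 else 0) - (if y = g * h then 1 else 0) -
        (if y = h * g * h then 1 else 0)) := by
    intro y
    simp only [p, W]
    rw [hX]
    simp only [e, one_def, coeff_add, coeff_sub, coeff_smul, coeff_single, Finsupp.add_apply,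
      Finsupp.sub_apply, Finsupp.smul_apply, Finsupp.single_apply, eq_comm (b := y)]
    simp
  have hq : ∀ y, q y⁻¹ = 4 * ((if y = 1 then 1 else 0) - (if y = h then 1 else 0)) -
      ((if y = g then 1 else 0) + (if y = h * g then 1 else 0) - (if y = g * h then 1 else 0) -
        (if y = h * g * h then 1 else 0)) := by
    intro y
    simp only [q, D, inv_inv]
    rw [hX]
    simp only [f, one_def, coeff_add, coeff_sub, coeff_smul, coeff_single, Finsupp.add_apply,
      Finsupp.sub_apply, Finsupp.smul_apply, Finsupp.single_apply, eq_comm (b := y)]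
    simp
  have hpq : ∀ t, ∑ x, q x * p (t * x) = 0 := by
    intro t
    have h1 : (W * D).coeff t = 0 := by rw [hWD]; rfl
    rw [coeff_mul_apply_right, Finsupp.sum_fintype _ _ (fun _ => mul_zero _)] at h1
    rw [← h1, ← Equiv.sum_comp (Equiv.inv G)]
    refine Finset.sum_congr rfl fun x _ => ?_
    simp only [q, p, Equiv.inv_apply, inv_inv]
    ring
  -- distinctness of the elements
  have hg1 : g ≠ 1 := by rintro rfl; apply hgh; group
  have hgh' : g ≠ h := by rintro rfl; exact hgh rfl
  have hgc : g ≠ c := by
    rintro rfl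
    exact hgh (hcc h).symm
  have cen : ∀ y, y * h = h * y → ∀ i j : G, i * h = h * i → j * h = h * j → g ≠ i * y * j := by
    intro y hy i j hi hj hgy
    apply hgh
    rw [hgy]
    calc i * y * j * h = i * y * (j * h) := by group
      _ = i * (y * h) * j := by rw [hj]; group
      _ = (i * h) * y * j := by rw [hy]; group
      _ = h * (i * y * j) := by rw [hi]; group
  have hhinv : h⁻¹ = h := inv_eq_of_mul_eq_one_left hh
  have hch : c * h = h * c := (hcc h).symm
  have h1h : (1 : G) * h = h * 1 := by rw [one_mul, mul_one]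
  -- elements of the form `i * g * j` with `i, j ∈ {1, h}` do not commute with `h`
  have n1 : ∀ y, y * h = h * y → y ≠ g := fun y hy e => hgh (e ▸ hy)
  have n2 : ∀ y, y * h = h * y → y ≠ h * g := by
    intro y hy e
    apply hgh
    have : g = h * y := by rw [e, ← mul_assoc, hh, one_mul]
    rw [this, mul_assoc, hy]
  have n3 : ∀ y, y * h = h * y → y ≠ g * h := by
    intro y hy e
    apply hgh
    have : g = y * h := by rw [e, mul_assoc, hh, mul_one]
    rw [this, mul_assoc, ← mul_assoc h, ← hy, mul_assoc]
  have n4 : ∀ y, y * h = h * y → y ≠ h * g * h := by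
    intro y hy e
    apply hgh
    have : g = h * y * h := by
      rw [e]
      calc g = (h * h) * g * (h * h) := by rw [hh, one_mul, mul_one]
        _ = _ := by group
    rw [this]
    calc h * y * h * h = h * (y * h) * h := by group
      _ = h * (h * y) * h := by rw [hy]
      _ = _ := by group
  have m1 : g ≠ h * g := fun e => hh1 (mul_eq_right.1 e.symm)
  have m2 : g ≠ g * h := fun e => hh1 (mul_eq_left.1 e.symm)
  have m3 : g ≠ h * g * h := by
    intro e
    apply hgh
    nth_rewrite 1 [e]
    rw [mul_assoc, hh, mul_one]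
  have m4 : g * h ≠ h * g * h := fun e => hh1 (by
    rw [mul_assoc] at e
    exact mul_eq_right.1 e.symm)
  have cc : c * h = h * c := hch
  have hcinv : c⁻¹ = c := inv_eq_of_mul_eq_one_left hc2
  refine ⟨fun y => p y - p (y * c), fun y => q y - q (y * c), ?_, ?_, ?_, ?_, ?_⟩
  · intro g
    simp only [mul_assoc, hc2, mul_one]
    ring
  · intro g
    simp only [mul_assoc, hc2, mul_one]
    ring
  · exact conv_zero hcc hc2 hpq
  · intro t ht
    have h1 := ht 1
    simp only [one_mul] at h1
    have p1 : p 1 = 4 := by
      rw [hp, if_pos rfl, if_neg hh1.symm, if_neg (n1 1 h1h), if_neg (n2 1 h1h), if_neg (n3 1 h1h),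
        if_neg (n4 1 h1h)]
      norm_num
    have pc : p c = 0 := by
      rw [hp, if_neg hc1, if_neg hhc.symm, if_neg (n1 c cc), if_neg (n2 c cc), if_neg (n3 c cc),
        if_neg (n4 c cc)]
      norm_num
    rw [p1, pc] at h1
    have hA : t = 1 ∨ t = h := by
      by_contra hcon
      push Not at hcon
      have b1 : p t ≤ 1 := by
        rw [hp, if_neg hcon.1, if_neg hcon.2]
        split_ifs with i1 i2 i3 i4 i3 i4 i2 i3 i4 i3 i4 <;> norm_num
        all_goals exact absurd (i1.symm.trans i2) m1
      have b2 : -1 ≤ p (t * c) := by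
        rw [hp]
        generalize t * c = s
        have c1 : ∀ (P : Prop) [Decidable P], (0 : ℤ) ≤ if P then 1 else 0 := by
          intro P _
          split_ifs <;> norm_num
        have c2 : ((if s = g * h then 1 else 0) + (if s = h * g * h then 1 else 0) : ℤ) ≤ 1 := by
          split_ifs with i1 i2
          · exact absurd (i1.symm.trans i2) m4
          all_goals norm_num
        have := c1 (s = 1)
        have := c1 (s = h)
        have := c1 (s = g)
        have := c1 (s = h * g)
        linarith
      omega
    rcases hA with hA | hA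
    · exact hA
    · exfalso
      have h2 := ht g
      rw [hA] at h2
      simp only at h2
      have q1 : p g = 1 := by
        rw [hp, if_neg hg1, if_neg hgh', if_pos rfl, if_neg m1, if_neg m2, if_neg m3]
        norm_num
      have q2 : p (g * h) = -1 := by
        rw [hp, if_neg (fun e => n3 1 h1h e.symm), if_neg (fun e => n3 h rfl e.symm),
          if_neg m2.symm, if_neg hgh, if_pos rfl, if_neg m4]
        norm_num
      have q3 : p (g * c) ≤ 0 := by
        have r1 : g * c ≠ 1 := by
          intro e
          apply hgc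
          rw [← hcinv]
          exact eq_inv_of_mul_eq_one_left e
        have r2 : g * c ≠ h := by
          intro e
          refine n1 (h * c) ?_ ?_
          · rw [mul_assoc, ← cc]
          · rw [← e, mul_assoc, hc2, mul_one]
        have r3 : g * c ≠ g := fun e => hc1 (mul_eq_left.1 e)
        have r4 : g * c ≠ h * g := by
          intro e
          rw [hcc] at e
          exact hhc (mul_right_cancel e).symm
        rw [hp, if_neg r1, if_neg r2, if_neg r3, if_neg r4]
        split_ifs <;> norm_num
      have q4 : 0 ≤ p (g * h * c) := by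
        have r3 : g * h * c ≠ g * h := fun e => hc1 (mul_eq_left.1 e)
        have r4 : g * h * c ≠ h * g * h := by
          intro e
          rw [hcc, mul_assoc h g h] at e
          exact hhc (mul_right_cancel e).symm
        rw [hp, if_neg r3, if_neg r4]
        split_ifs <;> norm_num
      omega
  · simp only [one_mul]
    have q1 : q 1 = 4 := by
      have := hq 1
      rw [inv_one, if_pos rfl, if_neg hh1.symm, if_neg (n1 1 h1h), if_neg (n2 1 h1h),
        if_neg (n3 1 h1h), if_neg (n4 1 h1h)] at this
      rw [this]
      norm_num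
    have qc : q c = 0 := by
      have := hq c
      rw [hcinv, if_neg hc1, if_neg hhc.symm, if_neg (n1 c cc), if_neg (n2 c cc), if_neg (n3 c cc),
        if_neg (n4 c cc)] at this
      rw [this]
      norm_num
    rw [q1, qc]
    norm_num

end Pool.Agent.H21.TC
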