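import Mathlib

/-!
# Finite groups in which every nontrivial subgroup contains a given involution
-/

set_option autoImplicit false

universe u

namespace Pool.Agent.H21.TC

open Subgroup

/-- `c` is an involution which is contained in every nontrivial subgroup. -/
structure Sole {G : Type*} [Group G] (c : G) : Prop where
  ord : orderOf c = 2
  mem : ∀ g : G, g ≠ 1 → c ∈ zpowers g

section basic

variable {G : Type*} [Group G]

theorem Sole.sq {c : G} (h : Sole c) : c * c = 1 := by
  rw [← pow_two, ← h.ord, pow_orderOf_eq_one]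

theorem Sole.ne_one {c : G} (h : Sole c) : c ≠ 1 := by
  intro h1
  have := h.ord
  rw [h1, orderOf_one] at this
  omega

theorem Sole.inv {c : G} (h : Sole c) : c⁻¹ = c := inv_eq_of_mul_eq_one_left h.sq

theorem Sole.eq_of_sq {c : G} (h : Sole c) {g : G} (hg : g * g = 1) : g = 1 ∨ g = c := by
  by_cases h1 : g = 1
  · exact Or.inl h1
  · right
    obtain ⟨k, hk⟩ := mem_zpowers_iff.1 (h.mem g h1)
    have hg2 : g ^ (2 : ℤ) = 1 := by rw [zpow_ofNat, pow_two, hg]
    rcases Int.even_or_odd' k with ⟨l, rfl | rfl⟩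
    · rw [zpow_mul, hg2, one_zpow] at hk
      exact absurd hk.symm h.ne_one
    · rw [zpow_add, zpow_mul, hg2, one_zpow, one_mul, zpow_one] at hk
      exact hk

theorem Sole.comm {c : G} (h : Sole c) (g : G) : g * c = c * g := by
  have h1 : (g * c * g⁻¹) * (g * c * g⁻¹) = 1 := by
    calc (g * c * g⁻¹) * (g * c * g⁻¹) = g * (c * c) * g⁻¹ := by group
      _ = 1 := by rw [h.sq]; group
  rcases h.eq_of_sq h1 with h2 | h2
  · exfalso
    apply h.ne_one
    have : c = g⁻¹ * (g * c * g⁻¹) * g := by group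
    rw [this, h2]
    group
  · have : g * c = (g * c * g⁻¹) * g := by group
    rw [this, h2]

theorem Sole.eq_two [Finite G] {c : G} (h : Sole c) {g : G} {d : ℕ} (hd : d.Prime)
    (hg : orderOf g = d) : d = 2 := by
  have h1 : g ≠ 1 := by
    intro h1
    rw [h1, orderOf_one] at hg
    exact hd.one_lt.ne hg
  have h2 := orderOf_dvd_of_mem_zpowers (h.mem g h1)
  rw [h.ord, hg] at h2
  exact ((Nat.prime_dvd_prime_iff_eq Nat.prime_two hd).1 h2).symm

theorem Sole.exists_order [Finite G] {c : G} (h : Sole c) (g : G) : ∃ k : ℕ, orderOf g = 2 ^ k := by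
  have hpos : orderOf g ≠ 0 := (orderOf_pos g).ne'
  refine ⟨_, Nat.eq_prime_pow_of_unique_prime_dvd hpos fun {d} hd hdg => ?_⟩
  exact h.eq_two hd (orderOf_pow_orderOf_div hpos hdg)

theorem Sole.exists_card [Finite G] {c : G} (h : Sole c) : ∃ k : ℕ, Nat.card G = 2 ^ k := by
  have hpos : Nat.card G ≠ 0 := Nat.card_pos.ne'
  refine ⟨_, Nat.eq_prime_pow_of_unique_prime_dvd hpos fun {d} hd hdg => ?_⟩
  haveI : Fact d.Prime := ⟨hd⟩
  obtain ⟨g, hg⟩ := exists_prime_orderOf_dvd_card' d hdg
  exact h.eq_two hd hg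

theorem conj_zpow' {g x : G} {j : ℤ} (hj : g * x * g⁻¹ = x ^ j) (t : ℤ) :
    g * x ^ t * g⁻¹ = x ^ (j * t) := by
  rw [← conj_zpow, hj, zpow_mul]

/-- An element which normalises a cyclic subgroup and whose square is in it. -/
theorem Sole.step [Finite G] {c x g : G} (h : Sole c) (hx : x ≠ 1) (hg : g ∉ zpowers x) {j : ℤ}
    (hj : g * x * g⁻¹ = x ^ j) (hg2 : g * g ∈ zpowers x) :
    (g * x * g⁻¹ = x ∧ x ∈ zpowers g) ∨ (g * x * g⁻¹ = x⁻¹ ∧ g * g = c) := by
  obtain ⟨k, hk⟩ := h.exists_order x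
  have hk1 : 1 ≤ k := by
    rcases Nat.eq_zero_or_pos k with h0 | h0
    · rw [h0, pow_zero, orderOf_eq_one_iff] at hk
      exact absurd hk hx
    · exact h0
  have E : ∀ a : ℤ, x ^ a = 1 ↔ (2 ^ k : ℤ) ∣ a := by
    intro a
    rw [← orderOf_dvd_iff_zpow_eq_one, hk]
    push_cast
    rfl
  have h2k : (2 : ℤ) ∣ 2 ^ k := dvd_pow_self 2 (by omega)
  have hcx : c ∈ zpowers x := h.mem x hx
  have hno : ∀ y ∈ zpowers x, ¬ (y * g) * (y * g) = 1 := by
    intro y hy hyg
    apply hg
    have e : g = y⁻¹ * (y * g) := by group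
    rcases h.eq_of_sq hyg with h1 | h1
    · rw [e, h1, mul_one]
      exact inv_mem hy
    · rw [e, h1]
      exact mul_mem (inv_mem hy) hcx
  obtain ⟨m, hm⟩ := mem_zpowers_iff.1 hg2
  have A : (2 ^ k : ℤ) ∣ m * (j - 1) := by
    rw [← E, mul_sub, mul_one, zpow_sub, mul_comm m j, ← conj_zpow' hj m, hm]
    group
  have B : (2 ^ k : ℤ) ∣ (j - 1) * (j + 1) := by
    have h1 : x ^ (j * j) = x := by
      rw [← conj_zpow' hj j, ← hj]
      have h2 : g * (g * x * g⁻¹) * g⁻¹ = (g * g) * x * (g * g)⁻¹ := by group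
      rw [h2, ← hm]
      group
    have h2 : (j - 1) * (j + 1) = j * j - 1 := by ring
    rw [← E, h2, zpow_sub, h1, zpow_one, mul_inv_cancel]
  have sq : ∀ t : ℤ, (x ^ t * g) * (x ^ t * g) = x ^ (t + j * t + m) := by
    intro t
    calc (x ^ t * g) * (x ^ t * g) = x ^ t * (g * x ^ t * g⁻¹) * (g * g) := by group
      _ = _ := by rw [conj_zpow' hj, ← hm, ← zpow_add, ← zpow_add]
  have hcop : ∀ v : ℤ, IsCoprime (2 ^ k : ℤ) (2 * v + 1) := fun v =>
    IsCoprime.pow_left ⟨-v, 1, by ring⟩
  have hmod : j % 4 = 1 ∨ j % 4 = 3 := by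
    have h2 : (2 : ℤ) ∣ (j - 1) * (j + 1) := h2k.trans B
    rcases Int.even_or_odd' j with ⟨l, hl | hl⟩
    · exfalso
      have h3 : (j - 1) * (j + 1) = 2 * (2 * l * l) - 1 := by rw [hl]; ring
      rw [h3] at h2
      omega
    · omega
  rcases hmod with hmod | hmod
  · -- `j = 1` modulo `4`
    obtain ⟨v, hv⟩ : ∃ v, j + 1 = 2 * (2 * v + 1) := ⟨(j - 1) / 4, by omega⟩
    have B' : (2 ^ k : ℤ) ∣ 2 * (j - 1) := by
      have h1 : (j - 1) * (j + 1) = (2 * (j - 1)) * (2 * v + 1) := by rw [hv]; ring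
      rw [h1] at B
      exact (hcop v).dvd_of_dvd_mul_right B
    by_cases hj1 : (2 ^ k : ℤ) ∣ j - 1
    · left
      have hxj : x ^ j = x := by
        have := (E _).2 hj1
        rw [zpow_sub, zpow_one] at this
        exact mul_inv_eq_one.1 this
      refine ⟨hj.trans hxj, ?_⟩
      rcases Int.even_or_odd' m with ⟨l, hl | hl⟩
      · exfalso
        apply hno (x ^ (-l)) (zpow_mem (mem_zpowers x) _)
        rw [sq, E]
        have : -l + j * -l + m = - l * (j - 1) := by rw [hl]; ring
        rw [this]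
        exact hj1.mul_left _
      · obtain ⟨a, b, hab⟩ := hcop l
        rw [← hl] at hab
        have h1 : x = (g * g) ^ b := by
          rw [← hm, ← zpow_mul]
          calc x = x ^ (a * 2 ^ k + b * m) := by rw [hab, zpow_one]
            _ = x ^ (m * b) := by
              rw [zpow_add, (E _).2 (dvd_mul_left _ _), one_mul, mul_comm]
        rw [h1]
        exact zpow_mem (mul_mem (mem_zpowers g) (mem_zpowers g)) _
    · exfalso
      rcases Int.even_or_odd' m with ⟨l, hl | hl⟩
      · obtain ⟨a, b, hab⟩ := hcop v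
        apply hno (x ^ (-l * b)) (zpow_mem (mem_zpowers x) _)
        rw [sq, E]
        have : -l * b + j * (-l * b) + m = 2 ^ k * (2 * l * a) := by
          have h1 : -l * b + j * (-l * b) + m = - l * b * (j + 1) + m := by ring
          rw [h1, hv, hl]
          have h2 : b * (2 * v + 1) = 1 - a * 2 ^ k := by linarith
          calc -l * b * (2 * (2 * v + 1)) + 2 * l = -2 * l * (b * (2 * v + 1)) + 2 * l := by ring
            _ = _ := by rw [h2]; ring
        rw [this]
        exact dvd_mul_right _ _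
      · apply hj1
        rw [hl, mul_comm] at A
        exact (hcop l).dvd_of_dvd_mul_right A
  · -- `j = 3` modulo `4`
    obtain ⟨v, hv⟩ : ∃ v, j - 1 = 2 * (2 * v + 1) := ⟨(j - 3) / 4, by omega⟩
    have A' : (2 ^ k : ℤ) ∣ 2 * m := by
      have h1 : m * (j - 1) = (2 * m) * (2 * v + 1) := by rw [hv]; ring
      rw [h1] at A
      exact (hcop v).dvd_of_dvd_mul_right A
    have B' : (2 ^ k : ℤ) ∣ 2 * (j + 1) := by
      have h1 : (j - 1) * (j + 1) = (2 * (j + 1)) * (2 * v + 1) := by rw [hv]; ring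
      rw [h1] at B
      exact (hcop v).dvd_of_dvd_mul_right B
    have hggc : g * g = c := by
      have h1 : (g * g) * (g * g) = 1 := by
        rw [← hm, ← zpow_add, E]
        have : m + m = 2 * m := by ring
        rw [this]
        exact A'
      rcases h.eq_of_sq h1 with h2 | h2
      · exfalso
        apply hno 1 (one_mem _)
        rw [one_mul]
        exact h2
      · exact h2
    by_cases hj1 : (2 ^ k : ℤ) ∣ j + 1
    · right
      refine ⟨?_, hggc⟩
      rw [hj]
      have := (E _).2 hj1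
      rw [zpow_add, zpow_one] at this
      exact eq_inv_of_mul_eq_one_left this
    · exfalso
      have h1 : x ^ (j + 1) = c := by
        have h2 : x ^ (j + 1) * x ^ (j + 1) = 1 := by
          rw [← zpow_add, E]
          have : j + 1 + (j + 1) = 2 * (j + 1) := by ring
          rw [this]
          exact B'
        rcases h.eq_of_sq h2 with h3 | h3
        · exact absurd ((E _).1 h3) hj1
        · exact h3
      apply hno (x ^ (1 : ℤ)) (zpow_mem (mem_zpowers x) _)
      rw [sq]
      have h2 : (1 : ℤ) + j * 1 + m = (j + 1) + m := by ring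
      rw [h2, zpow_add, h1, hm, hggc, h.sq]

/-- The structure of the groups: cyclic or generalised quaternion. -/
def Struct (c : G) : Prop :=
  ∃ x : G, x ≠ 1 ∧ ((∀ g, g ∈ zpowers x) ∨
    ∃ y, y ∉ zpowers x ∧ y * x * y⁻¹ = x⁻¹ ∧ y * y = c ∧ ∀ g, g ∈ zpowers x ∨ g * y ∈ zpowers x)

theorem Sole.of_index [Finite G] {c b : G} (h : Sole c) (hb : b ≠ 1) (hi : (zpowers b).index = 2) :
    Struct c := by
  obtain ⟨g, hg⟩ : ∃ g, g ∉ zpowers b := by
    by_contra hno
    push Not at hno
    have : zpowers b = ⊤ := (eq_top_iff' _).2 hno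
    rw [this, index_top] at hi
    omega
  have hn : (zpowers b).Normal := normal_of_index_eq_two hi
  obtain ⟨j, hj⟩ := mem_zpowers_iff.1 (hn.conj_mem b (mem_zpowers b) g)
  have hgg : g * g ∈ zpowers b := (mul_mem_iff_of_index_two hi).2 Iff.rfl
  rcases h.step hb hg hj.symm hgg with ⟨_, h1⟩ | ⟨h1, h2⟩
  · refine ⟨g, fun h0 => hg (by rw [h0]; exact one_mem _), Or.inl fun y => ?_⟩
    have hle : zpowers b ≤ zpowers g := zpowers_le.2 h1
    by_cases hy : y ∈ zpowers b
    · exact hle hy
    · have h3 : y * g ∈ zpowers b := (mul_mem_iff_of_index_two hi).2 ⟨fun h => absurd h hy, fun h => absurd h hg⟩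
      have h4 : y = (y * g) * g⁻¹ := by group
      rw [h4]
      exact mul_mem (hle h3) (inv_mem (mem_zpowers g))
  · refine ⟨b, hb, Or.inr ⟨g, hg, h1, h2, fun y => ?_⟩⟩
    by_cases hy : y ∈ zpowers b
    · exact Or.inl hy
    · exact Or.inr ((mul_mem_iff_of_index_two hi).2 ⟨fun h => absurd h hy, fun h => absurd h hg⟩)

end basic

end Pool.Agent.H21.TC
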