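import Pool.Agent.H21.TC.Cls

/-!
# The classification
-/

set_option autoImplicit false

universe u

namespace Pool.Agent.H21.TC

open Subgroup

section quat

variable {G : Type*} [Group G]

/-- A configuration of quaternion type in the subgroup `N`. -/
structure Quat (c : G) (N : Subgroup G) (x y : G) : Prop where
  hx : x ∈ N
  hy : y ∈ N
  sq : x * x ≠ 1
  nmem : y ∉ zpowers x
  conj : y * x * y⁻¹ = x⁻¹
  ysq : y * y = c
  all : ∀ g ∈ N, g ∈ zpowers x ∨ g * y ∈ zpowers x

theorem Quat.conj_zpow {c : G} {N : Subgroup G} {x y : G} (q : Quat c N x y) (t : ℤ) :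
    y * x ^ t * y⁻¹ = x ^ (-t) := by
  have h : y * x * y⁻¹ = x ^ (-1 : ℤ) := by rw [q.conj, zpow_neg_one]
  rw [conj_zpow' h]
  congr 1
  ring

theorem Quat.conj_zpow2 {c : G} {N : Subgroup G} {x y : G} (q : Quat c N x y) (t : ℤ) :
    y⁻¹ * x ^ t * y = x ^ (-t) := by
  have h := q.conj_zpow (-t)
  rw [neg_neg] at h
  rw [← h]
  group

/-- Elements of `N` act on `x` by `x` or `x⁻¹`. -/
theorem Quat.act {c : G} {N : Subgroup G} {x y : G} (q : Quat c N x y) {g : G} (hg : g ∈ N) :
    (g ∈ zpowers x ∧ g * x * g⁻¹ = x) ∨ (g * y ∈ zpowers x ∧ g * x * g⁻¹ = x⁻¹) := by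
  rcases q.all g hg with h | h
  · left
    refine ⟨h, ?_⟩
    obtain ⟨i, rfl⟩ := mem_zpowers_iff.1 h
    group
  · right
    refine ⟨h, ?_⟩
    obtain ⟨i, hi⟩ := mem_zpowers_iff.1 h
    have e : g = x ^ i * y⁻¹ := by rw [hi]; group
    rw [e]
    have h2 := q.conj_zpow2 1
    rw [zpow_one, zpow_neg_one] at h2
    calc x ^ i * y⁻¹ * x * (x ^ i * y⁻¹)⁻¹ = x ^ i * (y⁻¹ * x * y) * (x ^ i)⁻¹ := by group
      _ = _ := by rw [h2]; group

theorem Quat.sq_outside {c : G} {N : Subgroup G} {x y : G} (q : Quat c N x y) (h : Sole c) {g : G}
    (hg : g * y ∈ zpowers x) : g * g = c := by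
  obtain ⟨i, hi⟩ := mem_zpowers_iff.1 hg
  have e : g = x ^ i * y⁻¹ := by rw [hi]; group
  rw [e]
  have h2 := q.conj_zpow2 i
  have h3 : y⁻¹ * y⁻¹ = c := by
    rw [← mul_inv_rev, q.ysq, h.inv]
  calc x ^ i * y⁻¹ * (x ^ i * y⁻¹) = x ^ i * (y⁻¹ * x ^ i * y) * (y⁻¹ * y⁻¹) := by group
    _ = c := by rw [h2, h3, zpow_neg, mul_inv_cancel, one_mul]

/-- One can choose `x` such that its powers are normalised by `g`. -/
theorem Quat.normalise {c : G} {N : Subgroup G} {x y : G} (q : Quat c N x y) (h : Sole c) (g : G)
    (hN : N.Normal) (hg2 : g * g ∈ N) :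
    ∃ x' y', Quat c N x' y' ∧ g * x' * g⁻¹ ∈ zpowers x' := by
  by_cases h0 : g * x * g⁻¹ ∈ zpowers x
  · exact ⟨x, y, q, h0⟩
  set z := g * x * g⁻¹ with hz
  have hzN : z ∈ N := hN.conj_mem x q.hx g
  have hcx : c ∈ zpowers x := h.mem x fun h1 => q.sq (by rw [h1, one_mul])
  rcases q.act hzN with ⟨h1, -⟩ | ⟨h1, h2⟩
  · exact absurd h1 h0
  have hzz : z * z = c := q.sq_outside h h1
  have hxx : x * x = c := by
    have h3 : g * (x * x) * g⁻¹ = c := by rw [← hzz, hz]; group
    have h4 : x * x = g⁻¹ * (g * (x * x) * g⁻¹) * g := by group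
    rw [h4, h3, mul_assoc, ← h.comm g]
    group
  -- `z x = x⁻¹ z`, `x z = z x⁻¹`
  have e1 : z * x = x⁻¹ * z := by
    rw [← h2]; group
  have e2 : z * x⁻¹ = x * z := by
    have : z * x⁻¹ * z⁻¹ = x := by
      have h3 : z * x⁻¹ * z⁻¹ = (z * x * z⁻¹)⁻¹ := by group
      rw [h3, h2, inv_inv]
    calc z * x⁻¹ = (z * x⁻¹ * z⁻¹) * z := by group
      _ = _ := by rw [this]
  have e3 : x⁻¹ = c * x := by
    rw [← hxx]
    have : x⁻¹ = x * x * x * ((x * x) * (x * x))⁻¹ := by group
    rw [this, hxx, h.sq, inv_one, mul_one]
  have e4 : (x * z) * (x * z) = c := by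
    calc (x * z) * (x * z) = x * (z * x) * z := by group
      _ = z * z := by rw [e1]; group
      _ = c := hzz
  have hcxz : c ∈ zpowers (x * z) := by
    rw [← e4]
    exact mul_mem (mem_zpowers _) (mem_zpowers _)
  have ev : ∀ t : ℤ, x ^ (2 * t) ∈ zpowers (x * z) := by
    intro t
    have h3 : x ^ (2 : ℤ) = c := by rw [zpow_ofNat, pow_two, hxx]
    rw [zpow_mul, h3]
    exact zpow_mem hcxz t
  have e5 : z * x = c * (x * z) := by rw [e1, e3, mul_assoc]
  refine ⟨x * z, x, ⟨mul_mem q.hx hzN, q.hx, ?_, ?_, ?_, hxx, ?_⟩, ?_⟩
  · rw [e4]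
    exact h.ne_one
  · intro h3
    obtain ⟨t, ht⟩ := mem_zpowers_iff.1 h3
    apply q.sq
    have h4 : x * (x * z) = (x * z) * x := by
      have := (Commute.refl (x * z)).zpow_left t
      rw [ht] at this
      exact this.eq
    have h5 : x * z = z * x := by
      have : x * (x * z) = x * (z * x) := by rw [h4]; group
      exact mul_left_cancel this
    rw [e1] at h5
    have h6 : x = x⁻¹ := mul_right_cancel h5
    calc x * x = x * x⁻¹ := by rw [← h6]
      _ = 1 := mul_inv_cancel x
  · have h3 : x * (x * z) * x⁻¹ = x * x * (z * x⁻¹) := by group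
    rw [h3, e2, hxx]
    rw [eq_comm, inv_eq_iff_mul_eq_one]
    rw [← mul_assoc, h.comm (x * z), mul_assoc, e4, h.sq]
  · intro v hv
    have par : ∀ w ∈ zpowers x, w ∈ zpowers (x * z) ∨ w * x ∈ zpowers (x * z) := by
      intro w hw
      obtain ⟨i, rfl⟩ := mem_zpowers_iff.1 hw
      rcases Int.even_or_odd' i with ⟨l, rfl | rfl⟩
      · exact Or.inl (ev l)
      · right
        have : x ^ (2 * l + 1) * x = x ^ (2 * (l + 1)) := by
          rw [← zpow_add_one]
          congr 1
          ring
        rw [this]
        exact ev _
    rcases q.act hv with ⟨h3, -⟩ | ⟨h3, -⟩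
    · exact par v h3
    · -- `v = x ^ i * z`
      have h4 : v * z⁻¹ ∈ zpowers x := by
        have : v * z⁻¹ = (v * y) * (z * y)⁻¹ := by group
        rw [this]
        exact mul_mem h3 (inv_mem h1)
      obtain ⟨i, hi⟩ := mem_zpowers_iff.1 h4
      have e6 : v = x ^ i * z := by rw [hi]; group
      rw [e6]
      rcases Int.even_or_odd' i with ⟨l, rfl | rfl⟩
      · right
        have : x ^ (2 * l) * z * x = x ^ (2 * l) * (c * (x * z)) := by rw [← e5]; group
        rw [this]
        exact mul_mem (ev l) (mul_mem hcxz (mem_zpowers _))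
      · left
        have : x ^ (2 * l + 1) * z = x ^ (2 * l) * (x * z) := by rw [zpow_add_one, mul_assoc]
        rw [this]
        exact mul_mem (ev l) (mem_zpowers _)
  · have h3 : g * (x * z) * g⁻¹ = z * ((g * g) * x * (g * g)⁻¹) := by
      rw [hz]; group
    rw [h3]
    rcases q.act hg2 with ⟨-, h4⟩ | ⟨-, h4⟩
    · rw [h4, e5]
      exact mul_mem hcxz (mem_zpowers _)
    · rw [h4, e2]
      exact mem_zpowers _

end quat

theorem Sole.classify : ∀ (k : ℕ) (G : Type u) [Group G] [Finite G] (c : G), Sole c →
    Nat.card G = 2 ^ (k + 1) → Struct c := by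
  intro k
  induction k with
  | zero =>
    intro G _ _ c h hcard
    refine ⟨c, h.ne_one, Or.inl fun g => ?_⟩
    have h1 : Nat.card (zpowers c) = Nat.card G := by
      rw [Nat.card_zpowers, h.ord, hcard]
      rfl
    have h2 : zpowers c = ⊤ := (Subgroup.card_eq_iff_eq_top _).1 h1
    rw [h2]
    exact mem_top g
  | succ k ih =>
    intro G _ _ c h hcard
    haveI : Fact (Nat.Prime 2) := ⟨Nat.prime_two⟩
    obtain ⟨N, hN⟩ := Sylow.exists_subgroup_card_pow_prime 2 (G := G) (n := k + 1)
      (by rw [hcard]; exact pow_dvd_pow 2 (by omega))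
    have hidx : N.index = 2 := by
      have h1 := N.card_mul_index
      rw [hN, hcard, pow_succ] at h1
      exact Nat.eq_of_mul_eq_mul_left (by positivity) h1
    have hnorm : N.Normal := normal_of_index_eq_two hidx
    -- the involution is in `N`
    have hcN : c ∈ N := by
      obtain ⟨g, hg1, hg2⟩ : ∃ g ∈ N, g ≠ 1 := by
        by_contra hno
        push Not at hno
        have : N = ⊥ := (eq_bot_iff_forall _).2 hno
        rw [this, Nat.card_unique] at hN
        have : 1 < 2 ^ (k + 1) := Nat.one_lt_two_pow (by omega)
        omega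
      exact (zpowers_le.2 hg1) (h.mem g hg2)
    have hN' : Sole (⟨c, hcN⟩ : N) := by
      refine ⟨by rw [Subgroup.orderOf_mk]; exact h.ord, fun g hg => ?_⟩
      obtain ⟨i, hi⟩ := mem_zpowers_iff.1 (h.mem (g : G) fun h1 => hg (Subtype.ext h1))
      exact mem_zpowers_iff.2 ⟨i, Subtype.ext (by simpa using hi)⟩
    have hsub : ∀ (x v : N), v ∈ zpowers x → (v : G) ∈ zpowers (x : G) := by
      intro x v hv
      obtain ⟨i, rfl⟩ := mem_zpowers_iff.1 hv
      exact mem_zpowers_iff.2 ⟨i, by simp⟩
    -- the cyclic case
    have hcyc : ∀ x : G, x ∈ N → x ≠ 1 → (∀ v ∈ N, v ∈ zpowers x) → Struct c := by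
      intro x hx hx1 hall
      apply h.of_index hx1
      have : zpowers x = N := le_antisymm (zpowers_le.2 hx) hall
      rw [this, hidx]
    obtain ⟨x, hx1, hx⟩ := ih N ⟨c, hcN⟩ hN' hN
    rcases hx with hx | ⟨y, hy1, hy2, hy3, hy4⟩
    · exact hcyc x x.2 (fun h1 => hx1 (Subtype.ext h1)) fun v hv => hsub x ⟨v, hv⟩ (hx _)
    · by_cases hxx : (x : G) * x = 1
      · -- `x = c`
        have hxc : (x : G) = c := by
          rcases h.eq_of_sq hxx with h1 | h1
          · exact absurd (Subtype.ext h1) hx1
          · exact h1
        have hyy : (y : G) * y = c := congrArg Subtype.val hy3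
        have hcy : c ∈ zpowers (y : G) := by
          rw [← hyy]
          exact mul_mem (mem_zpowers _) (mem_zpowers _)
        refine hcyc y y.2 (fun h1 => hy1 ?_) fun v hv => ?_
        · have : y = 1 := Subtype.ext h1
          rw [this]
          exact one_mem _
        · have hle : zpowers (x : G) ≤ zpowers (y : G) := by
            rw [hxc]
            exact zpowers_le.2 hcy
          rcases hy4 ⟨v, hv⟩ with h1 | h1
          · exact hle (hsub _ _ h1)
          · have h2 := hle (hsub _ _ h1)
            have h3 : v = (v * y) * (y : G)⁻¹ := by group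
            rw [h3]
            exact mul_mem h2 (inv_mem (mem_zpowers _))
      · -- quaternion type
        have q0 : Quat c N (x : G) (y : G) := by
          refine ⟨x.2, y.2, hxx, fun h1 => hy1 ?_, congrArg Subtype.val hy2,
            congrArg Subtype.val hy3, fun g hg => ?_⟩
          · obtain ⟨i, hi⟩ := mem_zpowers_iff.1 h1
            exact mem_zpowers_iff.2 ⟨i, Subtype.ext (by simpa using hi)⟩
          · rcases hy4 ⟨g, hg⟩ with h1 | h1
            · exact Or.inl (hsub _ _ h1)
            · exact Or.inr (hsub _ _ h1)
        obtain ⟨g, hg⟩ : ∃ g, g ∉ N := by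
          by_contra hno
          push Not at hno
          have : N = ⊤ := (eq_top_iff' _).2 hno
          rw [this, index_top] at hidx
          omega
        have hgg : g * g ∈ N := (mul_mem_iff_of_index_two hidx).2 Iff.rfl
        obtain ⟨x, y, q, hgx⟩ := q0.normalise h g hnorm hgg
        have hx1 : x ≠ 1 := fun h1 => q.sq (by rw [h1, one_mul])
        obtain ⟨a, ha⟩ := h.exists_order x
        have ha2 : 2 ≤ a := by
          by_contra hlt
          have : a = 0 ∨ a = 1 := by omega
          rcases this with h1 | h1
          · rw [h1, pow_zero, orderOf_eq_one_iff] at ha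
            exact hx1 ha
          · rw [h1, pow_one] at ha
            apply q.sq
            rw [← pow_two, ← ha, pow_orderOf_eq_one]
        have E : ∀ t : ℤ, x ^ t = 1 → (4 : ℤ) ∣ t := by
          intro t ht
          have h1 := orderOf_dvd_iff_zpow_eq_one.2 ht
          rw [ha] at h1
          have h2 : (4 : ℤ) ∣ ((2 ^ a : ℕ) : ℤ) := by
            obtain ⟨b, rfl⟩ := Nat.exists_eq_add_of_le ha2
            push_cast
            rw [pow_add]
            exact dvd_mul_right _ _
          exact h2.trans h1
        have hsq : ∀ (v : G) (i : ℤ), v * x * v⁻¹ = x ^ i → v * v ∈ N →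
            ((v * v) * x * (v * v)⁻¹ = x ^ (i * i)) := by
          intro v i hi _
          have h1 : (v * v) * x * (v * v)⁻¹ = v * (v * x * v⁻¹) * v⁻¹ := by group
          rw [h1, hi, conj_zpow' hi]
        -- we may suppose that the exponent is `1` modulo `4`
        obtain ⟨g', j, hg'N, hj, hj4⟩ : ∃ (g' : G) (j : ℤ), g' ∉ N ∧ g' * x * g'⁻¹ = x ^ j ∧
            j % 4 = 1 := by
          obtain ⟨j, hj⟩ := mem_zpowers_iff.1 hgx
          have hodd : j % 2 = 1 := by
            have h1 := hsq g j hj.symm hgg
            rcases q.act hgg with ⟨-, h2⟩ | ⟨-, h2⟩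
            · rw [h2] at h1
              have h3 : x ^ (j * j - 1) = 1 := by
                rw [zpow_sub, ← h1, zpow_one, mul_inv_cancel]
              have h4 := E _ h3
              rcases Int.even_or_odd' j with ⟨l, hl | hl⟩
              · exfalso
                rw [hl] at h4
                have : 2 * l * (2 * l) - 1 = 4 * (l * l) - 1 := by ring
                rw [this] at h4
                omega
              · omega
            · rw [h2] at h1
              have h3 : x ^ (j * j + 1) = 1 := by
                rw [zpow_add, ← h1, zpow_one, inv_mul_cancel]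
              have h4 := E _ h3
              rcases Int.even_or_odd' j with ⟨l, hl | hl⟩
              · exfalso
                rw [hl] at h4
                have : 2 * l * (2 * l) + 1 = 4 * (l * l) + 1 := by ring
                rw [this] at h4
                omega
              · omega
          have : j % 4 = 1 ∨ j % 4 = 3 := by omega
          rcases this with h1 | h1
          · exact ⟨g, j, hg, hj.symm, h1⟩
          · refine ⟨g * y, -j, ?_, ?_, by omega⟩
            · intro h2
              apply hg
              have : g = (g * y) * y⁻¹ := by group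
              rw [this]
              exact mul_mem h2 (inv_mem q.hy)
            · have h2 : g * y * x * (g * y)⁻¹ = g * (y * x * y⁻¹) * g⁻¹ := by group
              rw [h2, q.conj, ← zpow_neg_one, conj_zpow' hj.symm]
              congr 1
              ring
        have hgg' : g' * g' ∈ N := (mul_mem_iff_of_index_two hidx).2 Iff.rfl
        have hgx' : g' * g' ∈ zpowers x := by
          rcases q.act hgg' with ⟨h1, -⟩ | ⟨-, h2⟩
          · exact h1
          · exfalso
            have h1 := hsq g' j hj hgg'
            rw [h2] at h1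
            have h3 : x ^ (j * j + 1) = 1 := by
              rw [zpow_add, ← h1, zpow_one, inv_mul_cancel]
            have h4 := E _ h3
            obtain ⟨l, hl⟩ : ∃ l, j = 4 * l + 1 := ⟨j / 4, by omega⟩
            rw [hl] at h4
            have : (4 * l + 1) * (4 * l + 1) + 1 = 4 * (4 * l * l + 2 * l) + 2 := by ring
            rw [this] at h4
            omega
        have hzN : zpowers x ≤ N := zpowers_le.2 q.hx
        have hxg : x ∈ zpowers g' := by
          rcases h.step hx1 (fun h1 => hg'N (hzN h1)) hj hgx' with ⟨-, h1⟩ | ⟨h1, -⟩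
          · exact h1
          · exfalso
            rw [hj] at h1
            have h3 : x ^ (j + 1) = 1 := by
              rw [zpow_add, h1, zpow_one, inv_mul_cancel]
            have h4 := E _ h3
            omega
        -- cardinalities
        have hA : Nat.card (zpowers x) * 2 ≤ Nat.card (zpowers g') := by
          have hle : zpowers x ≤ zpowers g' := zpowers_le.2 hxg
          have hdvd := Subgroup.card_dvd_of_le hle
          obtain ⟨e, he⟩ := hdvd
          have h0 : 0 < Nat.card (zpowers x) := Nat.card_pos
          have h0' : 0 < Nat.card (zpowers g') := Nat.card_pos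
          have he2 : 2 ≤ e := by
            by_contra hlt
            have : e = 0 ∨ e = 1 := by omega
            rcases this with h1 | h1
            · rw [h1, mul_zero] at he
              omega
            · rw [h1, mul_one] at he
              have h2 : zpowers x = zpowers g' := Subgroup.eq_of_le_of_card_ge hle he.le
              apply hg'N
              apply hzN
              rw [h2]
              exact mem_zpowers g'
          rw [he]
          exact Nat.mul_le_mul_left _ he2
        have hN2 : Nat.card N ≤ Nat.card (zpowers x) * 2 := by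
          let f : N → zpowers x × Bool := fun v =>
            open Classical in
            if hv : (v : G) ∈ zpowers x then (⟨v, hv⟩, true)
            else if hv' : (v : G) * y ∈ zpowers x then (⟨v * y, hv'⟩, false) else (1, true)
          have hf : Function.Injective f := by
            intro v w hvw
            simp only [f] at hvw
            by_cases h1 : (v : G) ∈ zpowers x
            · rw [dif_pos h1] at hvw
              by_cases h2 : (w : G) ∈ zpowers x
              · rw [dif_pos h2] at hvw
                have := (Prod.mk.inj hvw).1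
                exact Subtype.ext (congrArg (fun z : zpowers x => (z : G)) this)
              · rw [dif_neg h2, dif_pos ((q.all w w.2).resolve_left h2)] at hvw
                exact absurd (Prod.mk.inj hvw).2 (by simp)
            · have h1' := (q.all v v.2).resolve_left h1
              rw [dif_neg h1, dif_pos h1'] at hvw
              by_cases h2 : (w : G) ∈ zpowers x
              · rw [dif_pos h2] at hvw
                exact absurd (Prod.mk.inj hvw).2 (by simp)
              · rw [dif_neg h2, dif_pos ((q.all w w.2).resolve_left h2)] at hvw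
                have := (Prod.mk.inj hvw).1
                have h3 : (v : G) * y = w * y := congrArg (fun z : zpowers x => (z : G)) this
                exact Subtype.ext (mul_right_cancel h3)
          have := Nat.card_le_card_of_injective f hf
          rw [Nat.card_prod] at this
          simpa using this
        have hcardG : Nat.card G = Nat.card N * 2 := by
          rw [← N.card_mul_index, hidx]
        have hB := (zpowers g').card_mul_index
        have hBpos : 0 < Nat.card (zpowers g') := Nat.card_pos
        have hi2 : (zpowers g').index ≤ 2 := by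
          have h1 : Nat.card (zpowers g') * (zpowers g').index ≤ Nat.card (zpowers g') * 2 := by
            rw [hB, hcardG]
            omega
          exact Nat.le_of_mul_le_mul_left h1 hBpos
        have hi0 : (zpowers g').index ≠ 0 := Subgroup.index_ne_zero_of_finite
        have hg'1 : g' ≠ 1 := fun h1 => hg'N (by rw [h1]; exact one_mem _)
        have : (zpowers g').index = 1 ∨ (zpowers g').index = 2 := by omega
        rcases this with h1 | h1
        · refine ⟨g', hg'1, Or.inl fun v => ?_⟩
          rw [Subgroup.index_eq_one.1 h1]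
          exact mem_top v
        · exact h.of_index hg'1 h1

theorem Sole.struct {G : Type u} [Group G] [Finite G] {c : G} (h : Sole c) : Struct c := by
  obtain ⟨k, hk⟩ := h.exists_card
  rcases Nat.eq_zero_or_pos k with h0 | h0
  · exfalso
    rw [h0, pow_zero] at hk
    have := Nat.card_eq_one_iff_unique.1 hk
    haveI := this.1
    exact h.ne_one (Subsingleton.elim _ _)
  · obtain ⟨m, rfl⟩ := Nat.exists_eq_add_of_le h0
    exact Sole.classify m G c h (by rw [hk, add_comm])

end Pool.Agent.H21.TC
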