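import Pool.Agent.H21.TC.Bad

/-!
# The subgroup condition determines the group
-/

set_option autoImplicit false

universe u

namespace Pool.Agent.H21.TC

open Subgroup

variable {G : Type u} [Group G]

/-- The subgroup condition. -/
def Cond (c : G) : Prop := ∀ H : Subgroup G, H ≠ ⊥ → c ∉ H → Nat.card H = 2 ∧ H.Normal

theorem Cond.of_not_bad [Fintype G] {c : G} (hcc : ∀ g, g * c = c * g) (hc2 : c * c = 1)
    (hc1 : c ≠ 1) (h : ¬ ∃ w d : G → ℤ, BadPair c w d) : Cond c := by
  intro H hH hcH
  have hcard : Nat.card H = 2 := by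
    by_contra hcard
    apply h
    have h1 : Nat.card H ≠ 1 := by rwa [Ne, Subgroup.card_eq_one]
    have h0 : 0 < Nat.card H := Nat.card_pos
    have h3 : 2 < Nat.card H := by omega
    obtain ⟨a, ha⟩ := (H.ne_bot_iff_exists_ne_one.1 hH)
    · obtain ⟨b, hb, hb1⟩ : ∃ b : H, b ≠ 1 ∧ b ≠ a := by
        by_contra hno
        push Not at hno
        have : Nat.card H ≤ Nat.card ({1, a} : Set H) := by
          apply Nat.card_le_card_of_injective (fun b : H => (⟨b, by
            by_cases hb : b = 1
            · simp [hb]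
            · simp [hno b hb]⟩ : ({1, a} : Set H)))
          intro b b' hbb
          exact congrArg Subtype.val hbb
        have h4 : Nat.card ({1, a} : Set H) ≤ 2 := by
          rw [Nat.card_coe_set_eq]
          exact (Set.ncard_insert_le _ _).trans (by rw [Set.ncard_singleton])
        omega
      exact bad_of_three hcc hc2 hc1 hcH a.2 b.2 (fun h => ha (Subtype.ext h))
        (fun h => hb (Subtype.ext h)) (fun h => hb1 (Subtype.ext h.symm))
  refine ⟨hcard, ?_⟩
  obtain ⟨⟨a, ha⟩, ha1⟩ := H.ne_bot_iff_exists_ne_one.1 hH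
  have ha1' : a ≠ 1 := fun h => ha1 (Subtype.ext h)
  have haa : a * a = 1 := by
    have := pow_card_eq_one' (G := H) (x := ⟨a, ha⟩)
    rw [hcard, pow_two] at this
    exact congrArg Subtype.val this
  have hmem : ∀ b ∈ H, b = 1 ∨ b = a := by
    intro b hb
    by_contra hcon
    push Not at hcon
    have h5 : ({⟨1, one_mem H⟩, ⟨a, ha⟩, ⟨b, hb⟩} : Set H).ncard = 3 := by
      rw [Set.ncard_eq_three]
      refine ⟨_, _, _, ?_, ?_, ?_, rfl⟩
      · intro h; exact ha1' (congrArg Subtype.val h).symm
      · intro h; exact hcon.1 (congrArg Subtype.val h).symm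
      · intro h; exact hcon.2 (congrArg Subtype.val h).symm
    have h6 := Set.ncard_le_card ({⟨1, one_mem H⟩, ⟨a, ha⟩, ⟨b, hb⟩} : Set H)
    omega
  have hac : a ≠ c := by
    rintro rfl
    exact hcH ha
  constructor
  intro b hb g
  have hcomm : g * a = a * g := by
    by_contra hne
    exact h (bad_of_nonnormal hcc hc2 hc1 haa ha1' hac hne)
  rcases hmem b hb with rfl | rfl
  · rw [mul_one, mul_inv_cancel]
    exact one_mem H
  · rw [hcomm, mul_assoc, mul_inv_cancel, mul_one]
    exact hb

theorem Cond.sole_or_splitBy [Finite G] {c : G} (hc2 : c * c = 1) (hc1 : c ≠ 1)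
    (h : Cond c) : Sole c ∨ SplitBy c := by
  have hord : orderOf c = 2 := orderOf_eq_prime (by rw [pow_two, hc2]) hc1
  by_cases hs : ∀ g : G, g ≠ 1 → c ∈ zpowers g
  · exact Or.inl ⟨hord, hs⟩
  right
  push Not at hs
  obtain ⟨z, hz1, hz⟩ := hs
  have hZ : zpowers z ≠ ⊥ := by rwa [Ne, zpowers_eq_bot]
  obtain ⟨hcard, hnorm⟩ := h _ hZ hz
  have hzo : orderOf z = 2 := by rw [← Nat.card_zpowers, hcard]
  have hzz : z * z = 1 := by rw [← pow_two, ← hzo, pow_orderOf_eq_one]
  have hzinv : z⁻¹ = z := inv_eq_of_mul_eq_one_left hzz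
  have hmemZ : ∀ g, g ∈ zpowers z ↔ g = 1 ∨ g = z := by
    intro g
    constructor
    · intro hg
      obtain ⟨k, rfl⟩ := mem_zpowers_iff.1 hg
      have hg2 : z ^ (2 : ℤ) = 1 := by rw [zpow_ofNat, pow_two, hzz]
      rcases Int.even_or_odd' k with ⟨l, rfl | rfl⟩
      · left
        rw [zpow_mul, hg2, one_zpow]
      · right
        rw [zpow_add, zpow_mul, hg2, one_zpow, one_mul, zpow_one]
    · rintro (rfl | rfl)
      · exact one_mem _
      · exact mem_zpowers _
  have hzc : ∀ g, g * z = z * g := by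
    intro g
    have h1 : g * z * g⁻¹ ∈ zpowers z := hnorm.conj_mem z (mem_zpowers z) g
    rcases (hmemZ _).1 h1 with h2 | h2
    · exfalso
      apply hz1
      have : z = g⁻¹ * (g * z * g⁻¹) * g := by group
      rw [this, h2]
      group
    · calc g * z = (g * z * g⁻¹) * g := by group
        _ = z * g := by rw [h2]
  have hcz : c ≠ z := fun h => hz (h ▸ mem_zpowers z)
  -- the quotient
  let π := QuotientGroup.mk' (zpowers z)
  have hπ : ∀ a b : G, π a = π b ↔ (b = a ∨ b = a * z) := by
    intro a b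
    change (QuotientGroup.mk a : G ⧸ zpowers z) = QuotientGroup.mk b ↔ _
    rw [QuotientGroup.eq, hmemZ]
    constructor
    · rintro (h1 | h1)
      · left
        rw [inv_mul_eq_one] at h1
        exact h1.symm
      · right
        rw [← h1]
        group
    · rintro (rfl | rfl)
      · left; group
      · right; group
  have hπ1 : ∀ b : G, π b = 1 ↔ (b = 1 ∨ b = z) := by
    intro b
    rw [← map_one π, eq_comm, hπ]
    simp
  have hπs : Function.Surjective π := QuotientGroup.mk'_surjective _
  have hsole : Sole (π c) := by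
    constructor
    · apply orderOf_eq_prime
      · rw [← map_pow, pow_two, hc2, map_one]
      · intro h1
        rcases (hπ1 c).1 h1 with h2 | h2
        · exact hc1 h2
        · exact hcz h2
    · intro g' hg'
      by_contra hno
      let H : Subgroup G := (zpowers g').comap π
      have hcH : c ∉ H := hno
      obtain ⟨g, rfl⟩ := hπs g'
      have hzH : zpowers z ≤ H := by
        rw [zpowers_le]
        change π z ∈ zpowers (π g)
        rw [(hπ1 z).2 (Or.inr rfl)]
        exact one_mem _
      have hHb : H ≠ ⊥ := by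
        intro h1
        apply hZ
        rw [eq_bot_iff, ← h1]
        exact hzH
      have h2 := (h H hHb hcH).1
      have h3 : zpowers z = H := Subgroup.eq_of_le_of_card_ge hzH (by rw [h2, hcard])
      have h4 : g ∈ H := mem_zpowers (π g)
      rw [← h3, hmemZ, ← hπ1] at h4
      exact hg' h4
  -- lifting elements
  have lift0 : ∀ (g : G) (m : ℕ), (∀ j : ℤ, π g ^ j = 1 → (m : ℤ) ∣ j) → g ^ m = 1 →
      z ∉ zpowers g := by
    intro g m h1 h2 h3
    obtain ⟨j, hj⟩ := mem_zpowers_iff.1 h3
    have h4 : π g ^ j = 1 := by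
      rw [← map_zpow, hj]
      exact (hπ1 z).2 (Or.inr rfl)
    obtain ⟨i, rfl⟩ := h1 j h4
    rw [zpow_mul, zpow_natCast, h2, one_zpow] at hj
    exact hz1 hj.symm
  have hπc1 : π c ≠ 1 := hsole.ne_one
  have hord2 : ∀ (g : G) (k : ℕ), π (g ^ 2 ^ k) = π c → orderOf (π g) = 2 ^ (k + 1) := by
    intro g k hk
    apply orderOf_eq_prime_pow
    · rw [← map_pow, hk]
      exact hπc1
    · rw [← map_pow, pow_succ, pow_mul, map_pow, hk, ← map_pow, pow_two, hc2, map_one]
  have lift : ∀ (g : G) (k : ℕ), 1 ≤ k → π (g ^ 2 ^ k) = π c → g ^ 2 ^ k = c := by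
    intro g k hk1 hk
    rcases (hπ _ _).1 hk.symm with h1 | h1
    · exact h1
    · exfalso
      have hcz2 : (c * z) * (c * z) = 1 := by
        rw [mul_assoc, ← hzc (c * z), mul_assoc c z z, hzz, mul_one, hc2]
      have h2 : g ^ 2 ^ (k + 1) = 1 := by
        rw [pow_succ, pow_mul, h1, pow_two, hcz2]
      have h3 : z ∉ zpowers g := by
        refine lift0 g (2 ^ (k + 1)) (fun j hj => ?_) h2
        rw [← hord2 g k hk]
        exact orderOf_dvd_iff_zpow_eq_one.2 hj
      have h4 : c ∉ zpowers g := by
        intro h4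
        apply h3
        have : z = c⁻¹ * g ^ 2 ^ k := by rw [h1]; group
        rw [this]
        exact mul_mem (inv_mem h4) (pow_mem (mem_zpowers g) _)
      have h5 : zpowers g ≠ ⊥ := by
        rw [Ne, zpowers_eq_bot]
        rintro rfl
        rw [one_pow] at h1
        apply hcz
        have : c = (c * z) * z := by rw [mul_assoc, hzz, mul_one]
        rw [this, ← h1, one_mul]
      have h6 := (h _ h5 h4).1
      rw [Nat.card_zpowers] at h6
      have h7 : g ^ 2 ^ k = 1 := by
        obtain ⟨i, rfl⟩ := Nat.exists_eq_add_of_le hk1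
        rw [pow_add, pow_one, pow_mul, ← h6, pow_orderOf_eq_one, one_pow]
      rw [h7] at h1
      apply hcz
      have : c = (c * z) * z := by rw [mul_assoc, hzz, mul_one]
      rw [this, ← h1, one_mul]
  -- transfer of the property
  have hQ : ∀ (Q : Subgroup G) (hcQ : c ∈ Q), z ∉ Q → Sole (⟨c, hcQ⟩ : Q) := by
    intro Q hcQ hzQ
    constructor
    · rw [← Subgroup.orderOf_coe]
      exact hord
    · rintro ⟨q, hq⟩ hq1
      have hq1' : q ≠ 1 := fun h => hq1 (Subtype.ext h)
      have h1 : π q ≠ 1 := by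
        intro h1
        rcases (hπ1 q).1 h1 with h2 | h2
        · exact hq1' h2
        · exact hzQ (h2 ▸ hq)
      obtain ⟨i, hi⟩ := mem_zpowers_iff.1 (hsole.mem _ h1)
      rw [← map_zpow, hπ] at hi
      rw [mem_zpowers_iff]
      refine ⟨i, ?_⟩
      rcases hi with hi | hi
      · exact Subtype.ext hi.symm
      · exfalso
        apply hzQ
        have : z = (q ^ i)⁻¹ * c := by rw [hi]; group
        rw [this]
        exact mul_mem (inv_mem (zpow_mem hq _)) hcQ
  -- choice of the lift
  obtain ⟨x', hx'1, hx'⟩ := hsole.struct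
  obtain ⟨k, hk⟩ : ∃ k : ℕ, orderOf x' = 2 ^ (k + 1) := by
    obtain ⟨k, hk⟩ := hsole.exists_order x'
    rcases Nat.eq_zero_or_pos k with h0 | h0
    · rw [h0, pow_zero, orderOf_eq_one_iff] at hk
      exact absurd hk hx'1
    · exact ⟨k - 1, by rw [hk]; congr 1; omega⟩
  have hxc' : x' ^ 2 ^ k = π c := by
    have h1 : x' ^ 2 ^ k * x' ^ 2 ^ k = 1 := by
      rw [← pow_add, ← two_mul, ← pow_succ', ← hk, pow_orderOf_eq_one]
    rcases hsole.eq_of_sq h1 with h2 | h2
    · exfalso
      have := orderOf_dvd_of_pow_eq_one h2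
      rw [hk] at this
      have := Nat.le_of_dvd (by positivity) this
      have : 2 ^ k < 2 ^ (k + 1) := Nat.pow_lt_pow_right (by norm_num) (by omega)
      omega
    · exact h2
  obtain ⟨x, hx, hxc⟩ : ∃ x, π x = x' ∧ x ^ 2 ^ k = c := by
    rcases Nat.eq_zero_or_pos k with h0 | h0
    · subst h0
      rw [pow_zero, pow_one] at hxc'
      exact ⟨c, hxc'.symm, by simp⟩
    · obtain ⟨x, rfl⟩ := hπs x'
      exact ⟨x, rfl, lift x k h0 (by rw [map_pow]; exact hxc')⟩
  have hx2 : x ^ 2 ^ (k + 1) = 1 := by
    rw [pow_succ, pow_mul, hxc, pow_two, hc2]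
  have hzx : z ∉ zpowers x := by
    refine lift0 x (2 ^ (k + 1)) (fun j hj => ?_) hx2
    rw [← hk, ← hx]
    exact orderOf_dvd_iff_zpow_eq_one.2 hj
  have hcx : c ∈ zpowers x := by
    rw [← hxc]
    exact pow_mem (mem_zpowers x) _
  have hdown : ∀ g, π g ∈ zpowers x' → g ∈ zpowers x ∨ g * z ∈ zpowers x := by
    intro g hg
    obtain ⟨i, hi⟩ := mem_zpowers_iff.1 hg
    rw [← hx, ← map_zpow, eq_comm, hπ] at hi
    rcases hi with hi | hi
    · left
      rw [← hi]
      exact zpow_mem (mem_zpowers x) _
    · right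
      rw [← hi]
      exact zpow_mem (mem_zpowers x) _
  have hup : ∀ g, g ∈ zpowers x → π g ∈ zpowers x' := by
    intro g hg
    obtain ⟨i, rfl⟩ := mem_zpowers_iff.1 hg
    rw [map_zpow, hx]
    exact zpow_mem (mem_zpowers x') _
  rcases hx' with hx' | ⟨y', hy'1, hy'2, hy'3, hy'4⟩
  · exact ⟨zpowers x, hcx, z, hzx, hzz, hzc, fun g => hdown g (hx' _), hQ _ hcx hzx⟩
  · obtain ⟨y, rfl⟩ := hπs y'
    have lift2 : ∀ g : G, π g * π g = π c → g * g = c := by
      intro g hg
      have := lift g 1 le_rfl (by rw [pow_one, pow_two, map_mul]; exact hg)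
      rwa [pow_one, pow_two] at this
    have hyy : y * y = c := lift2 y hy'3
    have hyxy : y * x * y⁻¹ = x⁻¹ := by
      have h1 : π (x⁻¹) = π (y * x * y⁻¹) := by
        rw [map_mul, map_mul, map_inv, map_inv, hx]
        exact hy'2.symm
      rcases (hπ _ _).1 h1 with h2 | h2
      · exact h2
      · exfalso
        have h3 : (x * y) * (x * y) = c := by
          apply lift2
          rw [map_mul, hx]
          calc x' * π y * (x' * π y) = x' * (π y * x' * (π y)⁻¹) * (π y * π y) := by group
            _ = π c := by rw [hy'2, hy'3]; group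
        have h4 : (x * y) * (x * y) = z * c := by
          calc (x * y) * (x * y) = x * (y * x * y⁻¹) * (y * y) := by group
            _ = z * c := by rw [h2, hyy]; group
        rw [h3] at h4
        exact hz1 (mul_eq_right.1 h4.symm)
    have hyi : ∀ i : ℤ, y * x ^ i * y⁻¹ = x ^ (-i) := by
      intro i
      rw [← conj_zpow, hyxy, inv_zpow, zpow_neg]
    have hyi' : ∀ i : ℤ, y⁻¹ * x ^ i * y = x ^ (-i) := by
      intro i
      have := hyi (-i)
      rw [neg_neg] at this
      rw [← this]
      group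
    have k1 : ∀ g ∈ zpowers x, y * g * y⁻¹ ∈ zpowers x := by
      intro g hg
      obtain ⟨i, rfl⟩ := mem_zpowers_iff.1 hg
      rw [hyi]
      exact zpow_mem (mem_zpowers x) _
    have k2 : ∀ g ∈ zpowers x, y⁻¹ * g * y ∈ zpowers x := by
      intro g hg
      obtain ⟨i, rfl⟩ := mem_zpowers_iff.1 hg
      rw [hyi']
      exact zpow_mem (mem_zpowers x) _
    have hyy' : y * y ∈ zpowers x := by rw [hyy]; exact hcx
    let Q : Subgroup G :=
      { carrier := {g | g ∈ zpowers x ∨ g * y ∈ zpowers x}
        mul_mem' := by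
          rintro a b (ha | ha) (hb | hb)
          · exact Or.inl (mul_mem ha hb)
          · right
            rw [mul_assoc]
            exact mul_mem ha hb
          · right
            have : a * b * y = (a * y) * (y⁻¹ * b * y) := by group
            rw [this]
            exact mul_mem ha (k2 b hb)
          · left
            have : a * b = (a * y) * (y⁻¹ * (b * y) * y) * (y * y)⁻¹ := by group
            rw [this]
            exact mul_mem (mul_mem ha (k2 _ hb)) (inv_mem hyy')
        one_mem' := Or.inl (one_mem _)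
        inv_mem' := by
          rintro a (ha | ha)
          · exact Or.inl (inv_mem ha)
          · right
            have : a⁻¹ * y = (y * (a * y)⁻¹ * y⁻¹) * (y * y) := by group
            rw [this]
            exact mul_mem (k1 _ (inv_mem ha)) hyy' }
    have hcQ : c ∈ Q := Or.inl hcx
    have hzQ : z ∉ Q := by
      rintro (h1 | h1)
      · exact hzx h1
      · apply hy'1
        have := hup _ h1
        rw [map_mul, (hπ1 z).2 (Or.inr rfl), one_mul] at this
        exact this
    refine ⟨Q, hcQ, z, hzQ, hzz, hzc, fun g => ?_, hQ Q hcQ hzQ⟩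
    rcases hy'4 (π g) with h1 | h1
    · rcases hdown g h1 with h2 | h2
      · exact Or.inl (Or.inl h2)
      · exact Or.inr (Or.inl h2)
    · rw [← map_mul] at h1
      rcases hdown _ h1 with h2 | h2
      · exact Or.inl (Or.inr h2)
      · right
        right
        rw [mul_assoc, ← hzc, ← mul_assoc]
        exact h2

theorem AllGood.not_bad [Fintype G] {c : G} (h : AllGood c) : ¬ ∃ w d : G → ℤ, BadPair c w d := by
  classical
  rintro ⟨w, d, hw, hd, hT, hst, h1⟩
  have h2 := h (fun x => (w x : ℚ)) (fun x => (d x : ℚ)) (fun g => by simp only [hw]; push_cast; ring)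
    (fun g => by simp only [hd]; push_cast; ring) (by
      funext g
      rw [T_apply]
      have := hT g
      simp only [Pi.zero_apply]
      exact_mod_cast this) 1 {1} (by
      intro y
      rw [Finset.mem_singleton]
      constructor
      · rintro rfl g
        rfl
      · intro h3
        apply hst y
        intro g
        have := h3 g
        rw [mul_one] at this
        exact_mod_cast this)
  rw [Finset.sum_singleton] at h2
  exact h1 (by exact_mod_cast h2)

/-- The combinatorial core. -/
theorem core [Fintype G] {c : G} (hcc : ∀ g, g * c = c * g) (hc2 : c * c = 1) (hc1 : c ≠ 1) :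
    (AllGood c ↔ ¬ ∃ w d : G → ℤ, BadPair c w d) ∧ (AllGood c ↔ Cond c) ∧
      (AllGood c ↔ (Sole c ∨ SplitBy c)) := by
  have a1 : AllGood c → ¬ ∃ w d : G → ℤ, BadPair c w d := AllGood.not_bad
  have a2 : (¬ ∃ w d : G → ℤ, BadPair c w d) → Cond c := Cond.of_not_bad hcc hc2 hc1
  have a3 : Cond c → Sole c ∨ SplitBy c := Cond.sole_or_splitBy hc2 hc1
  have a4 : Sole c ∨ SplitBy c → AllGood c := by
    rintro (h | h)
    · exact AllGood.of_sole h
    · exact AllGood.of_splitBy h
  exact ⟨⟨a1, fun h => a4 (a3 (a2 h))⟩, ⟨fun h => a2 (a1 h), fun h => a4 (a3 h)⟩,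
    ⟨fun h => a3 (a2 (a1 h)), a4⟩⟩

end Pool.Agent.H21.TC
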