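import Pool.Agent.H21.TC.NZ

/-!
# The combinatorial core: which groups with a central involution are good
-/

set_option autoImplicit false

universe u

namespace Pool.Agent.H21.TC

open Subgroup

variable {G : Type u} [Group G]

/-- The subgroup of index two form. -/
def SplitBy (c : G) : Prop :=
  ∃ (Q : Subgroup G) (hcQ : c ∈ Q) (z : G), z ∉ Q ∧ z * z = 1 ∧ (∀ g, g * z = z * g) ∧
    (∀ g, g ∈ Q ∨ g * z ∈ Q) ∧ Sole (⟨c, hcQ⟩ : Q)

/-- Every relation among the translates of an odd function comes from coincidences. -/
def AllGood [Fintype G] (c : G) : Prop :=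
  ∀ w d : G → ℚ, OddFn c w → OddFn c d → T d w = 0 → ∀ (x : G) (s : Finset G),
    (∀ y, y ∈ s ↔ ∀ g, w (g * y) = w (g * x)) → ∑ y ∈ s, d y = 0

theorem class_sum_zero {w d : G → ℚ} (t : G) (hw : ∀ g, w (g * t) = w g)
    (hd : ∀ g, d (g * t) = - d g) (x : G) (s : Finset G)
    (hs : ∀ y, y ∈ s ↔ ∀ g, w (g * y) = w (g * x)) : ∑ y ∈ s, d y = 0 := by
  have h1 : ∑ y ∈ s, d y = ∑ y ∈ s, d (y * t) := by
    symm
    refine Finset.sum_bij (fun y _ => y * t) ?_ ?_ ?_ (fun y _ => rfl)
    · intro y hy
      rw [hs] at hy ⊢
      intro g
      rw [← mul_assoc, hw, hy]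
    · intro a _ b _ hab
      exact mul_right_cancel hab
    · intro y hy
      refine ⟨y * t⁻¹, ?_, by group⟩
      rw [hs] at hy ⊢
      intro g
      rw [← hy g, ← hw (g * (y * t⁻¹))]
      congr 1
      group
  have h2 : ∑ y ∈ s, d (y * t) = - ∑ y ∈ s, d y := by
    rw [← Finset.sum_neg_distrib]
    exact Finset.sum_congr rfl fun y _ => hd y
  linarith

theorem AllGood.of_sole [Fintype G] {c : G} (h : Sole c) : AllGood c := by
  intro w d hw hd hT x s hs
  rcases h.nz hd hw hT with h0 | h0
  · simp [h0]
  · subst h0
    exact class_sum_zero c (fun g => rfl) hd x s hs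

theorem AllGood.of_splitBy [Fintype G] {c : G} (h : SplitBy c) : AllGood c := by
  classical
  obtain ⟨Q, hcQ, z, hz, hzz, hzc, hQ, hs⟩ := h
  intro w d hw hd hT x s hcl
  have hzinv : z⁻¹ = z := inv_eq_of_mul_eq_one_left hzz
  have hcc : ∀ g : G, g * c = c * g := by
    intro g
    rcases hQ g with hg | hg
    · have := hs.comm ⟨g, hg⟩
      exact congrArg Subtype.val this
    · have := congrArg Subtype.val (hs.comm ⟨g * z, hg⟩)
      simp only [Subgroup.coe_mul] at this
      have h1 : g * z * c = g * c * z := by rw [mul_assoc, ← hzc c, ← mul_assoc]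
      rw [h1, ← mul_assoc] at this
      exact mul_right_cancel this
  -- splitting of sums
  have hsum : ∀ F : G → ℚ, ∑ x, F x = ∑ q : Q, (F q + F (q * z)) := by
    intro F
    rw [Finset.sum_add_distrib, ← Finset.sum_filter_add_sum_filter_not Finset.univ (fun x => x ∈ Q)]
    congr 1
    · rw [← Finset.sum_subtype_eq_sum_filter]
      simp only [Finset.subtype_univ]
    · symm
      refine Finset.sum_bij (fun (q : Q) _ => (q : G) * z) ?_ ?_ ?_ (fun _ _ => rfl)
      · intro q _
        simp only [Finset.mem_filter, Finset.mem_univ, true_and]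
        intro h1
        exact hz ((mul_mem_cancel_left q.2).1 h1)
      · intro a _ b _ hab
        exact Subtype.ext (mul_right_cancel hab)
      · intro y hy
        simp only [Finset.mem_filter, Finset.mem_univ, true_and] at hy
        refine ⟨⟨y * z, (hQ y).resolve_left hy⟩, Finset.mem_univ _, ?_⟩
        simp only
        rw [mul_assoc, hzz, mul_one]
  have hTg : ∀ g, ∑ x, d x * w (g * x) = 0 := by
    intro g
    rw [← T_apply, hT]
    rfl
  let a : Q → ℚ := fun q => w q + w (q * z)
  let b : Q → ℚ := fun q => w q - w (q * z)
  let dp : Q → ℚ := fun q => d q + d (q * z)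
  let dm : Q → ℚ := fun q => d q - d (q * z)
  let c' : Q := ⟨c, hcQ⟩
  have hodd : ∀ (f : G → ℚ), OddFn c f → ∀ q : Q, f (q * c * z) = - f (q * z) := by
    intro f hf q
    rw [← hf]
    congr 1
    rw [mul_assoc, mul_assoc, hcc z]
  have ha : OddFn c' a := by
    intro q
    simp only [a, c', Subgroup.coe_mul]
    rw [hw, hodd w hw]
    ring
  have hb : OddFn c' b := by
    intro q
    simp only [b, c', Subgroup.coe_mul]
    rw [hw, hodd w hw]
    ring
  have hdp : OddFn c' dp := by
    intro q
    simp only [dp, c', Subgroup.coe_mul]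
    rw [hd, hodd d hd]
    ring
  have hdm : OddFn c' dm := by
    intro q
    simp only [dm, c', Subgroup.coe_mul]
    rw [hd, hodd d hd]
    ring
  have e1 : ∀ h : Q, ∑ q : Q, (d q * w (h * q) + d (q * z) * w (h * q * z)) = 0 := by
    intro h
    rw [← hTg h, hsum]
    refine Finset.sum_congr rfl fun q _ => ?_
    rw [mul_assoc]
  have e2 : ∀ h : Q, ∑ q : Q, (d q * w (h * q * z) + d (q * z) * w (h * q)) = 0 := by
    intro h
    rw [← hTg (h * z), hsum]
    refine Finset.sum_congr rfl fun q _ => ?_
    congr 2
    · congr 1
      rw [mul_assoc, mul_assoc, hzc]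
    · congr 1
      rw [hzc q, ← mul_assoc, mul_assoc (h : G), hzz, mul_one]
  have t1 : T dp a = 0 := by
    funext h
    rw [T_apply]
    simp only [dp, a, Subgroup.coe_mul, Pi.zero_apply]
    have h1 : (0 : ℚ) = ∑ q : Q, (d q * w (h * q) + d (q * z) * w (h * q * z)) +
        ∑ q : Q, (d q * w (h * q * z) + d (q * z) * w (h * q)) := by
      rw [e1, e2, add_zero]
    rw [h1, ← Finset.sum_add_distrib]
    refine Finset.sum_congr rfl fun q _ => ?_
    ring
  have t2 : T dm b = 0 := by
    funext h
    rw [T_apply]
    simp only [dm, b, Subgroup.coe_mul, Pi.zero_apply]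
    have h1 : (0 : ℚ) = ∑ q : Q, (d q * w (h * q) + d (q * z) * w (h * q * z)) -
        ∑ q : Q, (d q * w (h * q * z) + d (q * z) * w (h * q)) := by
      rw [e1, e2, sub_zero]
    rw [h1, ← Finset.sum_sub_distrib]
    refine Finset.sum_congr rfl fun q _ => ?_
    ring
  -- values on the whole group from values on `Q`
  have hall : ∀ (P : G → Prop), (∀ q : Q, P q) → (∀ q : Q, P (q * z)) → ∀ g, P g := by
    intro P h1 h2 g
    rcases hQ g with hg | hg
    · exact h1 ⟨g, hg⟩
    · have := h2 ⟨g * z, hg⟩
      simp only [mul_assoc, hzz, mul_one] at this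
      exact this
  rcases hs.nz hdp ha t1 with h1 | h1 <;> rcases hs.nz hdm hb t2 with h2 | h2
  · have h0 : ∀ g, d g = 0 := by
      apply hall
      · intro q
        have := congrFun h1 q
        have := congrFun h2 q
        simp only [dp, dm, Pi.zero_apply] at *
        linarith
      · intro q
        have := congrFun h1 q
        have := congrFun h2 q
        simp only [dp, dm, Pi.zero_apply] at *
        linarith
    simp [h0]
  · -- `d₊ = 0`, `b = 0`
    refine class_sum_zero z ?_ ?_ x s hcl
    · apply hall
      · intro q
        have := congrFun h2 q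
        simp only [b, Pi.zero_apply] at this
        linarith
      · intro q
        have := congrFun h2 q
        simp only [b, Pi.zero_apply] at this
        rw [mul_assoc, hzz, mul_one]
        linarith
    · apply hall
      · intro q
        have := congrFun h1 q
        simp only [dp, Pi.zero_apply] at this
        linarith
      · intro q
        have := congrFun h1 q
        simp only [dp, Pi.zero_apply] at this
        rw [mul_assoc, hzz, mul_one]
        linarith
  · -- `a = 0`, `d₋ = 0`
    have w1 : ∀ g, w (g * z) = - w g := by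
      apply hall
      · intro q
        have := congrFun h1 q
        simp only [a, Pi.zero_apply] at this
        linarith
      · intro q
        have := congrFun h1 q
        simp only [a, Pi.zero_apply] at this
        rw [mul_assoc, hzz, mul_one]
        linarith
    have d1 : ∀ g, d (g * z) = d g := by
      apply hall
      · intro q
        have := congrFun h2 q
        simp only [dm, Pi.zero_apply] at this
        linarith
      · intro q
        have := congrFun h2 q
        simp only [dm, Pi.zero_apply] at this
        rw [mul_assoc, hzz, mul_one]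
        linarith
    refine class_sum_zero (z * c) ?_ ?_ x s hcl
    · intro g
      rw [← mul_assoc, hw, w1, neg_neg]
    · intro g
      rw [← mul_assoc, hd, d1]
  · have w0 : ∀ g, w g = 0 := by
      apply hall
      · intro q
        have := congrFun h1 q
        have := congrFun h2 q
        simp only [a, b, Pi.zero_apply] at *
        linarith
      · intro q
        have := congrFun h1 q
        have := congrFun h2 q
        simp only [a, b, Pi.zero_apply] at *
        linarith
    refine class_sum_zero c (fun g => by rw [w0, w0]) hd x s hcl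

end Pool.Agent.H21.TC
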