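import Pool.Agent.H21.TC.Kron
import Pool.Agent.H21.TC.Defs

/-!
# The criterion: all Tate classes are Lefschetz classes if and only if all relations between the
# slopes come from coincidences
-/

set_option autoImplicit false
set_option linter.unusedSectionVars false

universe u

namespace Pool.Agent.H21.TC

open NumberField Module Pool.Agent.H925R2 Pool.Agent.H485R3 Pool.Agent.H204R3.CM
  Pool.Agent.H868R3.TwoOdd Pool.Agent.H194R3.CM Pool.Agent.H194R3.Tate Pool.Agent.Helper33Dom
  Set.powersetCard

section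

variable {F : Type*} [Field F] [NumberField F] [IsCMField F]
  {L : Type*} [Field L] [NumberField L] [IsGalois ℚ L]

/-- All translates of `u` agree at `x` and `y`. -/
def SameClass (u : (F →+* L) → ℝ) (x y : F →+* L) : Prop := ∀ g : L ≃ₐ[ℚ] L, u (g • x) = u (g • y)

open Classical in
/-- All relations between the translates of `u` come from coincidences. -/
def GoodSlopes (u : (F →+* L) → ℝ) : Prop :=
  ∀ c : (F →+* L) → ℤ, (∀ x, c (cbar x) = -c x) →
    (∀ g : L ≃ₐ[ℚ] L, ∑ x, (c x : ℝ) * u (g • x) = 0) →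
    ∀ x, ∑ y ∈ Finset.univ.filter (fun y => SameClass u y x), c y = 0

variable (p : ℕ) [Fact p.Prime]

theorem SameClass.symm {u : (F →+* L) → ℝ} {x y : F →+* L} (h : SameClass u x y) :
    SameClass u y x := fun g => (h g).symm

theorem SameClass.trans {u : (F →+* L) → ℝ} {x y z : F →+* L} (h : SameClass u x y)
    (h' : SameClass u y z) : SameClass u x z := fun g => (h g).trans (h' g)

/-- Elements of degree two. -/
theorem pair_mem {Ω V : Type*} [Field Ω] [AddCommGroup V] [Module Ω V] (Φ : V →ₗ[Ω] V) (q : Ω)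
    {a b : Ω} {v w : V} (hv : Φ v = a • v) (hw : Φ w = b • w) {t : ℕ} (ht : 0 < t)
    (hab : (a * b) ^ t = q ^ t) :
    ExteriorAlgebra.ι Ω v * ExteriorAlgebra.ι Ω w ∈ Algebra.adjoin Ω
      {y : ExteriorAlgebra Ω V |
        y ∈ ⋀[Ω]^2 V ∧ ∃ t : ℕ, 0 < t ∧ ExteriorAlgebra.map (Φ ^ t) y = (q : Ω) ^ t • y} := by
  have h1 : (Φ ^ t) v = a ^ t • v := pow_eigen' _ _ _ hv t
  have h2 : (Φ ^ t) w = b ^ t • w := pow_eigen' _ _ _ hw t
  obtain ⟨h3, h4⟩ := iota_mul_mem_deg2 (Φ ^ t) (q ^ t) (a ^ t) (b ^ t) v w h1 h2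
    (by rw [← mul_pow, hab])
  exact Algebra.subset_adjoin ⟨h3, t, ht, h4⟩

open Classical in
/-- Sufficiency. -/
theorem onlyLefschetz_of_good (j : L →+* ℂ) (h : ∀ ψ : F →+* ℂ, ∃ φ : F →+* L, j.comp φ = ψ)
    (e : L →ₐ[ℚ] PadicAlgCl p) (a : ℕ) (π : F) (hint : IsIntegral ℤ π)
    (hweil : ∀ φ : F →+* ℂ, ‖φ π‖ ^ 2 = (((p : ℚ) ^ a : ℚ) : ℝ))
    (hgood : GoodSlopes (uvec p e a π)) (Ω : Type u) [Field Ω] [IsAlgClosed Ω] [CharZero Ω] :
    OnlyLefschetz Ω (p ^ a) π := by
  intro V _ _ _ Φ hΦ m s hs x hx hFx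
  have hp : p.Prime := Fact.out
  have hq : (0 : ℚ) < (p : ℚ) ^ a := pow_pos (by exact_mod_cast hp.pos) _
  let jΩ : L →ₐ[ℚ] Ω := IsAlgClosed.lift
  let X := F →+* L
  let μ : X → Ω := fun x => jΩ (x π)
  let u := uvec p e a π
  have hspan : Submodule.span Ω {v : V | ∃ x, Φ v = μ x • v} = ⊤ := by
    rw [← hΦ]
    congr 1
    ext v
    constructor
    · rintro ⟨φ, hv⟩
      exact ⟨(jΩ : L →+* Ω).comp φ, hv⟩
    · rintro ⟨σ, hv⟩
      obtain ⟨φ, rfl⟩ := exists_lift j h jΩ σ
      exact ⟨φ, hv⟩
  have hqc : ((p ^ a : ℕ) : Ω) = (p : Ω) ^ a := by push_cast; rfl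
  rw [hqc] at hFx
  have hub : ∀ x : X, u (cbar x) = - u x := uvec_cbar p e a π hweil
  refine mem_of_labels Φ μ hspan (2 * m) s ((((p : Ω) ^ a) ^ m) ^ s) _ ?_ x hx hFx
  intro v y hv hprod
  refine pairs_mem (fun w z => Φ w = μ z • w) (SameClass u) (fun _ _ => rfl)
    (fun _ _ h => h.symm) (fun _ _ _ h h' => h.trans h') cbar cbar_cbar ?_ ?_ _ ?_ (2 * m)
    (List.ofFn fun k => (v k, y k)) (by simp) (even_two_mul m) ?_ ?_
  · intro x y hxy g
    rw [smul_cbar', smul_cbar', hub, hub, hxy g]
  · rintro ⟨x, hx⟩ y z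
    have h0 : ∀ y : X, u y = 0 := by
      intro y
      obtain ⟨g, rfl⟩ := MulAction.exists_smul_eq (L ≃ₐ[ℚ] L) x y
      have h1 := hx g
      rw [smul_cbar', hub] at h1
      linarith
    intro g
    rw [h0, h0]
  · -- pairs
    intro v w x y hvx hwy hxy
    have hf : ∀ g : L ≃ₐ[ℚ] L, ∑ z : X, (((if z = x then 1 else 0) + (if z = y then 1 else 0) : ℕ) : ℝ) *
        uvec p e a π (g • z) = 0 := by
      intro g
      have h1 : ∀ z : X, (((if z = x then 1 else 0) + (if z = y then 1 else 0) : ℕ) : ℝ) *
          uvec p e a π (g • z) = (if z = x then u (g • z) else 0) + (if z = y then u (g • z) else 0) := by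
        intro z
        simp only [u]
        push_cast
        split_ifs <;> ring
      rw [Finset.sum_congr rfl fun z _ => h1 z, Finset.sum_add_distrib, Finset.sum_ite_eq',
        Finset.sum_ite_eq', if_pos (Finset.mem_univ _), if_pos (Finset.mem_univ _), hxy g,
        smul_cbar', hub]
      ring
    obtain ⟨t, ht, hrel⟩ := prod_pow_eq p e a π hint hweil _ hf
    have h2 : ∏ z : X, z π ^ ((if z = x then 1 else 0) + (if z = y then 1 else 0)) = x π * y π := by
      have h3 : ∀ z : X, z π ^ ((if z = x then 1 else 0) + (if z = y then 1 else 0)) =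
          (if z = x then z π else 1) * (if z = y then z π else 1) := by
        intro z
        rw [pow_add]
        split_ifs <;> simp
      rw [Finset.prod_congr rfl fun z _ => h3 z, Finset.prod_mul_distrib, Finset.prod_ite_eq',
        Finset.prod_ite_eq', if_pos (Finset.mem_univ _), if_pos (Finset.mem_univ _)]
    have h3 : ∑ z : X, ((if z = x then 1 else 0) + (if z = y then 1 else 0)) = 2 := by
      rw [Finset.sum_add_distrib, Finset.sum_ite_eq', Finset.sum_ite_eq',
        if_pos (Finset.mem_univ _), if_pos (Finset.mem_univ _)]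
    rw [h2, h3] at hrel
    refine pair_mem Φ ((p ^ a : ℕ) : Ω) hvx hwy (t := 2 * t) (by omega) ?_
    have h4 := congrArg jΩ hrel
    rw [map_pow, map_mul, map_pow, map_pow, map_natCast] at h4
    rw [hqc]
    exact h4
  · intro f hf
    rw [List.mem_ofFn] at hf
    obtain ⟨k, rfl⟩ := hf
    exact hv k
  · -- the relation
    have hsum2 : ∀ f : X → ℕ, (∀ z, f z = (List.ofFn y).count z) → ∑ z, f z = 2 * m := by
      intro f hf
      rw [Finset.sum_congr rfl fun z _ => hf z]
      have h1 := Multiset.sum_count_eq_card (s := Finset.univ) (m := (List.ofFn y : Multiset X))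
        (fun _ _ => Finset.mem_univ _)
      simpa using h1
    have hprod2 : ∏ z : X, z π ^ ((List.ofFn y).count z) = ∏ k, (y k) π := by
      have h1 := Finset.prod_list_map_count (List.ofFn y) (fun z : X => z π)
      rw [List.map_ofFn, List.prod_ofFn] at h1
      rw [Function.comp_def] at h1
      rw [h1]
      symm
      apply Finset.prod_subset (Finset.subset_univ _)
      intro z _ hz
      rw [List.mem_toFinset] at hz
      rw [List.count_eq_zero_of_not_mem hz, pow_zero]
    have hrel : (∏ z : X, z π ^ ((List.ofFn y).count z)) ^ (2 * s) =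
        ((p : L) ^ a) ^ ((∑ z : X, (List.ofFn y).count z) * s) := by
      rw [hprod2, hsum2 _ fun _ => rfl]
      apply (jΩ : L →+* Ω).injective
      change jΩ _ = jΩ _
      rw [map_pow, map_prod, map_pow, map_pow, map_natCast]
      have h1 : ∏ k, jΩ ((y k) π) = ∏ k, μ (y k) := rfl
      rw [h1, mul_comm 2 s, pow_mul, hprod, ← pow_mul, ← pow_mul, ← pow_mul, ← pow_mul]
      congr 1
      ring
    have hrel' := sum_uvec_eq_zero p e a π hweil _ s hs hrel
    let c : X → ℤ := fun z => ((List.ofFn y).count z : ℤ) - ((List.ofFn y).count (cbar z) : ℤ)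
    have hc : ∀ z, c (cbar z) = - c z := by
      intro z
      simp only [c, cbar_cbar]
      ring
    have hcrel : ∀ g : L ≃ₐ[ℚ] L, ∑ z, (c z : ℝ) * u (g • z) = 0 := by
      intro g
      have h1 : ∑ z : X, ((List.ofFn y).count (cbar z) : ℝ) * u (g • z) = 0 := by
        have h2 : ∑ z : X, ((List.ofFn y).count (cbar z) : ℝ) * u (g • z) =
            - ∑ z : X, ((List.ofFn y).count z : ℝ) * u (g • z) := by
          rw [← Finset.sum_neg_distrib]
          refine Finset.sum_nbij' cbar cbar (fun _ _ => Finset.mem_univ _)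
            (fun _ _ => Finset.mem_univ _) (fun y _ => cbar_cbar y) (fun y _ => cbar_cbar y) ?_
          intro z _
          rw [smul_cbar', hub]
          ring
        rw [h2]
        have h3 := hrel' g
        rw [neg_eq_zero]
        exact h3
      have h2 : ∀ z, (c z : ℝ) * u (g • z) = ((List.ofFn y).count z : ℝ) * u (g • z) -
          ((List.ofFn y).count (cbar z) : ℝ) * u (g • z) := by
        intro z
        simp only [c]
        push_cast
        ring
      rw [Finset.sum_congr rfl fun z _ => h2 z, Finset.sum_sub_distrib, h1, sub_zero]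
      exact hrel' g
    have hg := hgood c hc hcrel
    intro x
    have hmap : ∀ P : X → Prop, (List.ofFn fun k => (v k, y k)).countP (fun e => P e.2) =
        ∑ z ∈ Finset.univ.filter P, (List.ofFn y).count z := by
      intro P
      have h1 : (List.ofFn fun k => (v k, y k)).countP (fun e => P e.2) =
          (List.ofFn y).countP (fun z => P z) := by
        have h2 : List.ofFn y = (List.ofFn fun k => (v k, y k)).map Prod.snd := by
          rw [List.map_ofFn]
          rfl
        rw [h2, List.countP_map]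
        rfl
      rw [h1]
      generalize List.ofFn y = l
      induction l with
      | nil => simp
      | cons z l ih =>
        rw [List.countP_cons, ih]
        simp only [List.count_cons, Finset.sum_add_distrib, beq_iff_eq]
        congr 1
        rw [Finset.sum_ite_eq]
        simp
    rw [hmap (fun z => SameClass u z x), hmap (fun z => SameClass u z (cbar x))]
    have h1 := hg x
    simp only [c, Finset.sum_sub_distrib] at h1
    have h2 : ∑ z ∈ Finset.univ.filter (fun z => SameClass u z x), ((List.ofFn y).count (cbar z) : ℤ) =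
        ∑ z ∈ Finset.univ.filter (fun z => SameClass u z (cbar x)), ((List.ofFn y).count z : ℤ) := by
      have hcls : ∀ z x : X, SameClass u z x → SameClass u (cbar z) (cbar x) := by
        intro z x hz g
        rw [smul_cbar', smul_cbar', hub, hub, hz g]
      refine Finset.sum_nbij' cbar cbar ?_ ?_ (fun y _ => cbar_cbar y) (fun y _ => cbar_cbar y)
        (fun _ _ => rfl)
      · intro z hz
        rw [Finset.mem_filter] at hz ⊢
        exact ⟨Finset.mem_univ _, hcls _ _ hz.2⟩
      · intro z hz
        rw [Finset.mem_filter] at hz ⊢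
        refine ⟨Finset.mem_univ _, ?_⟩
        have := hcls _ _ hz.2
        rwa [cbar_cbar] at this
    rw [h2] at h1
    have h3 := sub_eq_zero.1 h1
    exact_mod_cast h3

end

end Pool.Agent.H21.TC
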