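import Pool.Agent.H21.TC.Exo
import Pool.Graph.R_seed8.H485R3.K3Exists

/-!
# Weil numbers with given slopes
-/

set_option autoImplicit false
set_option linter.unusedSectionVars false

universe u

namespace Pool.Agent.H21.TC

open NumberField Module Pool.Agent.H925R2 Pool.Agent.H485R3 Pool.Agent.H204R3.CM
  Pool.Agent.H868R3.TwoOdd Pool.Agent.H194R3.CM Pool.Agent.H194R3.Tate Pool.Agent.Helper33Dom

variable {F : Type*} [Field F] [NumberField F] [IsCMField F]
  {L : Type*} [Field L] [NumberField L] [IsGalois ℚ L] (p : ℕ) [Fact p.Prime]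

/-- Complex conjugation of `L` acts on the embeddings of `F` by `cbar`. -/
theorem exists_c (j : L →+* ℂ) : ∃ c : L ≃ₐ[ℚ] L, (∀ z, starRingEnd ℂ (j z) = j (c z)) ∧
    ∀ x : F →+* L, c • x = cbar x := by
  obtain ⟨c, hc⟩ := exists_conj j.toRatAlgHom
  refine ⟨c, hc, fun x => ?_⟩
  refine RingHom.ext fun a => j.injective ?_
  have h1 := RingHom.congr_fun (comp_cbar j x) a
  change j (c (x a)) = j (cbar x a)
  have h2 : j (cbar x a) = starRingEnd ℂ (j (x a)) := h1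
  rw [h2]
  exact (hc (x a)).symm

theorem exists_weil_slopes (j : L →+* ℂ) (h : ∀ ψ : F →+* ℂ, ∃ φ : F →+* L, j.comp φ = ψ)
    (e : L →ₐ[ℚ] PadicAlgCl p) (y₀ : L →+* ℚ_[p]) (w : (F →+* L) → ℤ)
    (hw : ∀ x, w (cbar x) = - w x) :
    ∃ (a : ℕ) (π : F), 0 < a ∧ IsWeilNumber (p ^ a) π ∧
      ∃ κ : ℝ, κ ≠ 0 ∧ ∀ x, uvec p e a π x = κ * w x := by
  classical
  have hp : p.Prime := Fact.out
  let G := L ≃ₐ[ℚ] L
  -- a base point
  obtain ⟨φ₀⟩ : Nonempty (F →+* ℂ) := inferInstance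
  obtain ⟨x₀, -⟩ := h φ₀
  obtain ⟨c, hcj, hcx⟩ := exists_c (F := F) j
  -- the embedding `e` has values in `ℚ_p`
  obtain ⟨σ, hσ⟩ := exists_gal
    (((algebraMap ℚ_[p] (PadicAlgCl p)).comp y₀ : L →+* PadicAlgCl p).toRatAlgHom) e
  let ψ₀ : L →+* PadicAlgCl p := e
  have hψ₀ : ψ₀ = (algebraMap ℚ_[p] (PadicAlgCl p)).comp (y₀.comp (σ : L →+* L)) :=
    RingHom.ext fun z => hσ z
  obtain ⟨n, γ, hn, hγ0, hγ⟩ := exists_principal_pow (primeOf p ψ₀) (primeOf_ne_bot p ψ₀)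
  have hgen := norm_gen_eq_one p _ ψ₀ hψ₀ n γ hn hγ0 hγ
  set y : L := algebraMap (𝓞 L) L γ with hy
  have hy0 : y ≠ 0 := fun h1 =>
    hγ0 ((FaithfulSMul.algebraMap_injective (𝓞 L) L) (h1.trans (map_zero _).symm))
  have hlt : ‖e y‖ < 1 := by
    have h4 : γ ∈ primeOf p ψ₀ ^ n := by
      rw [hγ]
      exact Ideal.mem_span_singleton_self γ
    exact Ideal.pow_le_self hn.ne' h4
  have hgne : ∀ g : G, g ≠ 1 → ‖e (g y)‖ = 1 := by
    intro g hg
    refine hgen (ψ₀.comp (g : L →+* L)) fun h1 => hg ?_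
    ext x
    apply ψ₀.injective
    exact RingHom.congr_fun h1 x
  have hpos : 0 < ‖e y‖ := norm_pos_iff.2 ((map_ne_zero _).2 hy0)
  have hlog : Real.log ‖e y‖ ≠ 0 := (Real.log_neg hpos hlt).ne
  -- the norm
  have hnorm : ((Algebra.norm ℤ γ : ℤ) : L) = ∏ g : G, g y := by
    rw [← Algebra.norm_eq_prod_automorphisms ℚ y, hy, ← Algebra.coe_norm_int, map_intCast]
  have hdvd : (Algebra.norm ℤ γ) ∣ ((p : ℤ) ^ n) ^ finrank ℤ (𝓞 L) := by
    have h1 : (p : 𝓞 L) ^ n ∈ primeOf p ψ₀ ^ n := Ideal.pow_mem_pow (p_mem_primeOf p ψ₀) n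
    rw [hγ, Ideal.mem_span_singleton] at h1
    have h2 := map_dvd (Algebra.norm ℤ) h1
    have h3 : (p : 𝓞 L) ^ n = algebraMap ℤ (𝓞 L) ((p : ℤ) ^ n) := by
      rw [map_pow, map_natCast]
    rw [h3, Algebra.norm_algebraMap] at h2
    exact h2
  obtain ⟨b, hb⟩ : ∃ b : ℕ, (Algebra.norm ℤ γ).natAbs = p ^ b := by
    have h1 : (Algebra.norm ℤ γ).natAbs ∣ p ^ (n * finrank ℤ (𝓞 L)) := by
      have h2 := Int.natAbs_dvd_natAbs.2 hdvd
      rwa [← pow_mul, Int.natAbs_pow, Int.natAbs_natCast] at h2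
    obtain ⟨a, _, ha⟩ := (Nat.dvd_prime_pow hp).1 h1
    exact ⟨a, ha⟩
  have hb2 : (Algebra.norm ℤ γ) ^ 2 = ((p : ℤ) ^ b) ^ 2 := by
    rw [← Int.natAbs_sq, hb]
    push_cast
    rfl
  have hprodinv : ∏ g : G, g⁻¹ y = ∏ g : G, g y :=
    Fintype.prod_equiv (Equiv.inv G) _ _ fun g => by rw [Equiv.inv_apply]
  have hprodsq : ∀ M : ℕ, (∏ g : G, g⁻¹ y) ^ (2 * M) = (p : L) ^ (2 * M * b) := by
    intro M
    rw [hprodinv, ← hnorm, pow_mul, ← Int.cast_pow, hb2]
    push_cast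
    rw [← pow_mul, ← pow_mul]
    congr 1
    ring
  -- the norm of `y`
  have hnormy : ‖(p : PadicAlgCl p) ^ b‖ = ‖e y‖ := by
    have h1 := congrArg (fun t => ‖e t‖) (hprodsq 1)
    simp only [mul_one, map_pow, map_prod, norm_pow, norm_prod, map_natCast] at h1
    have h2 : ∏ g : G, ‖e (g⁻¹ y)‖ = ‖e y‖ := by
      rw [← Finset.mul_prod_erase _ _ (Finset.mem_univ (1 : G)),
        Finset.prod_eq_one (fun g hg => hgne _ (fun h2 => (Finset.ne_of_mem_erase hg)
          (inv_eq_one.1 h2))), mul_one, inv_one, AlgEquiv.one_apply]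
    rw [h2] at h1
    rw [norm_pow]
    have h3 : (‖(p : PadicAlgCl p)‖ ^ b) ^ 2 = ‖e y‖ ^ 2 := by
      rw [h1, ← pow_mul]
      congr 1
      ring
    exact (pow_left_inj₀ (by positivity) (norm_nonneg _) two_ne_zero).1 h3
  have hb0 : 0 < b := by
    rcases Nat.eq_zero_or_pos b with h0 | h0
    · rw [h0, pow_zero, norm_one] at hnormy
      exact absurd hlt (by rw [← hnormy]; exact lt_irrefl _)
    · exact h0
  -- the exponents
  let M : ℕ := 1 + ∑ x, (w x).natAbs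
  have hM : ∀ x, -(M : ℤ) ≤ w x := by
    intro x
    have h1 : (w x).natAbs ≤ ∑ x, (w x).natAbs :=
      Finset.single_le_sum (f := fun x => (w x).natAbs) (fun _ _ => Nat.zero_le _) (Finset.mem_univ x)
    have h2 : (w x).natAbs ≤ M := by
      simp only [M]
      omega
    omega
  let E : G → ℕ := fun g => (M + w (g • x₀)).toNat
  have hE : ∀ g, (E g : ℤ) = M + w (g • x₀) := by
    intro g
    simp only [E]
    have := hM (g • x₀)
    omega
  let πL : L := ∏ g : G, (g⁻¹ y) ^ E g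
  have hact : ∀ k : G, k πL = ∏ g : G, (g⁻¹ y) ^ E (g * k) := by
    intro k
    simp only [πL]
    rw [map_prod, ← Equiv.prod_comp (Equiv.mulRight k)]
    refine Finset.prod_congr rfl fun g _ => ?_
    rw [Equiv.coe_mulRight, map_pow]
    congr 1
    rw [mul_inv_rev, ← AlgEquiv.mul_apply, mul_inv_cancel_left]
  -- descent to `F`
  obtain ⟨π, hπ⟩ : ∃ π : F, x₀ π = πL := by
    let K0 : IntermediateField ℚ L := (RingHom.equivRatAlgHom F L x₀).fieldRange
    have hzK : πL ∈ K0 := by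
      rw [← IsGalois.fixedField_fixingSubgroup K0, IntermediateField.mem_fixedField_iff]
      intro k hk
      have h1 : k • x₀ = x₀ := by
        ext a
        exact (IntermediateField.mem_fixingSubgroup_iff _ _).1 hk (x₀ a) ⟨a, rfl⟩
      rw [hact]
      refine Finset.prod_congr rfl fun g _ => ?_
      simp only [E]
      rw [mul_smul, h1]
    obtain ⟨a, ha⟩ := hzK
    exact ⟨a, ha⟩
  have hxπ : ∀ k : G, (k • x₀) π = ∏ g : G, (g⁻¹ y) ^ E (g * k) := by
    intro k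
    rw [← hact, ← hπ]
    rfl
  have hEc : ∀ g k : G, E (g * k) + E (g * (c * k)) = 2 * M := by
    intro g k
    have h1 := hE (g * k)
    have h2 := hE (g * (c * k))
    rw [mul_smul, mul_smul, hcx, smul_cbar', hw] at h2
    rw [mul_smul] at h1
    omega
  refine ⟨2 * M * b, π, by positivity, ⟨?_, ?_⟩, 2 * Real.log ‖e y‖,
    mul_ne_zero two_ne_zero hlog, ?_⟩
  · have h1 : IsIntegral ℤ πL := by
      refine IsIntegral.prod _ fun g _ => IsIntegral.pow ?_ _
      exact γ.isIntegral_coe.map ((g⁻¹ : L ≃ₐ[ℚ] L) : L →+* L).toIntAlgHom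
    rw [← hπ] at h1
    exact (isIntegral_algHom_iff x₀.toIntAlgHom x₀.injective).1 h1
  · intro φ
    obtain ⟨x, rfl⟩ := h φ
    obtain ⟨k, rfl⟩ := MulAction.exists_smul_eq G x₀ x
    have h1 : (k • x₀) π * ((c * k) • x₀) π = (p : L) ^ (2 * M * b) := by
      rw [hxπ, hxπ, ← Finset.prod_mul_distrib]
      rw [Finset.prod_congr rfl fun g _ => by rw [← pow_add, hEc g k], Finset.prod_pow, hprodsq]
    have h2 : ((‖(j.comp (k • x₀)) π‖ ^ 2 : ℝ) : ℂ) = ((p : ℂ)) ^ (2 * M * b) := by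
      have h3 := congrArg j h1
      rw [map_mul, map_pow, map_natCast] at h3
      rw [← h3]
      have h4 : j (((c * k) • x₀) π) = starRingEnd ℂ (j ((k • x₀) π)) := by
        rw [hcj]
        rfl
      rw [h4, Complex.mul_conj, Complex.normSq_eq_norm_sq]
      rfl
    have h5 : ((‖(j.comp (k • x₀)) π‖ ^ 2 : ℝ) : ℂ) = (((p ^ (2 * M * b) : ℕ) : ℝ) : ℂ) := by
      rw [h2]
      push_cast
      rfl
    exact Complex.ofReal_injective h5
  · intro x
    obtain ⟨k, rfl⟩ := MulAction.exists_smul_eq G x₀ x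
    rw [uvec_eq, hxπ, map_prod, norm_prod]
    have h1 : ∏ g : G, ‖e ((g⁻¹ y) ^ E (g * k))‖ = ‖e y‖ ^ E k := by
      rw [← Finset.mul_prod_erase _ _ (Finset.mem_univ (1 : G)),
        Finset.prod_eq_one, mul_one, inv_one, AlgEquiv.one_apply, one_mul, map_pow, norm_pow]
      intro g hg
      rw [map_pow, norm_pow, hgne _ (fun h2 => (Finset.ne_of_mem_erase hg) (inv_eq_one.1 h2)),
        one_pow]
    rw [h1, mul_comm (2 * M) b, pow_mul, norm_pow, hnormy, Real.log_pow, Real.log_pow]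
    have h2 := hE k
    have h3 : (E k : ℝ) = M + w (k • x₀) := by exact_mod_cast h2
    rw [h3]
    push_cast
    ring

end Pool.Agent.H21.TC
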