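import Pool.Agent.H21.TC.Crit

/-!
# Exotic classes
-/

set_option autoImplicit false
set_option linter.unusedSectionVars false

universe u

namespace Pool.Agent.H21.TC

open NumberField Module Pool.Agent.H925R2 Pool.Agent.H485R3 Pool.Agent.H204R3.CM
  Pool.Agent.H868R3.TwoOdd Pool.Agent.H194R3.CM Pool.Agent.H194R3.Tate Pool.Agent.Helper33Dom
  Set Set.powersetCard

/-- A wedge product of basis vectors which is not invariant under a diagonal map `D` that fixes the
elements `y` of degree two with `F ^ t y = q ^ t y`. -/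
theorem family_not_mem {Ω V : Type*} [Field Ω] [AddCommGroup V] [Module Ω V] {d : ℕ}
    (b : Basis (Fin d) Ω V) (F D : V →ₗ[Ω] V) (μ δ : Fin d → Ω)
    (hμ : ∀ i, F (b i) = μ i • b i) (hδ : ∀ i, D (b i) = δ i • b i) (q : Ω)
    (hpair : ∀ i k (t : ℕ), 0 < t → (μ i * μ k) ^ t = q ^ t → δ i * δ k = 1) (k : ℕ)
    (S : powersetCard (Fin d) k) (hS : ∏ i ∈ S.val, δ i ≠ 1) :
    (exteriorPower.ιMulti_family Ω k b S : ExteriorAlgebra Ω V) ∉ Algebra.adjoin Ω
      {y : ExteriorAlgebra Ω V | y ∈ ⋀[Ω]^2 V ∧ ∃ t : ℕ, 0 < t ∧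
        ExteriorAlgebra.map (F ^ t) y = q ^ t • y} := by
  classical
  intro hmem
  have hfix : ∀ y : ExteriorAlgebra Ω V, y ∈ Algebra.adjoin Ω
      {y : ExteriorAlgebra Ω V | y ∈ ⋀[Ω]^2 V ∧ ∃ t : ℕ, 0 < t ∧
        ExteriorAlgebra.map (F ^ t) y = q ^ t • y} →
      ExteriorAlgebra.map D y = y := by
    intro y hy
    induction hy using Algebra.adjoin_induction with
    | mem y hy =>
      obtain ⟨hy2, t, ht, hyF⟩ := hy
      let B := b.exteriorPower 2
      let yy : ⋀[Ω]^2 V := ⟨y, hy2⟩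
      have hmapG : ∀ (G : V →ₗ[Ω] V) (γ : Fin d → Ω), (∀ i, G (b i) = γ i • b i) →
          ∀ J, B.coord J (exteriorPower.map 2 G yy) = (∏ i ∈ J.val, γ i) * B.coord J yy := by
        intro G γ hγ J
        have h2 : (B.coord J) ∘ₗ (exteriorPower.map 2 G) = (∏ i ∈ J.val, γ i) • B.coord J := by
          apply B.ext
          intro J'
          have h1 := map_family G b γ hγ J'
          have h3 : exteriorPower.map 2 G (B J') = (∏ i ∈ J'.val, γ i) • B J' := by
            simp only [B, exteriorPower.basis_apply]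
            exact h1
          rw [LinearMap.comp_apply, h3, map_smul, LinearMap.smul_apply, Basis.coord_apply,
            Basis.repr_self, Finsupp.single_apply]
          by_cases h : J' = J
          · rw [h]
          · rw [if_neg h, smul_zero, smul_zero]
        exact LinearMap.congr_fun h2 yy
      have hF' : exteriorPower.map 2 (F ^ t) yy = q ^ t • yy := by
        apply Subtype.ext
        rw [map_coe']
        exact hyF
      have hD' : exteriorPower.map 2 D yy = yy := by
        apply B.ext_elem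
        intro J
        change B.coord J (exteriorPower.map 2 D yy) = B.coord J yy
        rw [hmapG D δ hδ J]
        by_cases h0 : B.coord J yy = 0
        · rw [h0, mul_zero]
        · have h1 := hmapG (F ^ t) (fun i => μ i ^ t) (fun i => pow_eigen' _ _ _ (hμ i) t) J
          rw [hF', map_smul, smul_eq_mul] at h1
          have h2 : ∏ i ∈ J.val, μ i ^ t = q ^ t := (mul_right_cancel₀ h0 h1).symm
          obtain ⟨i, k, hik, hJ⟩ := Finset.card_eq_two.1 J.prop
          have hJ' : J.val = {i, k} := hJ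
          rw [hJ', Finset.prod_pair hik] at h2 ⊢
          rw [hpair i k t ht (by rw [mul_pow]; exact h2), one_mul]
      have h3 := congrArg Subtype.val hD'
      rw [map_coe'] at h3
      exact h3
    | algebraMap r => exact AlgHom.commutes _ r
    | add x y _ _ hx hy => rw [map_add, hx, hy]
    | mul x y _ _ hx hy => rw [map_mul, hx, hy]
  have h1 := hfix _ hmem
  rw [← map_coe'] at h1
  have h2 := map_family D b δ hδ S
  have h3 : (∏ i ∈ S.val, δ i) • exteriorPower.ιMulti_family Ω k b S =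
      exteriorPower.ιMulti_family Ω k b S := by
    rw [← h2]
    exact Subtype.ext h1
  have h4 : (∏ i ∈ S.val, δ i) • (b.exteriorPower k) S = (b.exteriorPower k) S := by
    rw [exteriorPower.basis_apply]
    exact h3
  have h5 := congrArg (fun v => (b.exteriorPower k).repr v S) h4
  simp only [map_smul, Finsupp.smul_apply, Basis.repr_self, Finsupp.single_eq_same, smul_eq_mul,
    mul_one] at h5
  exact hS h5

variable {F : Type*} [Field F] [NumberField F] [IsCMField F]
  {L : Type*} [Field L] [NumberField L] [IsGalois ℚ L] (p : ℕ) [Fact p.Prime]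

theorem diag_basis {Ω : Type*} [Field Ω] {R : ℕ} {Y : Type*} [Fintype Y] [DecidableEq Y]
    (γ : Y → Ω) (i : Σ _ : Fin R, Y) (r : Fin R) (σ : Y) :
    γ σ * (Pi.basis (fun _ : Fin R => Pi.basisFun Ω Y) i) r σ =
      γ i.2 * (Pi.basis (fun _ : Fin R => Pi.basisFun Ω Y) i) r σ := by
  rw [Pi.basis_apply]
  by_cases hr : r = i.1
  · subst hr
    rw [Pi.single_eq_same, Pi.basisFun_apply]
    by_cases hσ : σ = i.2
    · rw [hσ]
    · rw [Pi.single_eq_of_ne hσ, mul_zero, mul_zero]
  · rw [Pi.single_eq_of_ne hr, Pi.zero_apply, mul_zero, mul_zero]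

/-- The diagonal map. -/
def dg {Ω : Type*} [Field Ω] (R : ℕ) {Y : Type*} (γ : Y → Ω) :
    (Fin R → Y → Ω) →ₗ[Ω] (Fin R → Y → Ω) where
  toFun v := fun i σ => γ σ * v i σ
  map_add' v w := by
    ext i σ
    simp [mul_add]
  map_smul' c v := by
    ext i σ
    simp [mul_left_comm]

open Classical in
/-- Necessity. -/
theorem good_of_powers (j : L →+* ℂ) (h : ∀ ψ : F →+* ℂ, ∃ φ : F →+* L, j.comp φ = ψ)
    (e : L →ₐ[ℚ] PadicAlgCl p) (a : ℕ) (π : F) (hint : IsIntegral ℤ π)
    (hweil : ∀ φ : F →+* ℂ, ‖φ π‖ ^ 2 = (((p : ℚ) ^ a : ℚ) : ℝ))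
    (Ω : Type u) [Field Ω] [IsAlgClosed Ω] [CharZero Ω]
    (hO : OnlyLefschetzOnPowers Ω (p ^ a) π) : GoodSlopes (uvec p e a π) := by
  intro c hc hcrel x₀
  by_contra hne
  have hp : p.Prime := Fact.out
  have hq : (0 : ℚ) < (p : ℚ) ^ a := pow_pos (by exact_mod_cast hp.pos) _
  let jΩ : L →ₐ[ℚ] Ω := IsAlgClosed.lift
  let X := F →+* L
  let u := uvec p e a π
  have hub : ∀ x : X, u (cbar x) = - u x := uvec_cbar p e a π hweil
  have hcls : ∀ z x : X, SameClass u z x → SameClass u (cbar z) (cbar x) := by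
    intro z x hz g
    rw [smul_cbar', smul_cbar', hub, hub, hz g]
  -- the classes of `x` and `cbar x` are different
  have hdis : ∀ x : X, ¬ SameClass u (cbar x) x := by
    intro x hx
    apply hne
    have h0 : ∀ y : X, u y = 0 := by
      intro y
      obtain ⟨g, rfl⟩ := MulAction.exists_smul_eq (L ≃ₐ[ℚ] L) x y
      have h1 := hx g
      rw [smul_cbar', hub] at h1
      linarith
    have h1 : Finset.univ.filter (fun y => SameClass (uvec p e a π) y x₀) = Finset.univ := by
      rw [Finset.filter_eq_self]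
      intro y _ g
      exact (h0 _).trans (h0 _).symm
    rw [h1]
    have h2 : ∑ y, c y = - ∑ y, c y := by
      rw [← Finset.sum_neg_distrib]
      refine Finset.sum_nbij' cbar cbar (fun _ _ => Finset.mem_univ _)
        (fun _ _ => Finset.mem_univ _) (fun y _ => cbar_cbar y) (fun y _ => cbar_cbar y) ?_
      intro z _
      rw [hc, neg_neg]
    omega
  let n : X → ℕ := fun x => (c x).toNat
  have hcn : ∀ x, c x = (n x : ℤ) - (n (cbar x) : ℤ) := by
    intro x
    simp only [n, hc]
    omega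
  have hnrel : ∀ g : L ≃ₐ[ℚ] L, ∑ x, (n x : ℝ) * u (g • x) = 0 := by
    intro g
    have h1 : ∑ z : X, (n (cbar z) : ℝ) * u (g • z) = - ∑ z : X, (n z : ℝ) * u (g • z) := by
      rw [← Finset.sum_neg_distrib]
      refine Finset.sum_nbij' cbar cbar (fun _ _ => Finset.mem_univ _)
        (fun _ _ => Finset.mem_univ _) (fun y _ => cbar_cbar y) (fun y _ => cbar_cbar y) ?_
      intro z _
      rw [smul_cbar', hub]
      ring
    have h2 := hcrel g
    have h3 : ∀ z, (c z : ℝ) * u (g • z) = (n z : ℝ) * u (g • z) -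
        (n (cbar z) : ℝ) * u (g • z) := by
      intro z
      rw [hcn]
      push_cast
      ring
    have h4 : ∑ z, (c z : ℝ) * u (g • z) = 0 := h2
    rw [Finset.sum_congr rfl fun z _ => h3 z, Finset.sum_sub_distrib, h1] at h4
    linarith
  obtain ⟨s, hs, hrel⟩ := prod_pow_eq p e a π hint hweil n hnrel
  let m : ℕ := ∑ x, n x
  -- the embeddings in `Ω`
  have hJ : ∀ σ : F →+* Ω, ∃ x : X, (jΩ : L →+* Ω).comp x = σ := exists_lift j h jΩ
  have hJinj : Function.Injective (fun x : X => (jΩ : L →+* Ω).comp x) := by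
    intro x y hxy
    ext b
    exact (jΩ : L →+* Ω).injective (RingHom.congr_fun hxy b)
  let JE : X ≃ (F →+* Ω) := Equiv.ofBijective (fun x : X => (jΩ : L →+* Ω).comp x) ⟨hJinj, hJ⟩
  have hJE : ∀ σ : F →+* Ω, σ π = jΩ (JE.symm σ π) := by
    intro σ
    have h1 : JE (JE.symm σ) = σ := JE.apply_symm_apply σ
    exact (RingHom.congr_fun h1 π).symm
  let R : ℕ := 2 * m
  have hR : ∀ x, 2 * n x ≤ R := by
    intro x
    exact Nat.mul_le_mul_left 2 (Finset.single_le_sum (f := n) (fun _ _ => Nat.zero_le _)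
      (Finset.mem_univ x))
  let ι := Σ _ : Fin R, (F →+* Ω)
  let V := Fin R → (F →+* Ω) → Ω
  let d := Fintype.card ι
  let ε : Fin d ≃ ι := (Fintype.equivFin ι).symm
  let lab : Fin d → X := fun i => JE.symm (ε i).2
  let bas : Basis (Fin d) Ω V :=
    (Pi.basis fun _ : Fin R => Pi.basisFun Ω (F →+* Ω)).reindex ε.symm
  let μ : Fin d → Ω := fun i => jΩ (lab i π)
  let D0 : X → Ω := fun x => if SameClass u x x₀ then 2 else if SameClass u (cbar x) x₀ then 2⁻¹ else 1
  let δ : Fin d → Ω := fun i => D0 (lab i)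
  let diag : ((F →+* Ω) → Ω) → (V →ₗ[Ω] V) := fun γ => dg R γ
  have hdiag : ∀ γ : (F →+* Ω) → Ω, ∀ i, diag γ (bas i) = γ (ε i).2 • bas i := by
    intro γ i
    have h1 : bas i = Pi.basis (fun _ : Fin R => Pi.basisFun Ω (F →+* Ω)) (ε i) := by
      simp only [bas, Basis.reindex_apply, Equiv.symm_symm]
    rw [h1]
    exact funext fun r => funext fun σ => diag_basis γ (ε i) r σ
  have hΦ : ∀ i, powFrob Ω π R (bas i) = μ i • bas i := by
    intro i
    have h1 := hdiag (fun σ => σ π) i
    have h2 : (ε i).2 π = μ i := hJE _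
    simp only [h2] at h1
    exact h1
  have hDD : ∀ i, diag (fun σ => D0 (JE.symm σ)) (bas i) = δ i • bas i := fun i => hdiag _ i
  have hpow : ∀ i, (powFrob Ω π R ^ s) (bas i) = μ i ^ s • bas i := fun i =>
    pow_eigen' _ _ _ (hΦ i) s
  have h20 : (2 : Ω) ≠ 0 := two_ne_zero
  have hnot : ∀ x, SameClass u x x₀ → ¬ SameClass u (cbar x) x₀ := by
    intro x h1 h2
    exact hdis x (h2.trans h1.symm)
  have hD0 : ∀ x : X, D0 x * D0 (cbar x) = 1 := by
    intro x
    simp only [D0, cbar_cbar]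
    by_cases h1 : SameClass u x x₀
    · rw [if_pos h1, if_neg (hnot x h1), if_pos h1, mul_inv_cancel₀ h20]
    · by_cases h2 : SameClass u (cbar x) x₀
      · rw [if_neg h1, if_pos h2, if_pos h2, inv_mul_cancel₀ h20]
      · rw [if_neg h1, if_neg h2, if_neg h2, if_neg h1, mul_one]
  have hD1 : ∀ x y : X, SameClass u x y → D0 x = D0 y := by
    intro x y hxy
    simp only [D0]
    have h1 : SameClass u x x₀ ↔ SameClass u y x₀ := ⟨fun h => hxy.symm.trans h, fun h => hxy.trans h⟩
    have h2 : SameClass u (cbar x) x₀ ↔ SameClass u (cbar y) x₀ :=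
      ⟨fun h => (hcls _ _ hxy).symm.trans h, fun h => (hcls _ _ hxy).trans h⟩
    rw [if_congr h1 rfl rfl, if_congr h2 rfl rfl]
  have hpair : ∀ i k (t : ℕ), 0 < t → (μ i * μ k) ^ t = ((p ^ a : ℕ) : Ω) ^ t → δ i * δ k = 1 := by
    intro i k t ht hik
    let x := lab i
    let y := lab k
    have h2 : ∏ z : X, z π ^ ((if z = x then 1 else 0) + (if z = y then 1 else 0)) = x π * y π := by
      have h3 : ∀ z : X, z π ^ ((if z = x then 1 else 0) + (if z = y then 1 else 0)) =
          (if z = x then z π else 1) * (if z = y then z π else 1) := by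
        intro z
        rw [pow_add]
        split_ifs <;> simp
      rw [Finset.prod_congr rfl fun z _ => h3 z, Finset.prod_mul_distrib, Finset.prod_ite_eq',
        Finset.prod_ite_eq', if_pos (Finset.mem_univ _), if_pos (Finset.mem_univ _)]
    have h3 : ∑ z : X, ((if z = x then 1 else 0) + (if z = y then 1 else 0)) = 2 := by
      rw [Finset.sum_add_distrib, Finset.sum_ite_eq', Finset.sum_ite_eq',
        if_pos (Finset.mem_univ _), if_pos (Finset.mem_univ _)]
    have h4 : (∏ z : X, z π ^ ((if z = x then 1 else 0) + (if z = y then 1 else 0))) ^ (2 * t) =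
        ((p : L) ^ a) ^ ((∑ z : X, ((if z = x then 1 else 0) + (if z = y then 1 else 0))) * t) := by
      rw [h2, h3]
      apply (jΩ : L →+* Ω).injective
      change jΩ _ = jΩ _
      rw [map_pow, map_mul, map_pow, map_pow, map_natCast, mul_comm 2 t, pow_mul]
      have h5 : jΩ (x π) * jΩ (y π) = μ i * μ k := rfl
      rw [h5, hik]
      push_cast
      ring
    have h5 := fun g => sum_uvec_eq_zero p e a π hweil _ t ht h4 g
    have h6 : SameClass u y (cbar x) := by
      intro g
      have h1 : ∀ z : X, (((if z = x then 1 else 0) + (if z = y then 1 else 0) : ℕ) : ℝ) *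
          uvec p e a π (g • z) = (if z = x then u (g • z) else 0) + (if z = y then u (g • z) else 0) := by
        intro z
        simp only [u]
        push_cast
        split_ifs <;> ring
      have h7 := h5 g
      rw [Finset.sum_congr rfl fun z _ => h1 z, Finset.sum_add_distrib, Finset.sum_ite_eq',
        Finset.sum_ite_eq', if_pos (Finset.mem_univ _), if_pos (Finset.mem_univ _)] at h7
      rw [smul_cbar', hub]
      linarith
    change D0 x * D0 y = 1
    rw [hD1 y (cbar x) h6, hD0]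
  let S0 : Finset (Fin d) := Finset.univ.filter fun i => ((ε i).1 : ℕ) < 2 * n (lab i)
  have hfilt : ∀ k : ℕ, k ≤ R → (Finset.univ.filter fun r : Fin R => (r : ℕ) < k).card = k := by
    intro k hk
    have h1 : (Finset.univ.filter fun r : Fin R => (r : ℕ) < k).map Fin.valEmbedding =
        Finset.range k := by
      ext r
      simp only [Finset.mem_map, Finset.mem_filter, Finset.mem_univ, true_and, Fin.valEmbedding_apply,
        Finset.mem_range]
      constructor
      · rintro ⟨r', h1, rfl⟩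
        exact h1
      · intro h1
        exact ⟨⟨r, by omega⟩, h1, rfl⟩
    rw [← Finset.card_map Fin.valEmbedding, h1, Finset.card_range]
  have hprod0 : ∀ {M : Type u} [CommMonoid M] (f : X → M), ∏ i ∈ S0, f (lab i) =
      ∏ x, f x ^ (2 * n x) := by
    intro M _ f
    rw [Finset.prod_filter]
    rw [Fintype.prod_equiv ε (fun i => if ((ε i).1 : ℕ) < 2 * n (lab i) then f (lab i) else 1)
      (fun z : ι => if (z.1 : ℕ) < 2 * n (JE.symm z.2) then f (JE.symm z.2) else 1) (fun _ => rfl),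
      Fintype.prod_sigma, Finset.prod_comm, ← Fintype.prod_equiv JE
        (fun x => f x ^ (2 * n x)) (fun σ => ∏ r : Fin R,
          if (r : ℕ) < 2 * n (JE.symm σ) then f (JE.symm σ) else 1)]
    intro x
    rw [Equiv.symm_apply_apply, ← Finset.prod_filter, Finset.prod_const, hfilt _ (hR x)]
  have hcardS : S0.card = 2 * m := by
    have h1 := hprod0 (M := Multiplicative (ULift ℕ)) (fun _ => Multiplicative.ofAdd (ULift.up 1))
    rw [Finset.prod_const] at h1
    have h2 := congrArg (fun t => (Multiplicative.toAdd t).down) h1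
    simp only [toAdd_pow, toAdd_prod, toAdd_ofAdd] at h2
    have h3 : ∀ k : ℕ, (k • (ULift.up 1 : ULift ℕ)).down = k := by
      intro k
      rw [ULift.smul_down]
      simp
    rw [h3] at h2
    rw [h2]
    have h4 : ∀ (s : Finset X) (f : X → ULift ℕ), (∑ x ∈ s, f x).down = ∑ x ∈ s, (f x).down := by
      intro s f
      exact map_sum (AddEquiv.ulift : ULift ℕ ≃+ ℕ) f s
    rw [h4]
    simp only [h3, m, Finset.mul_sum]
  let S : powersetCard (Fin d) (2 * m) := ⟨S0, hcardS⟩
  have hprodS : ∀ f : X → Ω, ∏ i ∈ S.val, f (lab i) = ∏ x, f x ^ (2 * n x) := fun f => hprod0 f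
  have hqc : ((p ^ a : ℕ) : Ω) = (p : Ω) ^ a := by push_cast; rfl
  have hmem := hO R m s hs
    (exteriorPower.ιMulti_family Ω (2 * m) bas S : ExteriorAlgebra Ω V)
    (exteriorPower.ιMulti_family Ω _ _ S).2 (by
    have h1 := map_family (powFrob Ω π R ^ s) bas (fun i => μ i ^ s) hpow S
    have h2 : ∏ i ∈ S.val, μ i ^ s = (((p ^ a : ℕ) : Ω) ^ m) ^ s := by
      have h3 := hprodS (fun x => jΩ (x π) ^ s)
      change ∏ i ∈ S.val, μ i ^ s = _ at h3
      rw [h3]
      have h4 := congrArg jΩ hrel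
      rw [map_pow, map_prod, map_pow, map_pow, map_natCast] at h4
      rw [hqc, ← pow_mul, h4.symm, ← Finset.prod_pow]
      refine Finset.prod_congr rfl fun x _ => ?_
      rw [map_pow, ← pow_mul, ← pow_mul]
      congr 1
      ring
    rw [h2] at h1
    have h3 := congrArg Subtype.val h1
    rw [map_coe'] at h3
    exact h3)
  refine family_not_mem bas (powFrob Ω π R) (diag fun σ => D0 (JE.symm σ)) μ δ hΦ hDD
      ((p ^ a : ℕ) : Ω) hpair (2 * m) S ?_ hmem
  have h1 : ∏ i ∈ S.val, δ i = ∏ x, D0 x ^ (2 * n x) := hprodS D0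
  rw [h1]
  let C := Finset.univ.filter (fun y => SameClass u y x₀)
  let C' := Finset.univ.filter (fun y => SameClass u (cbar y) x₀)
  have h2 : ∏ x, D0 x ^ (2 * n x) = 2 ^ (∑ x ∈ C, 2 * n x) * (2⁻¹) ^ (∑ x ∈ C', 2 * n x) := by
    have h3 : ∀ x, D0 x ^ (2 * n x) = (if SameClass u x x₀ then (2 : Ω) ^ (2 * n x) else 1) *
        (if SameClass u (cbar x) x₀ then (2⁻¹ : Ω) ^ (2 * n x) else 1) := by
      intro x
      simp only [D0]
      by_cases h4 : SameClass u x x₀
      · rw [if_pos h4, if_pos h4, if_neg (hnot x h4), mul_one]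
      · rw [if_neg h4, if_neg h4, one_mul]
        split_ifs
        · rfl
        · rw [one_pow]
    rw [Finset.prod_congr rfl fun x _ => h3 x, Finset.prod_mul_distrib, ← Finset.prod_filter,
      ← Finset.prod_filter, Finset.prod_pow_eq_pow_sum, Finset.prod_pow_eq_pow_sum]
  rw [h2, inv_pow]
  intro h3
  have h4 : (2 : Ω) ^ (∑ x ∈ C, 2 * n x) = 2 ^ (∑ x ∈ C', 2 * n x) := by
    rw [mul_inv_eq_one₀ (pow_ne_zero _ h20)] at h3
    exact h3
  have h5 : (2 : ℕ) ^ (∑ x ∈ C, 2 * n x) = 2 ^ (∑ x ∈ C', 2 * n x) := by exact_mod_cast h4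
  have h6 : ∑ x ∈ C, 2 * n x = ∑ x ∈ C', 2 * n x := Nat.pow_right_injective le_rfl h5
  rw [← Finset.mul_sum, ← Finset.mul_sum] at h6
  have h7 : ∑ x ∈ C, n x = ∑ x ∈ C', n x := by omega
  have h8 : ∑ x ∈ C', n x = ∑ x ∈ C, n (cbar x) := by
    refine Finset.sum_nbij' cbar cbar ?_ ?_ (fun y _ => cbar_cbar y) (fun y _ => cbar_cbar y) ?_
    · intro z hz
      rw [Finset.mem_filter] at hz ⊢
      exact ⟨Finset.mem_univ _, hz.2⟩
    · intro z hz
      rw [Finset.mem_filter] at hz ⊢
      refine ⟨Finset.mem_univ _, ?_⟩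
      rw [cbar_cbar]
      exact hz.2
    · intro z _
      rw [cbar_cbar]
  apply hne
  have h9 : ∑ y ∈ C, c y = (∑ y ∈ C, (n y : ℤ)) - ∑ y ∈ C, (n (cbar y) : ℤ) := by
    rw [← Finset.sum_sub_distrib]
    exact Finset.sum_congr rfl fun y _ => hcn y
  have h10 : ((∑ x ∈ C, n x : ℕ) : ℤ) = ((∑ x ∈ C, n (cbar x) : ℕ) : ℤ) := by
    rw [h7, h8]
  push_cast at h10
  have h11 : ∑ y ∈ C, c y = 0 := by rw [h9, h10, sub_self]
  exact h11

/-- Powers are a special case. -/
theorem onPowers_of_onlyLefschetz {K : Type} [Field K] [NumberField K] (Ω : Type u) [Field Ω]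
    [IsAlgClosed Ω] [CharZero Ω] (q : ℕ) (π : K) (h : OnlyLefschetz Ω q π) :
    OnlyLefschetzOnPowers Ω q π := by
  classical
  intro n
  apply h
  rw [eq_top_iff, ← (Pi.basis fun _ : Fin n => Pi.basisFun Ω (K →+* Ω)).span_eq]
  apply Submodule.span_mono
  rintro _ ⟨⟨r, σ⟩, rfl⟩
  exact ⟨σ, funext fun r' => funext fun σ' => diag_basis (fun σ : K →+* Ω => σ π) ⟨r, σ⟩ r' σ'⟩

/-- The criterion. -/
theorem criterion (j : L →+* ℂ) (h : ∀ ψ : F →+* ℂ, ∃ φ : F →+* L, j.comp φ = ψ)
    (e : L →ₐ[ℚ] PadicAlgCl p) (a : ℕ) (π : F) (hW : IsWeilNumber (p ^ a) π)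
    (Ω : Type u) [Field Ω] [IsAlgClosed Ω] [CharZero Ω] :
    (GoodSlopes (uvec p e a π) → OnlyLefschetz Ω (p ^ a) π) ∧
      (OnlyLefschetzOnPowers Ω (p ^ a) π → GoodSlopes (uvec p e a π)) := by
  have hweil : ∀ φ : F →+* ℂ, ‖φ π‖ ^ 2 = (((p : ℚ) ^ a : ℚ) : ℝ) := by
    intro φ
    rw [hW.2 φ]
    push_cast
    rfl
  exact ⟨fun hg => onlyLefschetz_of_good p j h e a π hW.1 hweil hg Ω,
    fun hO => good_of_powers p j h e a π hW.1 hweil Ω hO⟩

end Pool.Agent.H21.TC
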