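import Mathlib

/-!
# Odd functions on the complex embeddings of a number field
-/

set_option autoImplicit false

namespace Pool.Agent.H21.TC

open NumberField

/-- The rational functions on the set of the complex embeddings of `K` that change their sign under
complex conjugation. -/
def oddFunctions (K : Type*) [Field K] : Submodule ℚ ((K →+* ℂ) → ℚ) where
  carrier := {f | ∀ φ, f (ComplexEmbedding.conjugate φ) = - f φ}
  zero_mem' := fun x => by simp
  add_mem' := fun {f g} hf hg x => by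
    simp only [Pi.add_apply, hf x, hg x]
    ring
  smul_mem' := fun c f hf x => by
    simp only [Pi.smul_apply, hf x, smul_eq_mul]
    ring

/-- The space is stable under the automorphisms of the field of complex numbers. -/
def IsStable {K : Type*} [Field K] (W : Submodule ℚ ((K →+* ℂ) → ℚ)) : Prop :=
  ∀ τ : ℂ ≃+* ℂ, ∀ f ∈ W, (fun φ => f ((τ : ℂ →+* ℂ).comp φ)) ∈ W

/-- The odd functions whose value at an embedding depends only on the restriction of the embedding to
the subfield `E`. -/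
def oddOfSubfield {K : Type*} [Field K] (E : Subfield K) : Submodule ℚ ((K →+* ℂ) → ℚ) where
  carrier := {f | (∀ φ, f (ComplexEmbedding.conjugate φ) = - f φ) ∧
    ∀ φ ψ : K →+* ℂ, (∀ a ∈ E, φ a = ψ a) → f φ = f ψ}
  zero_mem' := ⟨fun x => by simp, fun _ _ _ => rfl⟩
  add_mem' := fun {f g} hf hg => ⟨fun x => by
      simp only [Pi.add_apply, hf.1 x, hg.1 x]
      ring, fun x y h => by simp only [Pi.add_apply, hf.2 x y h, hg.2 x y h]⟩
  smul_mem' := fun c f hf => ⟨fun x => by
      simp only [Pi.smul_apply, hf.1 x, smul_eq_mul]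
      ring, fun x y h => by simp only [Pi.smul_apply, hf.2 x y h]⟩

/-- The odd functions that are invariant under the automorphism `σ` of `K`. -/
def oddInvariants {K : Type*} [Field K] (σ : K ≃+* K) : Submodule ℚ ((K →+* ℂ) → ℚ) where
  carrier := {f | (∀ φ, f (ComplexEmbedding.conjugate φ) = - f φ) ∧
    ∀ φ : K →+* ℂ, f (φ.comp (σ : K →+* K)) = f φ}
  zero_mem' := ⟨fun x => by simp, fun _ => rfl⟩
  add_mem' := fun {f g} hf hg => ⟨fun x => by
      simp only [Pi.add_apply, hf.1 x, hg.1 x]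
      ring, fun x => by simp only [Pi.add_apply, hf.2 x, hg.2 x]⟩
  smul_mem' := fun c f hf => ⟨fun x => by
      simp only [Pi.smul_apply, hf.1 x, smul_eq_mul]
      ring, fun x => by simp only [Pi.smul_apply, hf.2 x]⟩

/-- The space is not zero and has no proper nonzero stable subspace. -/
def IsIrred {K : Type*} [Field K] (W : Submodule ℚ ((K →+* ℂ) → ℚ)) : Prop :=
  W ≠ ⊥ ∧ ∀ S : Submodule ℚ ((K →+* ℂ) → ℚ), IsStable S → S ≤ W → S = ⊥ ∨ S = W

/-- Every equivariant linear map from `A` to `B` is zero. -/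
def NoMaps {K : Type*} [Field K] (A B : Submodule ℚ ((K →+* ℂ) → ℚ)) : Prop :=
  ∀ T : ((K →+* ℂ) → ℚ) →ₗ[ℚ] ((K →+* ℂ) → ℚ), (∀ f ∈ A, T f ∈ B) →
    (∀ τ : ℂ ≃+* ℂ, ∀ f ∈ A, T (fun φ => f ((τ : ℂ →+* ℂ).comp φ)) =
      fun φ => T f ((τ : ℂ →+* ℂ).comp φ)) → ∀ f ∈ A, T f = 0

end Pool.Agent.H21.TC
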