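import Mathlib

/-!
# Spaces of odd functions on a finite set with a transitive group of permutations
-/

set_option autoImplicit false

namespace Pool.Agent.H21.TC

variable {X : Type*} [Fintype X]

/-- Odd functions. -/
def OddS (bar : X → X) : Submodule ℚ (X → ℚ) where
  carrier := {f | ∀ x, f (bar x) = - f x}
  zero_mem' := fun x => by simp
  add_mem' := fun {f g} hf hg x => by
    simp only [Pi.add_apply, hf x, hg x]
    ring
  smul_mem' := fun c f hf x => by
    simp only [Pi.smul_apply, hf x, smul_eq_mul]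
    ring

/-- Stable subspaces. -/
def StableS (P : Subgroup (Equiv.Perm X)) (W : Submodule ℚ (X → ℚ)) : Prop :=
  ∀ σ ∈ P, ∀ f ∈ W, (fun x => f (σ x)) ∈ W

/-- Odd functions which respect a relation. -/
def oddR (bar : X → X) (R : X → X → Prop) : Submodule ℚ (X → ℚ) where
  carrier := {f | (∀ x, f (bar x) = - f x) ∧ ∀ x y, R x y → f x = f y}
  zero_mem' := ⟨fun x => by simp, fun _ _ _ => rfl⟩
  add_mem' := fun {f g} hf hg => ⟨fun x => by
      simp only [Pi.add_apply, hf.1 x, hg.1 x]
      ring, fun x y h => by simp only [Pi.add_apply, hf.2 x y h, hg.2 x y h]⟩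
  smul_mem' := fun c f hf => ⟨fun x => by
      simp only [Pi.smul_apply, hf.1 x, smul_eq_mul]
      ring, fun x y h => by simp only [Pi.smul_apply, hf.2 x y h]⟩

theorem mem_OddS {bar : X → X} {f : X → ℚ} : f ∈ OddS bar ↔ ∀ x, f (bar x) = - f x := Iff.rfl

theorem mem_oddR {bar : X → X} {R : X → X → Prop} {f : X → ℚ} :
    f ∈ oddR bar R ↔ (∀ x, f (bar x) = - f x) ∧ ∀ x y, R x y → f x = f y := Iff.rfl

open Classical in
/-- All relations are coincidences. -/
def GoodW (P : Subgroup (Equiv.Perm X)) (bar : X → X) (w : X → ℤ) : Prop :=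
  ∀ c : X → ℤ, (∀ x, c (bar x) = - c x) → (∀ σ ∈ P, ∑ x, c x * w (σ x) = 0) →
    ∀ x, ∑ y ∈ Finset.univ.filter (fun y => ∀ σ ∈ P, w (σ y) = w (σ x)), c y = 0

/-- Orthogonal decomposition. -/
theorem exists_decomp (W : Submodule ℚ (X → ℚ)) (f : X → ℚ) :
    ∃ f₀ ∈ W, ∀ h ∈ W, ∑ x, (f x - f₀ x) * h x = 0 := by
  classical
  let B : LinearMap.BilinForm ℚ (X → ℚ) := Matrix.toBilin' (1 : Matrix X X ℚ)
  have hB : ∀ f g, B f g = ∑ x, f x * g x := by
    intro f g
    rw [Matrix.toBilin'_apply', Matrix.one_mulVec]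
    rfl
  have hrefl : B.IsRefl := by
    intro f g h
    rw [hB] at h ⊢
    rw [← h]
    exact Finset.sum_congr rfl fun x _ => mul_comm _ _
  have hdisj : Disjoint W (B.orthogonal W) := by
    rw [Submodule.disjoint_def]
    intro g hg hg'
    have h1 : B g g = 0 := hg' g hg
    rw [hB] at h1
    have h2 := (Finset.sum_eq_zero_iff_of_nonneg fun x _ => mul_self_nonneg (g x)).1 h1
    funext x
    exact mul_self_eq_zero.1 (h2 x (Finset.mem_univ x))
  have hcompl := (LinearMap.BilinForm.isCompl_orthogonal_iff_disjoint hrefl).2 hdisj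
  have h1 : f ∈ W ⊔ B.orthogonal W := by
    rw [hcompl.sup_eq_top]
    trivial
  obtain ⟨f₀, h₀, f₁, h₁, rfl⟩ := Submodule.mem_sup.1 h1
  refine ⟨f₀, h₀, fun h hh => ?_⟩
  have h2 : B h f₁ = 0 := h₁ h hh
  rw [hB] at h2
  rw [← h2]
  refine Finset.sum_congr rfl fun x _ => ?_
  rw [Pi.add_apply]
  ring

variable (P : Subgroup (Equiv.Perm X)) (bar : X → X)

theorem sum_perm (σ : Equiv.Perm X) (f h : X → ℚ) : ∑ x, f (σ x) * h x = ∑ x, f x * h (σ⁻¹ x) := by
  rw [← Equiv.sum_comp σ (fun x => f x * h (σ⁻¹ x))]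
  refine Finset.sum_congr rfl fun x _ => ?_
  have h1 : σ⁻¹ (σ x) = x := σ.symm_apply_apply x
  rw [h1]

/-- The orthogonal projection to a stable subspace is equivariant. -/
theorem decomp_perm {W : Submodule ℚ (X → ℚ)} (hW : StableS P W) {σ : Equiv.Perm X} (hσ : σ ∈ P)
    {f f₀ : X → ℚ} (h : ∀ h ∈ W, ∑ x, (f x - f₀ x) * h x = 0) :
    ∀ h ∈ W, ∑ x, (f (σ x) - f₀ (σ x)) * h x = 0 := by
  intro k hk
  rw [sum_perm σ (fun x => f x - f₀ x) k]
  exact h _ (hW σ⁻¹ (inv_mem hσ) k hk)

theorem clear_denom (f : X → ℚ) : ∃ (N : ℤ) (c : X → ℤ), N ≠ 0 ∧ ∀ x, (c x : ℚ) = N * f x := by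
  classical
  refine ⟨∏ x, ((f x).den : ℤ), fun x => (f x).num * ∏ y ∈ Finset.univ.erase x, ((f y).den : ℤ),
    Finset.prod_ne_zero_iff.2 fun x _ => by exact_mod_cast (f x).den_ne_zero, fun x => ?_⟩
  rw [← Finset.mul_prod_erase _ _ (Finset.mem_univ x)]
  push_cast
  have h1 : ((f x).num : ℚ) = (f x).den * f x := by
    have := Rat.den_mul_eq_num (f x)
    exact this.symm
  rw [h1]
  ring

/-- From vectors to subspaces. -/
theorem subspace_of_good (htr : ∀ x y : X, ∃ σ ∈ P, σ x = y)
    (hgood : ∀ w : X → ℤ, (∀ x, w (bar x) = - w x) → GoodW P bar w)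
    (W : Submodule ℚ (X → ℚ)) (hW : StableS P W) (hWo : W ≤ OddS bar) :
    ∃ w : X → ℤ, (∀ x, w (bar x) = - w x) ∧
      W = oddR bar (fun x y => ∀ σ ∈ P, w (σ x) = w (σ y)) := by
  classical
  by_cases hX : Nonempty X
  · obtain ⟨x₀⟩ := hX
    obtain ⟨w, hwW, hw⟩ := exists_decomp W (fun x => if x = x₀ then 1 else 0)
    obtain ⟨N, v, hN, hv⟩ := clear_denom w
    have hN' : (N : ℚ) ≠ 0 := by exact_mod_cast hN
    have hvw : ∀ x y, v x = v y ↔ w x = w y := by
      intro x y
      constructor
      · intro h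
        have h1 : (v x : ℚ) = v y := by rw [h]
        rw [hv, hv] at h1
        exact mul_left_cancel₀ hN' h1
      · intro h
        have h1 : (v x : ℚ) = v y := by rw [hv, hv, h]
        exact_mod_cast h1
    have hwo : ∀ x, w (bar x) = - w x := hWo hwW
    have hvo : ∀ x, v (bar x) = - v x := by
      intro x
      have h1 : (v (bar x) : ℚ) = - v x := by rw [hv, hv, hwo]; ring
      exact_mod_cast h1
    -- a member of `W` orthogonal to the translates of `w` is zero
    have key : ∀ f ∈ W, (∀ σ ∈ P, ∑ x, f x * w (σ x) = 0) → f = 0 := by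
      intro f hf hfo
      funext x
      obtain ⟨σ, hσ, hσx⟩ := htr x x₀
      have h1 := decomp_perm P hW hσ hw f hf
      have h2 : ∑ y, ((if σ y = x₀ then (1 : ℚ) else 0) - w (σ y)) * f y = f x := by
        have h3 : ∀ y, ((if σ y = x₀ then (1 : ℚ) else 0) - w (σ y)) * f y =
            (if y = x then f y else 0) - f y * w (σ y) := by
          intro y
          have h4 : σ y = x₀ ↔ y = x := by
            rw [← hσx]
            exact σ.injective.eq_iff
          simp only [h4]
          split_ifs <;> ring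
        rw [Finset.sum_congr rfl fun y _ => h3 y, Finset.sum_sub_distrib, Finset.sum_ite_eq',
          if_pos (Finset.mem_univ _), hfo σ hσ, sub_zero]
      rw [h2] at h1
      exact h1
    -- the span of the translates
    let W₀ : Submodule ℚ (X → ℚ) := Submodule.span ℚ {f | ∃ σ ∈ P, f = fun x => w (σ x)}
    have hW₀ : W ≤ W₀ := by
      intro f hf
      obtain ⟨f₀, hf₀, ho⟩ := exists_decomp W₀ f
      have hle : W₀ ≤ W := by
        rw [Submodule.span_le]
        rintro _ ⟨σ, hσ, rfl⟩
        exact hW σ hσ w hwW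
      have h1 : f - f₀ = 0 := by
        apply key _ (Submodule.sub_mem _ hf (hle hf₀))
        intro σ hσ
        exact ho _ (Submodule.subset_span ⟨σ, hσ, rfl⟩)
      rw [sub_eq_zero.1 h1]
      exact hf₀
    refine ⟨v, hvo, le_antisymm ?_ ?_⟩
    · intro f hf
      refine ⟨hWo hf, fun x y hxy => ?_⟩
      have hle : W₀ ≤ oddR bar (fun x y => ∀ σ ∈ P, v (σ x) = v (σ y)) ⊔ ⊤ := le_sup_of_le_right le_top
      have h1 : ∀ f ∈ W₀, f x = f y := by
        intro f hf
        induction hf using Submodule.span_induction with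
        | mem f hf =>
          obtain ⟨σ, hσ, rfl⟩ := hf
          exact (hvw _ _).1 (hxy σ hσ)
        | zero => rfl
        | add f g _ _ hf hg => rw [Pi.add_apply, Pi.add_apply, hf, hg]
        | smul c f _ hf => rw [Pi.smul_apply, Pi.smul_apply, hf]
      exact h1 f (hW₀ hf)
    · intro f hf
      obtain ⟨f₀, hf₀, ho⟩ := exists_decomp W f
      -- `f₀` is in the second space
      have hf₀' : ∀ x y, (∀ σ ∈ P, v (σ x) = v (σ y)) → f₀ x = f₀ y := by
        intro x y hxy
        have h1 : ∀ f ∈ W₀, f x = f y := by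
          intro f hf
          induction hf using Submodule.span_induction with
          | mem f hf =>
            obtain ⟨σ, hσ, rfl⟩ := hf
            exact (hvw _ _).1 (hxy σ hσ)
          | zero => rfl
          | add f g _ _ hf hg => rw [Pi.add_apply, Pi.add_apply, hf, hg]
          | smul c f _ hf => rw [Pi.smul_apply, Pi.smul_apply, hf]
        exact h1 f₀ (hW₀ hf₀)
      let k : X → ℚ := fun x => f x - f₀ x
      have hko : ∀ x, k (bar x) = - k x := by
        intro x
        simp only [k, hf.1 x, hWo hf₀ x]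
        ring
      have hkc : ∀ x y, (∀ σ ∈ P, v (σ x) = v (σ y)) → k x = k y := by
        intro x y hxy
        simp only [k]
        rw [hf.2 x y hxy, hf₀' x y hxy]
      obtain ⟨M, c, hM, hc⟩ := clear_denom k
      have hM' : (M : ℚ) ≠ 0 := by exact_mod_cast hM
      have h1 := hgood v hvo c (by
        intro x
        have h2 : (c (bar x) : ℚ) = - c x := by rw [hc, hc, hko]; ring
        exact_mod_cast h2) (by
        intro σ hσ
        have h2 : ((∑ x, c x * v (σ x) : ℤ) : ℚ) = 0 := by
          push_cast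
          have h3 : ∀ x, (c x : ℚ) * v (σ x) = (M * N) * ((f x - f₀ x) * w (σ x)) := by
            intro x
            rw [hc, hv]
            ring
          rw [Finset.sum_congr rfl fun x _ => h3 x, ← Finset.mul_sum, ho _ (hW σ hσ w hwW),
            mul_zero]
        exact_mod_cast h2)
      have hk0 : ∀ x, k x = 0 := by
        intro x
        have h2 := h1 x
        have h3 : ((∑ y ∈ Finset.univ.filter (fun y => ∀ σ ∈ P, v (σ y) = v (σ x)), c y : ℤ) : ℚ) =
            (Finset.univ.filter (fun y => ∀ σ ∈ P, v (σ y) = v (σ x))).card * (M * k x) := by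
          push_cast
          rw [Finset.sum_congr rfl (fun y hy => by
            rw [hc, hkc y x (Finset.mem_filter.1 hy).2] : ∀ y ∈ Finset.univ.filter
              (fun y => ∀ σ ∈ P, v (σ y) = v (σ x)), (c y : ℚ) = M * k x), Finset.sum_const,
            nsmul_eq_mul]
        rw [h2, Int.cast_zero] at h3
        have h4 : ((Finset.univ.filter (fun y => ∀ σ ∈ P, v (σ y) = v (σ x))).card : ℚ) ≠ 0 := by
          have : (Finset.univ.filter (fun y => ∀ σ ∈ P, v (σ y) = v (σ x))).card ≠ 0 :=
            Finset.card_ne_zero_of_mem (Finset.mem_filter.2 ⟨Finset.mem_univ x, fun _ _ => rfl⟩)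
          exact_mod_cast this
        have h5 := (mul_eq_zero.1 h3.symm).resolve_left h4
        exact (mul_eq_zero.1 h5).resolve_left hM'
      have h2 : f = f₀ := by
        funext x
        have := hk0 x
        simp only [k] at this
        linarith
      rw [h2]
      exact hf₀
  · refine ⟨fun _ => 0, fun _ => by simp, ?_⟩
    have hem : IsEmpty X := not_nonempty_iff.1 hX
    exact Subsingleton.elim _ _

/-- From subspaces to vectors. -/
theorem good_of_subspace (hbar : ∀ x, bar (bar x) = x) (hcomm : ∀ σ ∈ P, ∀ x, σ (bar x) = bar (σ x))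
    (h : ∀ W : Submodule ℚ (X → ℚ), StableS P W → W ≤ OddS bar → ∃ R : X → X → Prop, W = oddR bar R)
    (w : X → ℤ) (hw : ∀ x, w (bar x) = - w x) : GoodW P bar w := by
  classical
  intro c hc hrel x
  let W : Submodule ℚ (X → ℚ) := Submodule.span ℚ {f | ∃ σ ∈ P, f = fun x => (w (σ x) : ℚ)}
  obtain ⟨R, hR⟩ := h W (by
    intro τ hτ f hf
    induction hf using Submodule.span_induction with
    | mem f hf =>
      obtain ⟨σ, hσ, rfl⟩ := hf
      exact Submodule.subset_span ⟨σ * τ, mul_mem hσ hτ, rfl⟩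
    | zero => exact Submodule.zero_mem _
    | add f g _ _ hf hg => exact Submodule.add_mem _ hf hg
    | smul c f _ hf => exact Submodule.smul_mem _ c hf) (by
    rw [Submodule.span_le]
    rintro _ ⟨σ, hσ, rfl⟩ x
    simp only [hcomm σ hσ, hw]
    push_cast
    rfl)
  let E : X → X → Prop := fun x y => ∀ σ ∈ P, w (σ x) = w (σ y)
  have hRE : ∀ x y, R x y → E x y := by
    intro x y hxy σ hσ
    have h1 : (fun x => (w (σ x) : ℚ)) ∈ W := Submodule.subset_span ⟨σ, hσ, rfl⟩
    rw [hR] at h1
    have h2 : (w (σ x) : ℚ) = w (σ y) := h1.2 x y hxy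
    exact_mod_cast h2
  have hEb : ∀ x y, E x y → E (bar x) (bar y) := by
    intro x y hxy σ hσ
    rw [hcomm σ hσ, hcomm σ hσ, hw, hw, hxy σ hσ]
  have hbb : ∀ y, E (bar y) x ↔ E y (bar x) := by
    intro y
    constructor
    · intro h1
      have := hEb _ _ h1
      rwa [hbar] at this
    · intro h1
      have := hEb _ _ h1
      rwa [hbar] at this
  have horth : ∀ f ∈ W, ∑ y, (c y : ℚ) * f y = 0 := by
    intro f hf
    induction hf using Submodule.span_induction with
    | mem f hf =>
      obtain ⟨σ, hσ, rfl⟩ := hf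
      have h1 : ((∑ x, c x * w (σ x) : ℤ) : ℚ) = 0 := by rw [hrel σ hσ, Int.cast_zero]
      push_cast at h1
      exact h1
    | zero => simp
    | add f g _ _ hf hg =>
      simp only [Pi.add_apply, mul_add, Finset.sum_add_distrib, hf, hg, add_zero]
    | smul a f _ hf =>
      simp only [Pi.smul_apply, smul_eq_mul, mul_left_comm _ a, ← Finset.mul_sum, hf, mul_zero]
  let f : X → ℚ := fun y => (if E y x then 1 else 0) - (if E (bar y) x then 1 else 0)
  have hf : f ∈ W := by
    rw [hR]
    refine ⟨fun y => ?_, fun y z hyz => ?_⟩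
    · simp only [f, hbar]
      ring
    · have h1 := hRE y z hyz
      have i1 : E y x ↔ E z x :=
        ⟨fun h σ hσ => (h1 σ hσ).symm.trans (h σ hσ), fun h σ hσ => (h1 σ hσ).trans (h σ hσ)⟩
      have h2 := hEb _ _ h1
      have i2 : E (bar y) x ↔ E (bar z) x :=
        ⟨fun h σ hσ => (h2 σ hσ).symm.trans (h σ hσ), fun h σ hσ => (h2 σ hσ).trans (h σ hσ)⟩
      simp only [f, i1, i2]
  have h1 := horth f hf
  simp only [f, mul_sub, mul_ite, mul_one, mul_zero, Finset.sum_sub_distrib] at h1
  rw [← Finset.sum_filter, ← Finset.sum_filter] at h1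
  have h2 : ∑ y ∈ Finset.univ.filter (fun y => E (bar y) x), (c y : ℚ) =
      - ∑ y ∈ Finset.univ.filter (fun y => E y x), (c y : ℚ) := by
    rw [← Finset.sum_neg_distrib]
    refine Finset.sum_nbij' bar bar ?_ ?_ (fun y _ => hbar y) (fun y _ => hbar y) ?_
    · intro y hy
      rw [Finset.mem_filter] at hy ⊢
      exact ⟨Finset.mem_univ _, hy.2⟩
    · intro y hy
      rw [Finset.mem_filter] at hy ⊢
      refine ⟨Finset.mem_univ _, ?_⟩
      rw [hbar]
      exact hy.2
    · intro y _
      rw [hc]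
      push_cast
      ring
  rw [h2] at h1
  have h3 : ∑ y ∈ Finset.univ.filter (fun y => E y x), (c y : ℚ) = 0 := by linarith
  have h4 : ((∑ y ∈ Finset.univ.filter (fun y => E y x), c y : ℤ) : ℚ) = 0 := by
    push_cast
    exact h3
  exact_mod_cast h4

end Pool.Agent.H21.TC
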