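import Pool.Agent.H21.TC.GDefs
import Pool.Agent.H21.TC.Rep
import Pool.Agent.H21.TC.Exo
import Pool.Graph.R_seed8.H977R3.CM.Aut

/-!
# Permutations of the complex embeddings, subfields and involutions
-/

set_option autoImplicit false
set_option linter.unusedSectionVars false

namespace Pool.Agent.H21.TC

open NumberField Module Pool.Agent.H204R3.CM Pool.Agent.H485R3 Pool.Agent.Helper33Dom

section perm

variable (K : Type*) [Field K]

/-- The permutation of the complex embeddings given by an automorphism. -/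
def permOf (τ : ℂ ≃+* ℂ) : Equiv.Perm (K →+* ℂ) where
  toFun φ := (τ : ℂ →+* ℂ).comp φ
  invFun φ := (τ.symm : ℂ →+* ℂ).comp φ
  left_inv φ := RingHom.ext fun x => τ.symm_apply_apply _
  right_inv φ := RingHom.ext fun x => τ.apply_symm_apply _

/-- The group of these permutations. -/
def PC : Subgroup (Equiv.Perm (K →+* ℂ)) where
  carrier := {σ | ∃ τ : ℂ ≃+* ℂ, σ = permOf K τ}
  mul_mem' := by
    rintro _ _ ⟨σ, rfl⟩ ⟨τ, rfl⟩
    exact ⟨τ.trans σ, rfl⟩
  one_mem' := ⟨RingEquiv.refl ℂ, by
    ext φ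
    rfl⟩
  inv_mem' := by
    rintro _ ⟨σ, rfl⟩
    exact ⟨σ.symm, rfl⟩

variable {K}

theorem permOf_apply (τ : ℂ ≃+* ℂ) (φ : K →+* ℂ) : permOf K τ φ = (τ : ℂ →+* ℂ).comp φ := rfl

theorem permOf_mem (τ : ℂ ≃+* ℂ) : permOf K τ ∈ PC K := ⟨τ, rfl⟩

theorem stable_iff (W : Submodule ℚ ((K →+* ℂ) → ℚ)) [Fintype (K →+* ℂ)] :
    IsStable W ↔ StableS (PC K) W := by
  constructor
  · rintro h _ ⟨τ, rfl⟩ f hf
    exact h τ f hf
  · intro h τ f hf
    exact h _ (permOf_mem τ) f hf

end perm

section lift

variable {F : Type*} [Field F] [NumberField F]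
  {L : Type*} [Field L] [NumberField L] [IsGalois ℚ L]

/-- The embeddings in `L` and in the complex numbers. -/
noncomputable def embE (j : L →+* ℂ) (h : ∀ ψ : F →+* ℂ, ∃ φ : F →+* L, j.comp φ = ψ) :
    (F →+* L) ≃ (F →+* ℂ) :=
  Equiv.ofBijective (fun φ => j.comp φ) ⟨fun φ φ' hh => RingHom.ext fun x =>
    j.injective (RingHom.congr_fun hh x), h⟩

theorem embE_apply (j : L →+* ℂ) (h : ∀ ψ : F →+* ℂ, ∃ φ : F →+* L, j.comp φ = ψ) (x : F →+* L) :
    embE j h x = j.comp x := rfl

theorem embE_smul (j : L →+* ℂ) (h : ∀ ψ : F →+* ℂ, ∃ φ : F →+* L, j.comp φ = ψ)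
    {τ : ℂ ≃+* ℂ} {g : L ≃ₐ[ℚ] L} (hτ : ∀ x, τ (j x) = j (g x)) (x : F →+* L) :
    permOf F τ (embE j h x) = embE j h (g • x) :=
  RingHom.ext fun a => hτ (x a)

theorem pc_trans (j : L →+* ℂ) (h : ∀ ψ : F →+* ℂ, ∃ φ : F →+* L, j.comp φ = ψ)
    (x y : F →+* ℂ) : ∃ σ ∈ PC F, σ x = y := by
  obtain ⟨x, rfl⟩ := (embE j h).surjective x
  obtain ⟨y, rfl⟩ := (embE j h).surjective y
  obtain ⟨g, rfl⟩ := MulAction.exists_smul_eq (L ≃ₐ[ℚ] L) x y
  obtain ⟨τ, hτ⟩ := Pool.Agent.H977R3.CM.exists_aut j (g : L ≃+* L)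
  exact ⟨permOf F τ, permOf_mem τ, embE_smul j h hτ x⟩

/-- Invariant equivalence relations are given by subfields. -/
theorem exists_subfield (j : L →+* ℂ) (h : ∀ ψ : F →+* ℂ, ∃ φ : F →+* L, j.comp φ = ψ)
    (R : (F →+* ℂ) → (F →+* ℂ) → Prop) (hr : ∀ x, R x x) (hs : ∀ x y, R x y → R y x)
    (ht : ∀ x y z, R x y → R y z → R x z) (hR : ∀ σ ∈ PC F, ∀ x y, R x y → R (σ x) (σ y)) :
    ∃ E : Subfield F, ∀ x y : F →+* ℂ, (∀ a ∈ E, x a = y a) ↔ R x y := by
  classical
  let E : Subfield F :=
    { carrier := {a | ∀ x y : F →+* ℂ, R x y → x a = y a}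
      mul_mem' := by
        intro a b ha hb x y h
        rw [map_mul, map_mul, ha x y h, hb x y h]
      one_mem' := by
        intro x y h
        rw [map_one, map_one]
      add_mem' := by
        intro a b ha hb x y h
        rw [map_add, map_add, ha x y h, hb x y h]
      zero_mem' := by
        intro x y h
        rw [map_zero, map_zero]
      neg_mem' := by
        intro a ha x y h
        rw [map_neg, map_neg, ha x y h]
      inv_mem' := by
        intro a ha x y h
        rw [map_inv₀, map_inv₀, ha x y h] }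
  refine ⟨E, fun x' y' => ⟨fun hxy => ?_, fun hxy a ha => ha _ _ hxy⟩⟩
  obtain ⟨x, rfl⟩ := (embE j h).surjective x'
  obtain ⟨y, rfl⟩ := (embE j h).surjective y'
  let G := L ≃ₐ[ℚ] L
  let Q : (F →+* L) → (F →+* L) → Prop := fun x y => R (embE j h x) (embE j h y)
  have hQ : ∀ (g : G) x y, Q x y → Q (g • x) (g • y) := by
    intro g x y hxy
    obtain ⟨τ, hτ⟩ := Pool.Agent.H977R3.CM.exists_aut j (g : L ≃+* L)
    have h1 := hR _ (permOf_mem τ) _ _ hxy
    rw [embE_smul j h hτ, embE_smul j h hτ] at h1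
    exact h1
  let N : Subgroup G :=
    { carrier := {g | Q (g • x) x}
      mul_mem' := by
        intro a b ha hb
        change Q ((a * b) • x) x
        rw [mul_smul]
        exact ht _ _ _ (hQ a _ _ hb) ha
      one_mem' := by
        change Q ((1 : G) • x) x
        rw [one_smul]
        exact hr _
      inv_mem' := by
        intro a ha
        change Q (a⁻¹ • x) x
        have h1 := hQ a⁻¹ _ _ ha
        rw [inv_smul_smul] at h1
        exact hs _ _ h1 }
  have hN : ∀ g : G, g ∈ N ↔ Q (g • x) x := fun g => Iff.rfl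
  obtain ⟨g, rfl⟩ := MulAction.exists_smul_eq G x y
  apply hs
  change Q (g • x) x
  rw [← hN]
  apply Pool.Agent.H925R2.mem_of_fixes_fixed_aux N g
  intro z hz
  let K0 : IntermediateField ℚ L := (RingHom.equivRatAlgHom F L x).fieldRange
  have hzK : z ∈ K0 := by
    rw [← IsGalois.fixedField_fixingSubgroup K0, IntermediateField.mem_fixedField_iff]
    intro k hk
    apply hz
    have h1 : k • x = x := by
      ext a
      exact (IntermediateField.mem_fixingSubgroup_iff _ _).1 hk (x a) ⟨a, rfl⟩
    rw [hN, h1]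
    exact hr _
  obtain ⟨a, ha⟩ := hzK
  have ha' : x a = z := ha
  have haE : a ∈ E := by
    intro x' y' hxy
    obtain ⟨x', rfl⟩ := (embE j h).surjective x'
    obtain ⟨y', rfl⟩ := (embE j h).surjective y'
    obtain ⟨k, rfl⟩ := MulAction.exists_smul_eq G x x'
    obtain ⟨l, rfl⟩ := MulAction.exists_smul_eq G x y'
    have h1 : k⁻¹ * l ∈ N := by
      rw [hN, mul_smul]
      have h2 := hQ k⁻¹ _ _ hxy
      rw [inv_smul_smul] at h2
      exact hs _ _ h2
    have h2 := hz _ h1
    have h3 : (k • x) a = k z := by rw [← ha']; rfl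
    have h4 : (l • x) a = l z := by rw [← ha']; rfl
    change j ((k • x) a) = j ((l • x) a)
    rw [h3, h4]
    have h5 : l z = k ((k⁻¹ * l) z) := by
      rw [AlgEquiv.mul_apply]
      change l z = (k * k⁻¹) (l z)
      rw [mul_inv_cancel, AlgEquiv.one_apply]
    rw [h5, h2]
  have h1 := hxy a haE
  change j (x a) = j ((g • x) a) at h1
  have h2 : (g • x) a = g z := by rw [← ha']; rfl
  rw [h2, ha'] at h1
  exact (j.injective h1).symm

end lift

section involution

variable {K : Type*} [Field K]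

/-- Embeddings that agree on the fixed field of an involution. -/
theorem eq_or_of_agree (σ : K ≃+* K) (hσ : ∀ x, σ (σ x) = x) (φ ψ : K →+* ℂ)
    (h : ∀ a, σ a = a → φ a = ψ a) : ψ = φ ∨ ψ = φ.comp (σ : K →+* K) := by
  have h1 : ∀ a, ψ a = φ a ∨ ψ a = φ (σ a) := by
    intro a
    have e1 := h (a + σ a) (by rw [map_add, hσ, add_comm])
    have e2 := h (a * σ a) (by rw [map_mul, hσ, mul_comm])
    rw [map_add, map_add] at e1
    rw [map_mul, map_mul] at e2
    have e3 : (ψ a - φ a) * (ψ a - φ (σ a)) = 0 := by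
      linear_combination (-ψ a) * e1 + e2
    rcases mul_eq_zero.1 e3 with e | e
    · exact Or.inl (sub_eq_zero.1 e)
    · exact Or.inr (sub_eq_zero.1 e)
  by_cases ha : ∀ a, ψ a = φ a
  · exact Or.inl (RingHom.ext ha)
  · right
    push Not at ha
    obtain ⟨a, ha⟩ := ha
    refine RingHom.ext fun b => ?_
    change ψ b = φ (σ b)
    by_contra hb
    have ha' := (h1 a).resolve_left ha
    have hb' := (h1 b).resolve_right hb
    rcases h1 (a + b) with h2 | h2
    · rw [map_add, map_add, hb'] at h2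
      exact ha (add_right_cancel h2)
    · rw [map_add, map_add, map_add, ha'] at h2
      exact hb (add_left_cancel h2)

/-- The fixed field of an automorphism. -/
def fixedSubfield (σ : K ≃+* K) : Subfield K where
  carrier := {a | σ a = a}
  mul_mem' := fun {a b} ha hb => by
    change σ (a * b) = a * b
    rw [map_mul, ha, hb]
  one_mem' := map_one σ
  add_mem' := fun {a b} ha hb => by
    change σ (a + b) = a + b
    rw [map_add, ha, hb]
  zero_mem' := map_zero σ
  neg_mem' := fun {a} ha => by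
    change σ (-a) = -a
    rw [map_neg, ha]
  inv_mem' := fun a ha => by
    change σ a⁻¹ = a⁻¹
    rw [map_inv₀, ha]

theorem oddInvariants_eq (σ : K ≃+* K) (hσ : ∀ x, σ (σ x) = x) :
    oddInvariants σ = oddOfSubfield (fixedSubfield σ) := by
  ext f
  constructor
  · rintro ⟨h1, h2⟩
    refine ⟨h1, fun φ ψ h => ?_⟩
    rcases eq_or_of_agree σ hσ φ ψ h with rfl | rfl
    · rfl
    · exact (h2 φ).symm
  · rintro ⟨h1, h2⟩
    refine ⟨h1, fun φ => h2 _ _ fun a ha => ?_⟩
    change φ (σ a) = φ a
    rw [(ha : σ a = a)]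

variable [NumberField K]

/-- If exactly two embeddings agree with `x` on the subfield `E`, then `E` is the fixed field of an
involution. -/
theorem exists_involution (E : Subfield K) (x y : K →+* ℂ) (hxy : x ≠ y)
    (h : ∀ z : K →+* ℂ, (∀ a ∈ E, z a = x a) ↔ z = x ∨ z = y) :
    ∃ σ : K ≃+* K, (∀ z, σ (σ z) = z) ∧ (∀ a, a ∈ E ↔ σ a = a) ∧ x.comp (σ : K →+* K) = y := by
  classical
  let _ : Algebra E ℂ := (x.comp E.subtype).toAlgebra
  have hfd : FiniteDimensional E K := Module.Finite.right ℚ E K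
  have hcard : finrank E K = 2 := by
    rw [← AlgHom.card E K ℂ]
    have h1 : Fintype.card (K →ₐ[E] ℂ) = Fintype.card ({x, y} : Finset (K →+* ℂ)) := by
      refine Fintype.card_congr (Equiv.ofBijective (fun f => ⟨(f : K →+* ℂ), ?_⟩) ?_)
      · rw [Finset.mem_insert, Finset.mem_singleton, ← h]
        intro a ha
        exact f.commutes ⟨a, ha⟩
      · constructor
        · intro f g hfg
          ext a
          exact RingHom.congr_fun (congrArg Subtype.val hfg) a
        · rintro ⟨z, hz⟩
          rw [Finset.mem_insert, Finset.mem_singleton, ← h] at hz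
          refine ⟨{ z with commutes' := fun a => hz a a.2 }, ?_⟩
          rfl
    rw [h1, Fintype.card_coe, Finset.card_pair hxy]
  have hq : Algebra.IsQuadraticExtension E K := { finrank_eq_two' := hcard }
  have hG : IsGalois E K := inferInstance
  have hc2 : Nat.card (K ≃ₐ[E] K) = 2 := by rw [IsGalois.card_aut_eq_finrank, hcard]
  obtain ⟨s, hs⟩ : ∃ s : K ≃ₐ[E] K, s ≠ 1 := by
    by_contra hno
    push Not at hno
    have h1 : Nat.card (K ≃ₐ[E] K) ≤ 1 := by
      have : Subsingleton (K ≃ₐ[E] K) := ⟨fun a b => by rw [hno a, hno b]⟩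
      exact Finite.card_le_one_iff_subsingleton.2 this
    omega
  have hss : s * s = 1 := by
    have := pow_card_eq_one' (G := K ≃ₐ[E] K) (x := s)
    rw [hc2, pow_two] at this
    exact this
  refine ⟨(s : K ≃+* K), ?_, ?_, ?_⟩
  · intro z
    exact congrArg (fun t : K ≃ₐ[E] K => t z) hss
  · intro a
    constructor
    · intro ha
      exact s.commutes ⟨a, ha⟩
    · intro ha
      have h1 : a ∈ (⊥ : IntermediateField E K) := by
        rw [← IsGalois.fixedField_top, IntermediateField.mem_fixedField_iff]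
        intro t _
        by_cases ht : t = 1
        · rw [ht]
          rfl
        · -- the group has two elements
          have h2 : t = s := by
            by_contra hts
            have h3 : ({1, s, t} : Finset (K ≃ₐ[E] K)).card = 3 := by
              rw [Finset.card_eq_three]
              exact ⟨1, s, t, Ne.symm hs, Ne.symm ht, Ne.symm hts, rfl⟩
            have h4 := Finset.card_le_univ ({1, s, t} : Finset (K ≃ₐ[E] K))
            rw [← Nat.card_eq_fintype_card, hc2] at h4
            omega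
          rw [h2]
          exact ha
      obtain ⟨b, hb⟩ := IntermediateField.mem_bot.1 h1
      rw [← hb]
      exact b.2
  · have h1 := (h (x.comp (s : K →+* K))).1 (by
      intro a ha
      change x (s a) = x a
      congr 1
      exact s.commutes ⟨a, ha⟩)
    rcases h1 with h1 | h1
    · exfalso
      apply hs
      ext a
      exact x.injective (RingHom.congr_fun h1 a)
    · exact h1

end involution

end Pool.Agent.H21.TC
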