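import Pool.Agent.H21.TC.GTrans

/-!
# Completely split primes and the normal closure
-/

set_option autoImplicit false
set_option linter.unusedSectionVars false

namespace Pool.Agent.H21.TC

open NumberField Module

/-- The normal closure of a number field in which `p` splits completely. -/
theorem exists_galois_split (F : Type*) [Field F] [NumberField F] (p : ℕ) [Fact p.Prime]
    (hs : Nat.card (F →+* ℚ_[p]) = finrank ℚ F) :
    ∃ (L : IntermediateField ℚ (AlgebraicClosure ℚ)) (_ : NumberField L) (_ : IsGalois ℚ L)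
      (j : L →+* ℂ), (∀ ψ : F →+* ℂ, ∃ φ : F →+* L, j.comp φ = ψ) ∧
        Nonempty (L →+* ℚ_[p]) := by
  classical
  have _ : Algebra.IsAlgebraic ℚ (AlgebraicClosure ℚ) := AlgebraicClosure.isAlgebraic ℚ
  have _ : IsAlgClosure ℚ (AlgebraicClosure ℚ) := ⟨inferInstance, inferInstance⟩
  have _ : Normal ℚ (AlgebraicClosure ℚ) := IsAlgClosure.normal ℚ (AlgebraicClosure ℚ)
  let j0 : (AlgebraicClosure ℚ) →ₐ[ℚ] ℂ := IsAlgClosed.lift
  let e0 : (AlgebraicClosure ℚ) →ₐ[ℚ] PadicAlgCl p := IsAlgClosed.lift
  let L : IntermediateField ℚ (AlgebraicClosure ℚ) :=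
    IntermediateField.normalClosure ℚ F (AlgebraicClosure ℚ)
  have _ : FiniteDimensional ℚ L := normalClosure.is_finiteDimensional ℚ F (AlgebraicClosure ℚ)
  have _ : Normal ℚ L := normalClosure.normal ℚ F (AlgebraicClosure ℚ)
  have hNF : NumberField L := NumberField.mk
  refine ⟨L, hNF, ⟨⟩, (j0 : (AlgebraicClosure ℚ) →+* ℂ).comp (algebraMap L (AlgebraicClosure ℚ)),
    fun ψ => ?_, ?_⟩
  · have hinj : Function.Injective
        (fun φ : F →+* (AlgebraicClosure ℚ) => (j0 : (AlgebraicClosure ℚ) →+* ℂ).comp φ) := by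
      intro φ φ' h
      ext x
      exact j0.injective (RingHom.congr_fun h x)
    have hbij : Function.Bijective
        (fun φ : F →+* (AlgebraicClosure ℚ) => (j0 : (AlgebraicClosure ℚ) →+* ℂ).comp φ) := by
      rw [Fintype.bijective_iff_injective_and_card]
      exact ⟨hinj, by rw [Embeddings.card, Embeddings.card]⟩
    obtain ⟨φ, hφ⟩ := hbij.2 ψ
    let φ' : F →ₐ[ℚ] (AlgebraicClosure ℚ) := RingHom.equivRatAlgHom F (AlgebraicClosure ℚ) φ
    have hle : φ'.fieldRange ≤ L := AlgHom.fieldRange_le_normalClosure φ'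
    let φL : F →+* L :=
      { toFun := fun x => ⟨φ x, hle ⟨x, rfl⟩⟩
        map_one' := Subtype.ext (map_one φ)
        map_mul' := fun a b => Subtype.ext (map_mul φ a b)
        map_zero' := Subtype.ext (map_zero φ)
        map_add' := fun a b => Subtype.ext (map_add φ a b) }
    refine ⟨φL, ?_⟩
    rw [← hφ]
    rfl
  · have hinj : Function.Injective
        (fun φ : F →+* ℚ_[p] => (algebraMap ℚ_[p] (PadicAlgCl p)).comp φ) := by
      intro φ φ' h
      ext x
      exact (algebraMap ℚ_[p] (PadicAlgCl p)).injective (RingHom.congr_fun h x)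
    have hfin : Finite (F →+* ℚ_[p]) := Finite.of_injective _ hinj
    have hbij : Function.Bijective
        (fun φ : F →+* ℚ_[p] => (algebraMap ℚ_[p] (PadicAlgCl p)).comp φ) := by
      rw [Nat.bijective_iff_injective_and_card]
      refine ⟨hinj, ?_⟩
      rw [hs, Nat.card_eq_fintype_card, Embeddings.card]
    have hle : ∀ x ∈ L, ∃ y : ℚ_[p], algebraMap ℚ_[p] (PadicAlgCl p) y = e0 x := by
      let B : IntermediateField ℚ (AlgebraicClosure ℚ) :=
        ((IsScalarTower.toAlgHom ℚ ℚ_[p] (PadicAlgCl p)).fieldRange).comap e0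
      have hLB : L ≤ B := by
        refine iSup_le fun f => ?_
        rintro _ ⟨x, rfl⟩
        obtain ⟨g, hg⟩ := hbij.2 ((e0 : AlgebraicClosure ℚ →+* PadicAlgCl p).comp
          (f : F →+* AlgebraicClosure ℚ))
        change e0 (f x) ∈ (IsScalarTower.toAlgHom ℚ ℚ_[p] (PadicAlgCl p)).fieldRange
        exact ⟨g x, RingHom.congr_fun hg x⟩
      intro x hx
      exact hLB hx
    choose y hy using fun x : L => hle x x.2
    have hi := (algebraMap ℚ_[p] (PadicAlgCl p)).injective
    refine ⟨{ toFun := y
              map_one' := hi ?_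
              map_mul' := fun a b => hi ?_
              map_zero' := hi ?_
              map_add' := fun a b => hi ?_ }⟩
    · rw [hy, map_one]
      exact map_one e0
    · rw [map_mul, hy, hy, hy]
      exact map_mul e0 _ _
    · rw [hy, map_zero]
      exact map_zero e0
    · rw [map_add, hy, hy, hy]
      exact map_add e0 _ _

end Pool.Agent.H21.TC
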