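import Pool.Agent.H21.TC.Conv

/-!
# Identification of the groups
-/

set_option autoImplicit false

universe u

namespace Pool.Agent.H21.TC

open Subgroup

/-- `G` is a cyclic group of order `2 ^ n`, or a generalised quaternion group of order `4 * 2 ^ n`,
or the product of such a group with a group of order two such that `c` is in the first factor;
`n ≥ 1`. -/
def IsKind {G : Type*} [Group G] (c : G) : Prop :=
  ∃ n : ℕ, 1 ≤ n ∧
    (Nonempty (G ≃* Multiplicative (ZMod (2 ^ n))) ∨
      Nonempty (G ≃* QuaternionGroup (2 ^ n)) ∨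
      (∃ e : G ≃* Multiplicative (ZMod (2 ^ n)) × Multiplicative (ZMod 2), (e c).2 = 1) ∨
      ∃ e : G ≃* QuaternionGroup (2 ^ n) × Multiplicative (ZMod 2), (e c).2 = 1)

/-- Cyclic of order `2 ^ n` or generalised quaternion, `n ≥ 1`. -/
def CycQuat (G : Type*) [Group G] : Prop :=
  ∃ n : ℕ, 1 ≤ n ∧ (Nonempty (G ≃* Multiplicative (ZMod (2 ^ n))) ∨
      Nonempty (G ≃* QuaternionGroup (2 ^ n)))

theorem sole_of_unique {G : Type*} [Group G] [Finite G] {c : G} (hc1 : c ≠ 1) (hc2 : c * c = 1)
    {m : ℕ} (hcard : Nat.card G = 2 ^ m) (huniq : ∀ g : G, g * g = 1 → g = 1 ∨ g = c) : Sole c := by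
  refine ⟨orderOf_eq_prime (by rw [pow_two, hc2]) hc1, fun g hg => ?_⟩
  have h1 : orderOf g ∣ 2 ^ m := by rw [← hcard]; exact orderOf_dvd_natCard g
  obtain ⟨k, -, hk⟩ := (Nat.dvd_prime_pow Nat.prime_two).1 h1
  have hk0 : k ≠ 0 := by
    rintro rfl
    rw [pow_zero, orderOf_eq_one_iff] at hk
    exact hg hk
  obtain ⟨i, rfl⟩ := Nat.exists_eq_succ_of_ne_zero hk0
  have h2 : g ^ 2 ^ i * g ^ 2 ^ i = 1 := by
    rw [← pow_add, ← two_mul, ← pow_succ', ← hk, pow_orderOf_eq_one]
  rcases huniq _ h2 with h3 | h3
  · exfalso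
    have := orderOf_dvd_of_pow_eq_one h3
    rw [hk] at this
    have := Nat.le_of_dvd (by positivity) this
    have : 2 ^ i < 2 ^ (i + 1) := Nat.pow_lt_pow_right (by norm_num) (by omega)
    omega
  · rw [← h3]
    exact pow_mem (mem_zpowers g) _

/-- In a group of this kind there is only one involution. -/
theorem CycQuat.uniq {G : Type*} [Group G] (h : CycQuat G) :
    (∃ m, Nat.card G = 2 ^ m) ∧ ∀ c g : G, c ≠ 1 → c * c = 1 → g * g = 1 → g = 1 ∨ g = c := by
  obtain ⟨n, hn, ⟨⟨e⟩⟩ | ⟨⟨e⟩⟩⟩ := h
  · have hne : NeZero (2 ^ n) := ⟨by positivity⟩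
    have hfin : Finite G := Finite.of_equiv _ e.symm.toEquiv
    have hcyc : IsCyclic G := isCyclic_of_surjective e.symm.toMonoidHom e.symm.surjective
    refine ⟨⟨n, ?_⟩, ?_⟩
    · rw [Nat.card_congr e.toEquiv]
      simp
    · classical
      have _ : Fintype G := Fintype.ofFinite G
      intro c g hc hcc hgg
      by_contra hcon
      push Not at hcon
      have h1 := IsCyclic.card_pow_eq_one_le (α := G) (n := 2) (by norm_num)
      have h2 : ({1, c, g} : Finset G) ⊆ Finset.univ.filter (fun a : G => a ^ 2 = 1) := by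
        intro a ha
        simp only [Finset.mem_insert, Finset.mem_singleton] at ha
        rw [Finset.mem_filter]
        refine ⟨Finset.mem_univ _, ?_⟩
        rcases ha with rfl | rfl | rfl
        · exact one_pow 2
        · rw [pow_two, hcc]
        · rw [pow_two, hgg]
      have h3 := Finset.card_le_card h2
      have h4 : ({1, c, g} : Finset G).card = 3 := by
        rw [Finset.card_eq_three]
        exact ⟨1, c, g, hc.symm, hcon.1.symm, hcon.2.symm, rfl⟩
      omega
  · have hne : NeZero (2 ^ n) := ⟨by positivity⟩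
    refine ⟨⟨n + 2, ?_⟩, ?_⟩
    · rw [Nat.card_congr e.toEquiv, Nat.card_eq_fintype_card, QuaternionGroup.card]
      ring
    · have key : ∀ q : QuaternionGroup (2 ^ n), q * q = 1 → q = 1 ∨
          q = QuaternionGroup.a ((2 ^ n : ℕ) : ZMod (2 * 2 ^ n)) := by
        intro q hq
        have hN : (((2 ^ n : ℕ) : ZMod (2 * 2 ^ n))) ≠ 0 := by
          intro h0
          rw [ZMod.natCast_eq_zero_iff] at h0
          have := Nat.le_of_dvd (by positivity) h0
          have : 0 < 2 ^ n := by positivity
          omega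
        rcases q with i | i
        · rw [QuaternionGroup.a_mul_a, QuaternionGroup.one_def, QuaternionGroup.a.injEq] at hq
          have hne2 : NeZero (2 * 2 ^ n) := ⟨by positivity⟩
          have h1 : ((i.val + i.val : ℕ) : ZMod (2 * 2 ^ n)) = 0 := by
            rw [Nat.cast_add, ZMod.natCast_zmod_val]
            exact hq
          rw [← two_mul] at h1
          rw [ZMod.natCast_eq_zero_iff] at h1
          obtain ⟨t, ht⟩ := h1
          have h2 : i.val = 2 ^ n * t := by
            have : 2 * i.val = 2 * (2 ^ n * t) := by rw [ht]; ring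
            omega
          have h3 := i.val_lt
          have h4 : t < 2 := by
            by_contra h5
            have : 2 ^ n * 2 ≤ 2 ^ n * t := Nat.mul_le_mul_left _ (by omega)
            omega
          interval_cases t
          · left
            have : i = 0 := by
              rw [← ZMod.val_eq_zero, h2, mul_zero]
            rw [this, QuaternionGroup.a_zero]
          · right
            rw [← ZMod.natCast_zmod_val i, h2, mul_one]
        · exfalso
          rw [QuaternionGroup.xa_mul_xa, QuaternionGroup.one_def, QuaternionGroup.a.injEq,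
            add_sub_cancel_right] at hq
          exact hN hq
      intro c g hc hcc hgg
      have h1 := key (e c) (by rw [← map_mul, hcc, map_one])
      have h2 := key (e g) (by rw [← map_mul, hgg, map_one])
      rw [MulEquiv.map_eq_one_iff] at h1 h2
      rcases h2 with h2 | h2
      · exact Or.inl h2
      · right
        apply e.injective
        rw [h2, h1.resolve_left hc]

theorem CycQuat.sole {G : Type*} [Group G] [Finite G] (h : CycQuat G) {c : G} (hc1 : c ≠ 1)
    (hc2 : c * c = 1) : Sole c := by
  obtain ⟨⟨m, hm⟩, h2⟩ := h.uniq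
  exact sole_of_unique hc1 hc2 hm fun g hg => h2 c g hc1 hc2 hg

theorem cycQuat_of_cyclic {G : Type*} [Group G] [Finite G] {c : G} (h : Sole c) (hG : IsCyclic G) :
    CycQuat G := by
  obtain ⟨k, hk⟩ := h.exists_card
  have hk0 : k ≠ 0 := by
    rintro rfl
    rw [pow_zero] at hk
    have := Nat.card_eq_one_iff_unique.1 hk
    have := this.1
    exact h.ne_one (Subsingleton.elim _ _)
  refine ⟨k, Nat.one_le_iff_ne_zero.2 hk0, Or.inl ?_⟩
  rw [← hk]
  exact ⟨(zmodCyclicMulEquiv hG).symm⟩

/-- The structure theorem. -/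
theorem Sole.cycQuat {G : Type u} [Group G] [Finite G] {c : G} (h : Sole c) : CycQuat G := by
  obtain ⟨x, hx1, hx | ⟨y, hy1, hy2, hy3, hy4⟩⟩ := h.struct
  · exact cycQuat_of_cyclic h ⟨x, hx⟩
  · have hcx : c ∈ zpowers x := h.mem x hx1
    obtain ⟨k, hk⟩ : ∃ k : ℕ, orderOf x = 2 ^ (k + 1) := by
      obtain ⟨k, hk⟩ := h.exists_order x
      rcases Nat.eq_zero_or_pos k with h0 | h0
      · rw [h0, pow_zero, orderOf_eq_one_iff] at hk
        exact absurd hk hx1
      · exact ⟨k - 1, by rw [hk]; congr 1; omega⟩
    have hxc : x ^ 2 ^ k = c := by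
      have h1 : x ^ 2 ^ k * x ^ 2 ^ k = 1 := by
        rw [← pow_add, ← two_mul, ← pow_succ', ← hk, pow_orderOf_eq_one]
      rcases h.eq_of_sq h1 with h2 | h2
      · exfalso
        have := orderOf_dvd_of_pow_eq_one h2
        rw [hk] at this
        have := Nat.le_of_dvd (by positivity) this
        have : 2 ^ k < 2 ^ (k + 1) := Nat.pow_lt_pow_right (by norm_num) (by omega)
        omega
      · exact h2
    rcases Nat.eq_zero_or_pos k with h0 | h0
    · subst h0
      rw [pow_zero, pow_one] at hxc
      subst hxc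
      refine cycQuat_of_cyclic h ⟨y, fun g => ?_⟩
      have hxy : zpowers x ≤ zpowers y := by
        rw [zpowers_le, ← hy3]
        exact mul_mem (mem_zpowers y) (mem_zpowers y)
      rcases hy4 g with h1 | h1
      · exact hxy h1
      · have := mul_mem (hxy h1) (inv_mem (mem_zpowers y))
        rwa [mul_inv_cancel_right] at this
    · refine ⟨k, h0, Or.inr ?_⟩
      let N := 2 ^ k
      have hxN : x ^ (2 * N) = 1 := by
        have : 2 * N = orderOf x := by rw [hk, pow_succ']
        rw [this, pow_orderOf_eq_one]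
      let P : ZMod (2 * N) →+ Additive G := ZMod.lift (2 * N)
        ⟨zmultiplesHom (Additive G) (Additive.ofMul x), by
          rw [zmultiplesHom_apply, natCast_zsmul, ← ofMul_pow, hxN]
          rfl⟩
      let pw : ZMod (2 * N) → G := fun i => (P i).toMul
      have pw_add : ∀ i j, pw (i + j) = pw i * pw j := by
        intro i j
        simp only [pw, map_add]
        rfl
      have pw_neg : ∀ i, pw (-i) = (pw i)⁻¹ := by
        intro i
        simp only [pw, map_neg]
        rfl
      have pw_int : ∀ i : ℤ, pw (i : ZMod (2 * N)) = x ^ i := by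
        intro i
        simp only [pw, P]
        rw [ZMod.lift_coe]
        simp
      have hyi : ∀ i : ZMod (2 * N), pw i * y = y * pw (-i) := by
        intro i
        obtain ⟨i, rfl⟩ := ZMod.intCast_surjective i
        rw [pw_neg, pw_int]
        have h1 : y⁻¹ * x * y = x⁻¹ := by
          have h2 : y⁻¹ * x⁻¹ * y = x := by rw [← hy2]; group
          have h3 : y⁻¹ * x * y = (y⁻¹ * x⁻¹ * y)⁻¹ := by group
          rw [h3, h2]
        have h2 : y⁻¹ * x ^ i * y = (x ^ i)⁻¹ := by
          have h3 := conj_zpow (i := i) (a := y⁻¹) (b := x)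
          rw [inv_inv, h1] at h3
          rw [← h3, inv_zpow]
        rw [← h2]
        group
      let f : QuaternionGroup N → G := fun q => match q with
        | QuaternionGroup.a i => pw i
        | QuaternionGroup.xa i => y * pw i
      have hfa : ∀ i, f (QuaternionGroup.a i) = pw i := fun i => rfl
      have hfx : ∀ i, f (QuaternionGroup.xa i) = y * pw i := fun i => rfl
      have hcN : pw ((N : ℕ) : ZMod (2 * N)) = c := by
        have := pw_int (N : ℤ)
        rw [Int.cast_natCast, zpow_natCast] at this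
        rw [this]
        exact hxc
      let φ : QuaternionGroup N →* G := MonoidHom.mk' f (by
        rintro (i | i) (j | j)
        · rw [QuaternionGroup.a_mul_a, hfa, hfa, hfa, pw_add]
        · rw [QuaternionGroup.a_mul_xa, hfa, hfx, hfx, ← mul_assoc, hyi, mul_assoc, ← pw_add]
          congr 2
          ring
        · rw [QuaternionGroup.xa_mul_a, hfa, hfx, hfx, pw_add, mul_assoc]
        · rw [QuaternionGroup.xa_mul_xa, hfa, hfx, hfx]
          have h1 : y * pw i * (y * pw j) = (y * y) * (pw (-i) * pw j) := by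
            calc y * pw i * (y * pw j) = y * (pw i * y) * pw j := by group
              _ = y * (y * pw (-i)) * pw j := by rw [hyi]
              _ = _ := by group
          rw [h1, hy3, ← hcN, ← pw_add, ← pw_add]
          congr 1
          ring)
      have hmem : ∀ i, pw i ∈ zpowers x := by
        intro i
        obtain ⟨i, rfl⟩ := ZMod.intCast_surjective i
        rw [pw_int]
        exact zpow_mem (mem_zpowers x) _
      have hbij : Function.Bijective φ := by
        constructor
        · rw [injective_iff_map_eq_one]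
          rintro (i | i) hi
          · have hi' : pw i = 1 := hi
            obtain ⟨i, rfl⟩ := ZMod.intCast_surjective i
            rw [pw_int, ← orderOf_dvd_iff_zpow_eq_one, hk] at hi'
            have h2 : ((i : ℤ) : ZMod (2 * N)) = 0 := by
              rw [ZMod.intCast_zmod_eq_zero_iff_dvd]
              have : (2 * N : ℕ) = 2 ^ (k + 1) := by rw [pow_succ']
              rw [this]
              exact hi'
            rw [h2, QuaternionGroup.a_zero]
          · exfalso
            apply hy1
            have hi' : y * pw i = 1 := hi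
            rw [eq_inv_of_mul_eq_one_left hi']
            exact inv_mem (hmem i)
        · intro g
          rcases hy4 g with h1 | h1
          · obtain ⟨i, rfl⟩ := mem_zpowers_iff.1 h1
            exact ⟨QuaternionGroup.a (i : ZMod (2 * N)), pw_int i⟩
          · obtain ⟨i, hi⟩ := mem_zpowers_iff.1 h1
            refine ⟨QuaternionGroup.xa (((N : ℕ) : ZMod (2 * N)) - (i : ZMod (2 * N))), ?_⟩
            change y * pw _ = g
            have h2 : g = x ^ i * y⁻¹ := by rw [hi]; group
            have h3 : y⁻¹ = y * c := by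
              rw [inv_eq_iff_mul_eq_one, ← mul_assoc, hy3, h.sq]
            rw [sub_eq_add_neg, pw_add, hcN, h2, h3, ← pw_int, ← mul_assoc (pw _) y c, hyi, mul_assoc,
              h.comm (pw (-(i : ZMod (2 * N))))]
      exact ⟨(MulEquiv.ofBijective φ hbij).symm⟩

/-- The internal direct product. -/
theorem exists_prod_equiv {G : Type*} [Group G] {Q : Subgroup G} {z : G} (hz : z ∉ Q)
    (hzz : z * z = 1) (hzc : ∀ g, g * z = z * g) (hQ : ∀ g, g ∈ Q ∨ g * z ∈ Q) :
    ∃ ψ : Q × Multiplicative (ZMod 2) ≃* G, ∀ q : Q, ψ (q, 1) = q := by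
  classical
  let t : ZMod 2 → G := fun i => if i = 0 then 1 else z
  have ht0 : t 0 = 1 := if_pos rfl
  have ht1 : t 1 = z := if_neg (by decide)
  have h01 : ∀ i : ZMod 2, i = 0 ∨ i = 1 := by decide
  have ht : ∀ i j, t (i + j) = t i * t j := by
    intro i j
    rcases h01 i with rfl | rfl <;> rcases h01 j with rfl | rfl
    · rw [add_zero, ht0, one_mul]
    · rw [zero_add, ht0, one_mul]
    · rw [add_zero, ht0, mul_one]
    · have : (1 + 1 : ZMod 2) = 0 := by decide
      rw [this, ht0, ht1, hzz]
  have htc : ∀ g i, g * t i = t i * g := by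
    intro g i
    rcases h01 i with rfl | rfl
    · rw [ht0, one_mul, mul_one]
    · rw [ht1, hzc]
  let φ : Q × Multiplicative (ZMod 2) →* G := MonoidHom.mk' (fun a => a.1 * t a.2.toAdd) (by
    rintro ⟨a, i⟩ ⟨b, j⟩
    change ((a * b : Q) : G) * t ((i * j).toAdd) = a * t i.toAdd * (b * t j.toAdd)
    rw [toAdd_mul, ht, Subgroup.coe_mul]
    calc (a : G) * b * (t i.toAdd * t j.toAdd) = a * (b * t i.toAdd) * t j.toAdd := by group
      _ = a * (t i.toAdd * b) * t j.toAdd := by rw [htc (b : G) i.toAdd]
      _ = _ := by group)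
  have hbij : Function.Bijective φ := by
    constructor
    · rw [injective_iff_map_eq_one]
      rintro ⟨a, i⟩ h
      have h' : (a : G) * t i.toAdd = 1 := h
      rcases h01 i.toAdd with h1 | h1
      · rw [h1, ht0, mul_one] at h'
        have h2 : a = 1 := Subtype.ext h'
        have h3 : i = 1 := h1
        rw [h2, h3]
        rfl
      · exfalso
        rw [h1, ht1] at h'
        apply hz
        have : z = (a : G)⁻¹ := (inv_eq_of_mul_eq_one_right h').symm
        rw [this]
        exact inv_mem a.2
    · intro g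
      rcases hQ g with hg | hg
      · refine ⟨(⟨g, hg⟩, 1), ?_⟩
        change g * t 0 = g
        rw [ht0, mul_one]
      · refine ⟨(⟨g * z, hg⟩, Multiplicative.ofAdd 1), ?_⟩
        change g * z * t 1 = g
        rw [ht1, mul_assoc, hzz, mul_one]
  refine ⟨MulEquiv.ofBijective φ hbij, fun q => ?_⟩
  change (q : G) * t 0 = q
  rw [ht0, mul_one]

theorem isKind_iff {G : Type u} [Group G] [Finite G] {c : G} (hc2 : c * c = 1) (hc1 : c ≠ 1) :
    IsKind c ↔ (Sole c ∨ SplitBy c) := by
  constructor
  · rintro ⟨n, hn, h | h | ⟨e, he⟩ | ⟨e, he⟩⟩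
    · exact Or.inl (CycQuat.sole ⟨n, hn, Or.inl h⟩ hc1 hc2)
    · exact Or.inl (CycQuat.sole ⟨n, hn, Or.inr h⟩ hc1 hc2)
    · right
      have hA : CycQuat (Multiplicative (ZMod (2 ^ n))) := ⟨n, hn, Or.inl ⟨MulEquiv.refl _⟩⟩
      exact splitBy_aux hc2 hc1 hA e he
    · right
      have hA : CycQuat (QuaternionGroup (2 ^ n)) := ⟨n, hn, Or.inr ⟨MulEquiv.refl _⟩⟩
      exact splitBy_aux hc2 hc1 hA e he
  · rintro (h | ⟨Q, hcQ, z, hz, hzz, hzc, hQ, hs⟩)
    · obtain ⟨n, hn, h | h⟩ := h.cycQuat
      · exact ⟨n, hn, Or.inl h⟩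
      · exact ⟨n, hn, Or.inr (Or.inl h)⟩
    · obtain ⟨ψ, hψ⟩ := exists_prod_equiv hz hzz hzc hQ
      have hψc : ψ.symm c = (⟨c, hcQ⟩, 1) := by
        rw [MulEquiv.symm_apply_eq, hψ]
      obtain ⟨n, hn, ⟨⟨f⟩⟩ | ⟨⟨f⟩⟩⟩ := hs.cycQuat
      · refine ⟨n, hn, Or.inr (Or.inr (Or.inl ⟨ψ.symm.trans (MulEquiv.prodCongr f (MulEquiv.refl _)), ?_⟩))⟩
        change (MulEquiv.prodCongr f (MulEquiv.refl _) (ψ.symm c)).2 = 1
        rw [hψc]
        rfl
      · refine ⟨n, hn, Or.inr (Or.inr (Or.inr ⟨ψ.symm.trans (MulEquiv.prodCongr f (MulEquiv.refl _)), ?_⟩))⟩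
        change (MulEquiv.prodCongr f (MulEquiv.refl _) (ψ.symm c)).2 = 1
        rw [hψc]
        rfl
where
  splitBy_aux {G : Type u} [Group G] [Finite G] {c : G} (hc2 : c * c = 1) (hc1 : c ≠ 1)
      {A : Type} [Group A] (hA : CycQuat A) (e : G ≃* A × Multiplicative (ZMod 2))
      (he : (e c).2 = 1) : SplitBy c := by
    obtain ⟨⟨m, hm⟩, huniq⟩ := hA.uniq
    let Q : Subgroup G := (MonoidHom.ker ((MonoidHom.snd A (Multiplicative (ZMod 2))).comp
      e.toMonoidHom))
    have hQmem : ∀ g, g ∈ Q ↔ (e g).2 = 1 := fun g => Iff.rfl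
    let ζ : Multiplicative (ZMod 2) := Multiplicative.ofAdd 1
    have hζ1 : ζ ≠ 1 := by decide
    have hζ2 : ζ * ζ = 1 := by decide
    let z : G := e.symm (1, ζ)
    have hez : e z = (1, ζ) := e.apply_symm_apply _
    have h01 : ∀ i : Multiplicative (ZMod 2), i = 1 ∨ i = ζ := by decide
    refine ⟨Q, he, z, ?_, ?_, ?_, ?_, ?_⟩
    · rw [hQmem, hez]
      exact hζ1
    · apply e.injective
      rw [map_mul, hez, map_one, Prod.mk_mul_mk, hζ2, one_mul]
      rfl
    · intro g
      apply e.injective
      rw [map_mul, map_mul, hez]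
      ext1
      · change (e g).1 * 1 = 1 * (e g).1
        rw [mul_one, one_mul]
      · exact mul_comm _ _
    · intro g
      rw [hQmem, hQmem, map_mul, hez]
      rcases h01 (e g).2 with h1 | h1
      · exact Or.inl h1
      · right
        change (e g).2 * ζ = 1
        rw [h1, hζ2]
    · have hQcard : ∃ m', Nat.card Q = 2 ^ m' := by
        have h1 : Nat.card G = 2 ^ (m + 1) := by
          rw [Nat.card_congr e.toEquiv, Nat.card_prod, hm, pow_succ]
          congr 1
          simp
        have h2 : Nat.card Q ∣ 2 ^ (m + 1) := by rw [← h1]; exact Subgroup.card_subgroup_dvd_card Q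
        obtain ⟨m', -, hm'⟩ := (Nat.dvd_prime_pow Nat.prime_two).1 h2
        exact ⟨m', hm'⟩
      obtain ⟨m', hm'⟩ := hQcard
      have hone : ∀ q : G, (e q).2 = 1 → (e q).1 = 1 → q = 1 := by
        intro q h1 h2
        apply e.injective
        rw [map_one]
        exact Prod.ext h2 h1
      refine sole_of_unique ?_ ?_ hm' ?_
      · intro h1
        exact hc1 (congrArg Subtype.val h1)
      · exact Subtype.ext hc2
      · rintro ⟨g, hg⟩ hgg
        have hgg' : g * g = 1 := congrArg Subtype.val hgg
        have hc1' : (e c).1 ≠ 1 := fun h1 => hc1 (hone c he h1)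
        have hcc' : (e c).1 * (e c).1 = 1 := by
          have := congrArg (fun t => (e t).1) hc2
          simpa using this
        have hgg'' : (e g).1 * (e g).1 = 1 := by
          have := congrArg (fun t => (e t).1) hgg'
          simpa using this
        rcases huniq (e c).1 (e g).1 hc1' hcc' hgg'' with h1 | h1
        · left
          exact Subtype.ext (hone g hg h1)
        · right
          apply Subtype.ext
          apply e.injective
          exact Prod.ext h1 (((hQmem g).1 hg).trans he.symm)

end Pool.Agent.H21.TC
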