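import Pool.Agent.H21.TC.Ex
import Pool.Agent.H21.TC.Grp

/-!
# Galois CM fields
-/

set_option autoImplicit false
set_option linter.unusedSectionVars false

universe u

namespace Pool.Agent.H21.TC

open NumberField Module Pool.Agent.H204R3.CM Pool.Agent.H485R3 Pool.Agent.Helper33Dom

/-- Complex conjugation of a CM field, as an automorphism over the rational numbers. -/
noncomputable def conjAut (K : Type*) [Field K] [NumberField K] [IsCMField K] : K ≃ₐ[ℚ] K :=
  (IsCMField.complexConj K).restrictScalars ℚ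

section real

/-- A linear form on the real numbers with rational values that separates finitely many values. -/
theorem exists_psi {X : Type*} [Finite X] (u : X → ℝ) :
    ∃ ψ : ℝ →ₗ[ℚ] ℚ, ∀ x y, ψ (u x) = ψ (u y) → u x = u y := by
  obtain ⟨f, hf⟩ := Module.exists_dual_forall_apply_ne_zero (K := ℚ)
    (fun i : {i : X × X // u i.1 ≠ u i.2} => u i.1.1 - u i.1.2) (fun i => sub_ne_zero.2 i.2)
  refine ⟨f, fun x y hxy => ?_⟩
  by_contra hne
  apply hf ⟨(x, y), hne⟩
  rw [map_sub, hxy, sub_self]

end real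

variable {K : Type*} [Field K] [NumberField K] [IsCMField K]

theorem conjAut_apply (x : K) : conjAut K x = IsCMField.complexConj K x := rfl

theorem conjAut_mul_self : conjAut K * conjAut K = 1 := by
  ext x
  change IsCMField.complexConj K (IsCMField.complexConj K x) = x
  rw [IsCMField.complexConj_apply_apply]

theorem conjAut_ne_one : conjAut K ≠ 1 := by
  intro h
  apply IsCMField.complexConj_ne_one K
  ext x
  exact congrArg (fun f : K ≃ₐ[ℚ] K => f x) h

theorem conjAut_comm (g : K ≃ₐ[ℚ] K) : g * conjAut K = conjAut K * g := by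
  obtain ⟨φ⟩ : Nonempty (K →+* ℂ) := inferInstance
  ext x
  apply φ.injective
  change φ (g (IsCMField.complexConj K x)) = φ (IsCMField.complexConj K (g x))
  rw [IsCMField.complexEmbedding_complexConj]
  exact IsCMField.complexEmbedding_complexConj (K := K) (φ.comp (g : K →+* K)) x

variable [IsGalois ℚ K]

/-- Endomorphisms are automorphisms. -/
noncomputable def galE (K : Type*) [Field K] [NumberField K] [IsGalois ℚ K] :
    (K ≃ₐ[ℚ] K) ≃ (K →+* K) :=
  Equiv.ofBijective (fun g => (g : K →+* K)) (by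
    constructor
    · intro g h hgh
      ext x
      exact RingHom.congr_fun hgh x
    · intro φ
      refine ⟨AlgEquiv.ofBijective φ.toRatAlgHom (AlgHom.bijective _), ?_⟩
      rfl)

theorem galE_apply (g : K ≃ₐ[ℚ] K) : galE K g = (g : K →+* K) := rfl

theorem galE_conj (g : K ≃ₐ[ℚ] K) : galE K (g * conjAut K) = cbar (galE K g) := rfl

theorem galE_smul (g h : K ≃ₐ[ℚ] K) : galE K (g * h) = g • galE K h := rfl

/-- Good groups give good slopes. -/
theorem goodSlopes_of_allGood (hG : AllGood (conjAut K)) (u : (K →+* K) → ℝ)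
    (hu : ∀ x, u (cbar x) = - u x) : GoodSlopes u := by
  classical
  intro c hc hrel x
  obtain ⟨ψ, hψ⟩ := exists_psi u
  obtain ⟨x, rfl⟩ := (galE K).surjective x
  have h1 := hG (fun g => ψ (u (galE K g))) (fun g => (c (galE K g) : ℚ))
    (fun g => by simp only [galE_conj, hu, map_neg])
    (fun g => by simp only [galE_conj, hc]; push_cast; rfl)
    (by
      funext g
      rw [T_apply, Pi.zero_apply]
      have h2 : ∑ x : K ≃ₐ[ℚ] K, (c (galE K x) : ℚ) * ψ (u (galE K (g * x))) =
          ψ (∑ x : K →+* K, (c x : ℝ) * u (g • x)) := by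
        rw [map_sum]
        refine Fintype.sum_equiv (galE K) _ _ fun x => ?_
        rw [galE_smul]
        have h3 : ((c (galE K x) : ℝ) * u (g • galE K x)) =
            (c (galE K x) : ℚ) • u (g • galE K x) := by
          rw [Rat.smul_def]
          push_cast
          rfl
        rw [h3, map_smul, smul_eq_mul]
      rw [h2, hrel, map_zero]) x (Finset.univ.filter fun y => SameClass u (galE K y) (galE K x))
    (by
      intro y
      rw [Finset.mem_filter]
      constructor
      · rintro ⟨-, h2⟩ g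
        rw [galE_smul, galE_smul, h2 g]
      · intro h2
        refine ⟨Finset.mem_univ _, fun g => ?_⟩
        rw [← galE_smul, ← galE_smul]
        exact hψ _ _ (h2 g))
  have h2 : ∑ y ∈ Finset.univ.filter (fun y => SameClass u y (galE K x)), c y =
      ∑ y ∈ Finset.univ.filter (fun y => SameClass u (galE K y) (galE K x)), c (galE K y) := by
    symm
    refine Finset.sum_equiv (galE K) ?_ (fun _ _ => rfl)
    intro y
    simp
  rw [h2]
  have h3 : ((∑ y ∈ Finset.univ.filter (fun y => SameClass u (galE K y) (galE K x)),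
      c (galE K y) : ℤ) : ℚ) = 0 := by
    push_cast
    exact h1
  exact_mod_cast h3

variable (K) in
theorem exists_self_emb : ∃ j : K →+* ℂ, ∀ ψ : K →+* ℂ, ∃ φ : K →+* K, j.comp φ = ψ := by
  obtain ⟨j⟩ : Nonempty (K →+* ℂ) := inferInstance
  refine ⟨j, fun ψ => ?_⟩
  obtain ⟨σ, hσ⟩ := exists_gal j.toRatAlgHom ψ.toRatAlgHom
  exact ⟨(σ : K →+* K), RingHom.ext fun z => (hσ z).symm⟩

/-- Good groups: all Weil numbers. -/
theorem all_of_allGood (hG : AllGood (conjAut K)) (Ω : Type u) [Field Ω] [IsAlgClosed Ω]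
    [CharZero Ω] (p : ℕ) [Fact p.Prime] (a : ℕ) (π : K) (hπ : IsWeilNumber (p ^ a) π) :
    OnlyLefschetz Ω (p ^ a) π := by
  obtain ⟨j, h⟩ := exists_self_emb K
  let e : K →ₐ[ℚ] PadicAlgCl p := IsAlgClosed.lift
  refine (criterion p j h e a π hπ Ω).1 (goodSlopes_of_allGood hG _ (uvec_cbar p e a π fun φ => ?_))
  rw [hπ.2 φ]
  push_cast
  rfl

/-- Bad groups: a Weil number with an exotic class, for all completely split primes. -/
theorem not_bad_of_all (Ω : Type u) [Field Ω] [IsAlgClosed Ω]
    [CharZero Ω] (p : ℕ) [Fact p.Prime] (y₀ : K →+* ℚ_[p])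
    (hall : ∀ (a : ℕ) (π : K), 0 < a → IsWeilNumber (p ^ a) π →
      (∀ n : ℕ, 0 < n → IntermediateField.adjoin ℚ {π ^ n} = ⊤) →
      OnlyLefschetzOnPowers Ω (p ^ a) π) :
    ¬ ∃ w d : (K ≃ₐ[ℚ] K) → ℤ, BadPair (conjAut K) w d := by
  classical
  rintro ⟨w, d, hw, hd, hrel, hst, hd1⟩
  obtain ⟨j, h⟩ := exists_self_emb K
  let e : K →ₐ[ℚ] PadicAlgCl p := IsAlgClosed.lift
  have key : ∀ f : (K ≃ₐ[ℚ] K) → ℤ, (∀ g, f (g * conjAut K) = - f g) →
      ∀ x : K →+* K, f ((galE K).symm (cbar x)) = - f ((galE K).symm x) := by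
    intro f hf x
    obtain ⟨g, rfl⟩ := (galE K).surjective x
    rw [← galE_conj, Equiv.symm_apply_apply, Equiv.symm_apply_apply, hf]
  obtain ⟨a, π, ha, hπ, κ, hκ, hu⟩ := exists_weil_slopes p j h e y₀
    (fun x => w ((galE K).symm x)) (key w hw)
  have hcls : ∀ t : K ≃ₐ[ℚ] K, SameClass (uvec p e a π) (galE K t) (galE K 1) → t = 1 := by
    intro t h2
    apply hst
    intro g
    have h3 := h2 g
    rw [hu, hu, ← galE_smul, ← galE_smul, Equiv.symm_apply_apply, Equiv.symm_apply_apply,
      mul_one] at h3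
    exact_mod_cast mul_left_cancel₀ hκ h3
  have hgen : ∀ n : ℕ, 0 < n → IntermediateField.adjoin ℚ {π ^ n} = ⊤ := by
    intro n hn
    rw [← IsGalois.fixedField_fixingSubgroup (IntermediateField.adjoin ℚ {π ^ n})]
    have h2 : (IntermediateField.adjoin ℚ {π ^ n}).fixingSubgroup = ⊥ := by
      rw [Subgroup.eq_bot_iff_forall]
      intro t ht
      apply hcls
      intro g
      have h3 : t (π ^ n) = π ^ n := (IntermediateField.mem_fixingSubgroup_iff _ _).1 ht _
        (IntermediateField.mem_adjoin_simple_self ℚ _)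
      have h4 : ‖e (g (t π))‖ ^ n = ‖e (g π)‖ ^ n := by
        rw [← norm_pow, ← norm_pow, ← map_pow, ← map_pow, ← map_pow, ← map_pow, ← map_pow, h3]
      have h5 : ‖e (g (t π))‖ = ‖e (g π)‖ :=
        (pow_left_inj₀ (norm_nonneg _) (norm_nonneg _) hn.ne').1 h4
      rw [uvec_eq, uvec_eq]
      change 2 * Real.log ‖e (g (t π))‖ - _ = 2 * Real.log ‖e (g π)‖ - _
      rw [h5]
    rw [h2, IntermediateField.fixedField_bot]
  have hgood := (criterion p j h e a π hπ Ω).2 (hall a π ha hπ hgen)
  have h1 := hgood (fun x => d ((galE K).symm x)) (key d hd) (by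
    intro g
    have h2 : ∑ x : K →+* K, ((d ((galE K).symm x) : ℤ) : ℝ) * uvec p e a π (g • x) =
        κ * ((∑ x, d x * w (g * x) : ℤ) : ℝ) := by
      push_cast
      rw [Finset.mul_sum]
      symm
      refine Fintype.sum_equiv (galE K) _ _ fun x => ?_
      rw [hu, Equiv.symm_apply_apply, ← galE_smul, Equiv.symm_apply_apply]
      ring
    rw [h2, hrel, Int.cast_zero, mul_zero]) (galE K 1)
  have h2 : Finset.univ.filter (fun y => SameClass (uvec p e a π) y (galE K 1)) = {galE K 1} := by
    ext y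
    rw [Finset.mem_filter, Finset.mem_singleton]
    constructor
    · rintro ⟨-, h2⟩
      obtain ⟨t, rfl⟩ := (galE K).surjective y
      rw [hcls t h2]
    · rintro rfl
      exact ⟨Finset.mem_univ _, fun g => rfl⟩
  rw [h2, Finset.sum_singleton, Equiv.symm_apply_apply] at h1
  exact hd1 h1

/-- Translation of the subgroup condition to subfields. -/
theorem cond_iff : Cond (conjAut K) ↔ ∀ E : IntermediateField ℚ K, E ≠ ⊤ → ¬ IsTotallyReal E →
    finrank E K = 2 ∧ Normal ℚ E := by
  have hreal : ∀ E : IntermediateField ℚ K, IsTotallyReal E ↔ conjAut K ∈ E.fixingSubgroup := by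
    intro E
    have h1 : IsTotallyReal E ↔ E.toSubfield ≤ maximalRealSubfield K :=
      isTotallyReal_iff_le_maximalRealSubfield (E := E.toSubfield)
    rw [h1, IntermediateField.mem_fixingSubgroup_iff]
    constructor
    · intro h2 x hx
      exact (IsCMField.complexConj_eq_self_iff K x).2 (h2 hx)
    · intro h2 x hx
      exact (IsCMField.complexConj_eq_self_iff K x).1 (h2 x hx)
  constructor
  · intro h E hE hreal'
    rw [hreal] at hreal'
    have hbot : E.fixingSubgroup ≠ ⊥ := by
      intro h0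
      apply hE
      rw [← IsGalois.fixedField_fixingSubgroup E, h0, IntermediateField.fixedField_bot]
    obtain ⟨h1, h2⟩ := h E.fixingSubgroup hbot hreal'
    refine ⟨?_, ?_⟩
    · rw [← h1]
      exact (IsGalois.card_fixingSubgroup_eq_finrank E).symm
    · have h3 := IsGalois.of_fixedField_normal_subgroup E.fixingSubgroup
      rw [IsGalois.fixedField_fixingSubgroup] at h3
      exact h3.to_normal
  · intro h H hH hcH
    let E := IntermediateField.fixedField H
    have hfix : E.fixingSubgroup = H := IntermediateField.fixingSubgroup_fixedField H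
    have hE : E ≠ ⊤ := by
      intro h0
      apply hH
      rw [← hfix, h0]
      exact IntermediateField.fixingSubgroup_top
    obtain ⟨h1, h2⟩ := h E hE (by rw [hreal, hfix]; exact hcH)
    refine ⟨?_, ?_⟩
    · rw [← h1, ← hfix]
      exact IsGalois.card_fixingSubgroup_eq_finrank E
    · rw [← hfix]
      exact @IsGalois.fixingSubgroup_normal_of_isGalois ℚ K _ _ _ E _
        (@IsGalois.mk ℚ _ E _ _ inferInstance h2)

end Pool.Agent.H21.TC
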