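import Pool.Agent.H21.TC.GField
import Pool.Agent.H21.TC.Gal

/-!
# Transfer between slopes and functions on the complex embeddings
-/

set_option autoImplicit false
set_option linter.unusedSectionVars false

universe u

namespace Pool.Agent.H21.TC

open NumberField Module Pool.Agent.H204R3.CM Pool.Agent.H485R3 Pool.Agent.Helper33Dom

section

variable {F : Type*} [Field F] [NumberField F] [IsCMField F]
  {L : Type*} [Field L] [NumberField L] [IsGalois ℚ L]

theorem embE_cbar (j : L →+* ℂ) (h : ∀ ψ : F →+* ℂ, ∃ φ : F →+* L, j.comp φ = ψ) (x : F →+* L) :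
    embE j h (cbar x) = ComplexEmbedding.conjugate (embE j h x) :=
  RingHom.ext fun a => IsCMField.complexEmbedding_complexConj (K := F) (j.comp x) a

/-- From the complex embeddings to slopes. -/
theorem goodSlopes_of_goodW (j : L →+* ℂ) (h : ∀ ψ : F →+* ℂ, ∃ φ : F →+* L, j.comp φ = ψ)
    (hgood : ∀ w : (F →+* ℂ) → ℤ, (∀ x, w (ComplexEmbedding.conjugate x) = - w x) →
      GoodW (PC F) ComplexEmbedding.conjugate w)
    (u : (F →+* L) → ℝ) (hu : ∀ x, u (cbar x) = - u x) : GoodSlopes u := by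
  classical
  intro c hc hrel x
  obtain ⟨ψ, hψ⟩ := exists_psi u
  obtain ⟨N, v, hN, hv⟩ := clear_denom (fun x => ψ (u x))
  have hN' : (N : ℚ) ≠ 0 := by exact_mod_cast hN
  have hvu : ∀ x y, v x = v y ↔ u x = u y := by
    intro x y
    constructor
    · intro h1
      have h2 : (v x : ℚ) = v y := by rw [h1]
      rw [hv, hv] at h2
      exact hψ _ _ (mul_left_cancel₀ hN' h2)
    · intro h1
      have h2 : (v x : ℚ) = v y := by rw [hv, hv, h1]
      exact_mod_cast h2
  have hvo : ∀ x, v (cbar x) = - v x := by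
    intro x
    have h1 : (v (cbar x) : ℚ) = - v x := by rw [hv, hv, hu, map_neg]; ring
    exact_mod_cast h1
  let E := embE j h
  have hE : ∀ z, E.symm (ComplexEmbedding.conjugate z) = cbar (E.symm z) := by
    intro z
    obtain ⟨z, rfl⟩ := E.surjective z
    rw [Equiv.symm_apply_apply, Equiv.symm_apply_eq]
    exact (embE_cbar j h z).symm
  have h1 := hgood (fun z => v (E.symm z)) (fun z => by
    change v (E.symm _) = - v (E.symm z)
    rw [hE, hvo]) (fun z => c (E.symm z)) (fun z => by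
    change c (E.symm _) = - c (E.symm z)
    rw [hE, hc]) (by
    rintro _ ⟨τ, rfl⟩
    obtain ⟨g, hg⟩ := Pool.Agent.H977R3.CM.exists_gal j τ
    have h2 : ∑ z : F →+* ℂ, c (E.symm z) * v (E.symm (permOf F τ z)) =
        ∑ z : F →+* L, c z * v (g • z) := by
      symm
      refine Fintype.sum_equiv E _ _ fun z => ?_
      rw [Equiv.symm_apply_apply]
      have h3 : permOf F τ (E z) = E (g • z) := embE_smul j h hg z
      rw [h3, Equiv.symm_apply_apply]
    rw [h2]
    have h3 : ((∑ z : F →+* L, c z * v (g • z) : ℤ) : ℚ) =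
        N * ψ (∑ x : F →+* L, (c x : ℝ) * u (g • x)) := by
      push_cast
      rw [map_sum, Finset.mul_sum]
      refine Finset.sum_congr rfl fun z _ => ?_
      have h4 : ((c z : ℝ) * u (g • z)) = (c z : ℚ) • u (g • z) := by
        rw [Rat.smul_def]
        push_cast
        rfl
      rw [h4, map_smul, smul_eq_mul, hv]
      ring
    rw [hrel, map_zero, mul_zero] at h3
    exact_mod_cast h3) (E x)
  have h2 : ∑ y ∈ Finset.univ.filter (fun y => SameClass u y x), c y =
      ∑ y ∈ Finset.univ.filter (fun y : F →+* ℂ => ∀ σ ∈ PC F,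
        v (E.symm (σ y)) = v (E.symm (σ (E x)))), c (E.symm y) := by
    refine Finset.sum_equiv E ?_ ?_
    · intro y
      rw [Finset.mem_filter, Finset.mem_filter]
      constructor
      · rintro ⟨-, h2⟩
        refine ⟨Finset.mem_univ _, ?_⟩
        rintro _ ⟨τ, rfl⟩
        obtain ⟨g, hg⟩ := Pool.Agent.H977R3.CM.exists_gal j τ
        have h3 : ∀ z, permOf F τ (E z) = E (g • z) := fun z => embE_smul j h hg z
        rw [h3, h3, Equiv.symm_apply_apply, Equiv.symm_apply_apply, hvu]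
        exact h2 g
      · rintro ⟨-, h2⟩
        refine ⟨Finset.mem_univ _, fun g => ?_⟩
        obtain ⟨τ, hτ⟩ := Pool.Agent.H977R3.CM.exists_aut j (g : L ≃+* L)
        have h3 : ∀ z, permOf F τ (E z) = E (g • z) := fun z => embE_smul j h hτ z
        have h4 := h2 _ (permOf_mem τ)
        rw [h3, h3, Equiv.symm_apply_apply, Equiv.symm_apply_apply, hvu] at h4
        exact h4
    · intro y _
      rw [Equiv.symm_apply_apply]
  rw [h2]
  exact h1

/-- From slopes to the complex embeddings. -/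
theorem goodW_of_goodSlopes (j : L →+* ℂ) (h : ∀ ψ : F →+* ℂ, ∃ φ : F →+* L, j.comp φ = ψ)
    (w : (F →+* ℂ) → ℤ) (u : (F →+* L) → ℝ) (κ : ℝ) (hκ : κ ≠ 0)
    (hu : ∀ x, u x = κ * w (embE j h x)) (hgood : GoodSlopes u) :
    GoodW (PC F) ComplexEmbedding.conjugate w := by
  classical
  intro c hc hrel x
  let E := embE j h
  obtain ⟨x, rfl⟩ := E.surjective x
  have h1 := hgood (fun z => c (E z)) (fun z => by
    change c (E (cbar z)) = - c (E z)
    rw [← hc]
    exact congrArg c (embE_cbar j h z)) (by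
    intro g
    obtain ⟨τ, hτ⟩ := Pool.Agent.H977R3.CM.exists_aut j (g : L ≃+* L)
    have h3 : ∀ z, permOf F τ (E z) = E (g • z) := fun z => embE_smul j h hτ z
    have h4 := hrel _ (permOf_mem τ)
    have h5 : ∑ z : F →+* L, (c (E z) : ℝ) * u (g • z) =
        κ * ((∑ z : F →+* ℂ, c z * w (permOf F τ z) : ℤ) : ℝ) := by
      push_cast
      rw [Finset.mul_sum]
      refine Fintype.sum_equiv E _ _ fun z => ?_
      rw [hu, h3]
      ring
    rw [h5, h4, Int.cast_zero, mul_zero]) x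
  rw [← h1]
  symm
  refine Finset.sum_equiv E ?_ (fun _ _ => rfl)
  intro y
  rw [Finset.mem_filter, Finset.mem_filter]
  constructor
  · rintro ⟨-, h2⟩
    refine ⟨Finset.mem_univ _, ?_⟩
    rintro _ ⟨τ, rfl⟩
    obtain ⟨g, hg⟩ := Pool.Agent.H977R3.CM.exists_gal j τ
    have h3 : ∀ z, permOf F τ (E z) = E (g • z) := fun z => embE_smul j h hg z
    have h4 := h2 g
    rw [hu, hu] at h4
    rw [h3, h3]
    exact_mod_cast mul_left_cancel₀ hκ h4
  · rintro ⟨-, h2⟩
    refine ⟨Finset.mem_univ _, fun g => ?_⟩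
    obtain ⟨τ, hτ⟩ := Pool.Agent.H977R3.CM.exists_aut j (g : L ≃+* L)
    have h3 : ∀ z, permOf F τ (E z) = E (g • z) := fun z => embE_smul j h hτ z
    have h4 := h2 _ (permOf_mem τ)
    rw [h3, h3] at h4
    rw [hu, hu]
    change κ * ((w (E (g • y)) : ℤ) : ℝ) = κ * ((w (E (g • x)) : ℤ) : ℝ)
    rw [h4]

/-- From Weil numbers to functions on the complex embeddings. -/
theorem goodW_of_weil (Ω : Type u) [Field Ω] [IsAlgClosed Ω] [CharZero Ω]
    (p : ℕ) [Fact p.Prime] (j : L →+* ℂ) (h : ∀ ψ : F →+* ℂ, ∃ φ : F →+* L, j.comp φ = ψ)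
    (y₀ : L →+* ℚ_[p])
    (hall : ∀ (a : ℕ) (π : F), 0 < a → IsWeilNumber (p ^ a) π → OnlyLefschetzOnPowers Ω (p ^ a) π)
    (w : (F →+* ℂ) → ℤ) (hw : ∀ x, w (ComplexEmbedding.conjugate x) = - w x) :
    GoodW (PC F) ComplexEmbedding.conjugate w := by
  let e : L →ₐ[ℚ] PadicAlgCl p := IsAlgClosed.lift
  obtain ⟨a, π, ha, hπ, κ, hκ, hu⟩ := exists_weil_slopes p j h e y₀
    (fun x => w (embE j h x)) (fun x => by
      change w (embE j h (cbar x)) = _
      rw [embE_cbar, hw])
  exact goodW_of_goodSlopes j h w _ κ hκ hu ((criterion p j h e a π hπ Ω).2 (hall a π ha hπ))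

/-- From functions on the complex embeddings to Weil numbers. -/
theorem weil_of_goodW (Ω : Type u) [Field Ω] [IsAlgClosed Ω] [CharZero Ω]
    (p : ℕ) [Fact p.Prime] (j : L →+* ℂ) (h : ∀ ψ : F →+* ℂ, ∃ φ : F →+* L, j.comp φ = ψ)
    (hgood : ∀ w : (F →+* ℂ) → ℤ, (∀ x, w (ComplexEmbedding.conjugate x) = - w x) →
      GoodW (PC F) ComplexEmbedding.conjugate w)
    (a : ℕ) (π : F) (hπ : IsWeilNumber (p ^ a) π) : OnlyLefschetz Ω (p ^ a) π := by
  let e : L →ₐ[ℚ] PadicAlgCl p := IsAlgClosed.lift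
  refine (criterion p j h e a π hπ Ω).1 (goodSlopes_of_goodW j h hgood _
    (uvec_cbar p e a π fun φ => ?_))
  rw [hπ.2 φ]
  push_cast
  rfl

end

end Pool.Agent.H21.TC
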