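import Pool.Agent.H21.TC.Pairs

/-!
# Multiplicative relations between the conjugates of a Weil number and linear relations between the
# slopes
-/

set_option autoImplicit false
set_option linter.unusedSectionVars false

namespace Pool.Agent.H21.TC

open NumberField Module Pool.Agent.H925R2 Pool.Agent.H485R3 Pool.Agent.H204R3.CM
  Pool.Agent.H868R3.TwoOdd Pool.Agent.H194R3.CM Pool.Agent.H194R3.Tate Pool.Agent.Helper33Dom

variable {F : Type*} [Field F] [NumberField F] [IsCMField F]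
  {L : Type*} [Field L] [NumberField L] [IsGalois ℚ L] (p : ℕ) [Fact p.Prime]

theorem cast_q (l : ℕ) [Fact l.Prime] (m : ℕ) : ((((p : ℚ) ^ m : ℚ)) : PadicAlgCl l) =
      (p : PadicAlgCl l) ^ m := by
  push_cast
  rfl

theorem uvec_eq (e : L →ₐ[ℚ] PadicAlgCl p) (m : ℕ) (π : F) (φ : F →+* L) :
    uvec p e m π φ = 2 * Real.log ‖e (φ π)‖ - Real.log ‖(p : PadicAlgCl p) ^ m‖ := by
  rw [← cast_q]
  rfl

/-- A linear relation between slopes gives a multiplicative relation. -/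
theorem prod_pow_eq (e : L →ₐ[ℚ] PadicAlgCl p) (m : ℕ) (π : F) (hint : IsIntegral ℤ π)
    (hweil : ∀ φ : F →+* ℂ, ‖φ π‖ ^ 2 = (((p : ℚ) ^ m : ℚ) : ℝ)) (f : (F →+* L) → ℕ)
    (hf : ∀ g : L ≃ₐ[ℚ] L, ∑ x, (f x : ℝ) * uvec p e m π (g • x) = 0) :
    ∃ s : ℕ, 0 < s ∧ (∏ x, x π ^ f x) ^ (2 * s) = ((p : L) ^ m) ^ ((∑ x, f x) * s) := by
  classical
  have hp : p.Prime := Fact.out
  have hp0 : (p : L) ≠ 0 := by exact_mod_cast hp.ne_zero
  have hq : (0 : ℚ) < (p : ℚ) ^ m := pow_pos (by exact_mod_cast hp.pos) _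
  have hπ0 : π ≠ 0 := weil_ne hq hweil
  have h0 : ∀ χ : F →+* L, χ π ≠ 0 := fun χ => (map_ne_zero χ).2 hπ0
  have hI : ∀ χ : F →+* L, IsIntegral ℤ (χ π) := fun χ => map_isIntegral_int χ hint
  let N : L := ∏ x, x π ^ f x
  let n : ℕ := ∑ x, f x
  let z : L := N ^ 2 / ((p : L) ^ m) ^ n
  have hunit : ∀ (l : ℕ) [Fact l.Prime], l ≠ p → ∀ (e' : L →ₐ[ℚ] PadicAlgCl l) (χ : F →+* L),
      ‖e' (χ π)‖ = 1 := by
    intro l _ hlp e' χ
    have h1 : ‖e' (χ π)‖ ≤ 1 := norm_le_one_of_isIntegral l _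
      (map_isIntegral_int (e' : L →+* PadicAlgCl l) (hI χ))
    have h2 : ‖e' (cbar χ π)‖ ≤ 1 :=
      norm_le_one_of_isIntegral l _ (map_isIntegral_int (e' : L →+* PadicAlgCl l) (hI (cbar χ)))
    have h3 : e' (χ π) * e' (cbar χ π) = (p : PadicAlgCl l) ^ m := by
      rw [← map_mul, weil_cbar hq hweil, mul_div_cancel₀ _ (h0 χ)]
      rw [map_ratCast]
      exact cast_q p l m
    have h4 : ‖e' (χ π)‖ * ‖e' (cbar χ π)‖ = 1 := by
      rw [← norm_mul, h3, norm_prime_pow_ne l p hp hlp]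
    nlinarith [norm_nonneg (e' (χ π)), norm_nonneg (e' (cbar χ π))]
  have hzint : IsIntegral ℤ z := by
    apply isIntegral_of_norm_le
    intro l hl e'
    refine le_of_eq ?_
    have h1 : ‖e' z‖ = (∏ x, ‖e' (x π)‖ ^ f x) ^ 2 / ‖((p : PadicAlgCl l) ^ m)‖ ^ n := by
      simp only [z, N]
      rw [map_div₀, map_pow, map_pow, map_pow, map_prod, map_natCast, norm_div, norm_pow, norm_pow,
        norm_prod]
      simp only [map_pow, norm_pow]
    rw [h1]
    by_cases hlp : l = p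
    · subst hlp
      obtain ⟨g, hg⟩ := exists_gal e e'
      have hpos : ∀ x : F →+* L, 0 < ‖e' (x π)‖ := fun x =>
        norm_pos_iff.2 ((map_ne_zero _).2 (h0 x))
      have hqpos : 0 < ‖((l : PadicAlgCl l) ^ m)‖ := by
        rw [norm_pos_iff]
        exact pow_ne_zero _ (by exact_mod_cast hp.ne_zero)
      have h2 : Real.log ((∏ x, ‖e' (x π)‖ ^ f x) ^ 2 / ‖((l : PadicAlgCl l) ^ m)‖ ^ n) = 0 := by
        rw [Real.log_div (pow_ne_zero _ (Finset.prod_ne_zero_iff.2 fun x _ =>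
          pow_ne_zero _ (hpos x).ne'))
          (pow_ne_zero _ hqpos.ne'), Real.log_pow, Real.log_pow,
          Real.log_prod (fun x _ => pow_ne_zero _ (hpos x).ne')]
        have h3 := hf g
        have h4 : ∀ x : F →+* L, (f x : ℝ) * uvec l e m π (g • x) =
            2 * Real.log (‖e' (x π)‖ ^ f x) - (f x : ℝ) * Real.log ‖((l : PadicAlgCl l) ^ m)‖ := by
          intro x
          rw [hg, uvec_eq, Real.log_pow]
          change (f x : ℝ) * (2 * Real.log ‖e (g (x π))‖ - _) = _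
          ring
        rw [Finset.sum_congr rfl (fun x _ => h4 x), Finset.sum_sub_distrib, ← Finset.mul_sum,
          ← Finset.sum_mul] at h3
        simp only [n]
        push_cast
        exact h3
      have h3 : 0 < (∏ x, ‖e' (x π)‖ ^ f x) ^ 2 / ‖((l : PadicAlgCl l) ^ m)‖ ^ n :=
        div_pos (pow_pos (Finset.prod_pos fun x _ => pow_pos (hpos x) _) _) (pow_pos hqpos _)
      exact Real.eq_one_of_pos_of_log_eq_zero h3 h2
    · rw [Finset.prod_congr rfl (fun x _ => by rw [hunit l hlp e' x, one_pow]),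
        Finset.prod_const_one, norm_prime_pow_ne l p hp hlp]
      simp
  obtain ⟨s, hs, hs1⟩ := pow_eq_one_of_norm z hzint (fun τ => by
    have h2 : ∀ x : F →+* L, ‖τ (x π)‖ ^ 2 = (p : ℝ) ^ m := by
      intro x
      have h3 := hweil ((τ : L →+* ℂ).comp x)
      rw [Rat.cast_pow, Rat.cast_natCast] at h3
      exact h3
    have h1 : ‖τ z‖ = (∏ x, (‖τ (x π)‖ ^ 2) ^ f x) / ((p : ℝ) ^ m) ^ n := by
      simp only [z, N]
      rw [map_div₀, map_pow, map_pow, map_pow, map_prod, map_natCast, norm_div, norm_pow, norm_pow,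
        norm_pow, norm_prod, ← Finset.prod_pow, Complex.norm_natCast]
      congr 1
      refine Finset.prod_congr rfl fun x _ => ?_
      rw [map_pow, norm_pow, ← pow_mul, ← pow_mul, mul_comm]
    rw [h1, Finset.prod_congr rfl (fun x _ => by rw [h2 x]), Finset.prod_pow_eq_pow_sum, div_self]
    exact pow_ne_zero _ (pow_ne_zero _ (by exact_mod_cast hp.ne_zero)))
  refine ⟨s, hs, ?_⟩
  have h1 : z ^ s * (((p : L) ^ m) ^ n) ^ s = (N ^ 2) ^ s := by
    rw [← mul_pow]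
    simp only [z]
    rw [div_mul_cancel₀ _ (pow_ne_zero _ (pow_ne_zero _ hp0))]
  rw [hs1, one_mul] at h1
  rw [pow_mul, pow_mul]
  exact h1.symm

/-- A multiplicative relation gives a linear relation between slopes. -/
theorem sum_uvec_eq_zero (e : L →ₐ[ℚ] PadicAlgCl p) (m : ℕ) (π : F)
    (hweil : ∀ φ : F →+* ℂ, ‖φ π‖ ^ 2 = (((p : ℚ) ^ m : ℚ) : ℝ)) (f : (F →+* L) → ℕ)
    (s : ℕ) (hs : 0 < s)
    (hf : (∏ x, x π ^ f x) ^ (2 * s) = ((p : L) ^ m) ^ ((∑ x, f x) * s)) (g : L ≃ₐ[ℚ] L) :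
    ∑ x, (f x : ℝ) * uvec p e m π (g • x) = 0 := by
  classical
  have hp : p.Prime := Fact.out
  have hq : (0 : ℚ) < (p : ℚ) ^ m := pow_pos (by exact_mod_cast hp.pos) _
  have hπ0 : π ≠ 0 := weil_ne hq hweil
  have h0 : ∀ χ : F →+* L, χ π ≠ 0 := fun χ => (map_ne_zero χ).2 hπ0
  have hpos : ∀ x : F →+* L, 0 < ‖e (g (x π))‖ := fun x =>
    norm_pos_iff.2 ((map_ne_zero _).2 ((map_ne_zero _).2 (h0 x)))
  have h1 := congrArg (fun t => Real.log ‖e (g t)‖) hf
  simp only [map_pow, map_prod, norm_pow, norm_prod, map_natCast, Real.log_pow] at h1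
  rw [Real.log_prod (fun x _ => pow_ne_zero _ (hpos x).ne')] at h1
  have h2 : ∀ x : F →+* L, (f x : ℝ) * uvec p e m π (g • x) =
      2 * Real.log (‖e (g (x π))‖ ^ f x) - (f x : ℝ) * (m * Real.log ‖(p : PadicAlgCl p)‖) := by
    intro x
    rw [uvec_eq, Real.log_pow, norm_pow, Real.log_pow]
    change (f x : ℝ) * (2 * Real.log ‖e (g (x π))‖ - _) = _
    ring
  rw [Finset.sum_congr rfl (fun x _ => h2 x), Finset.sum_sub_distrib, ← Finset.mul_sum,
    ← Finset.sum_mul]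
  have hs' : (s : ℝ) ≠ 0 := by exact_mod_cast hs.ne'
  apply mul_left_cancel₀ hs'
  push_cast at h1
  rw [mul_zero]
  linear_combination h1

/-- The deviations are antisymmetric. -/
theorem uvec_cbar (e : L →ₐ[ℚ] PadicAlgCl p) (m : ℕ) (π : F)
    (hweil : ∀ φ : F →+* ℂ, ‖φ π‖ ^ 2 = (((p : ℚ) ^ m : ℚ) : ℝ)) (φ : F →+* L) :
    uvec p e m π (cbar φ) = - uvec p e m π φ := by
  have hp : p.Prime := Fact.out
  have hq : (0 : ℚ) < (p : ℚ) ^ m := pow_pos (by exact_mod_cast hp.pos) _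
  have h1 := dev_inv p hq.ne' (((e : L →+* PadicAlgCl p).comp φ) π)
    ((map_ne_zero _).2 (weil_ne hq hweil))
  rw [← weil_cbar hq hweil] at h1
  exact h1

end Pool.Agent.H21.TC
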