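import Pool.Agent.H21.TC.Cls2

/-!
# Odd functions on a group with a sole involution: there are no zero divisors
-/

set_option autoImplicit false

universe u

namespace Pool.Agent.H21.TC

open Subgroup Polynomial

variable {G : Type u} [Group G]

/-- Odd functions. -/
def OddFn (c : G) (w : G → ℚ) : Prop := ∀ g, w (g * c) = - w g

/-- Right translation. -/
def rho (x : G) : (G → ℚ) →ₗ[ℚ] (G → ℚ) := LinearMap.funLeft ℚ ℚ fun g => g * x

theorem rho_apply (x : G) (f : G → ℚ) (g : G) : rho x f g = f (g * x) := rfl

theorem rho_mul (x y : G) : rho (x * y) = rho x * rho y := by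
  ext f g
  simp [rho_apply, mul_assoc]

theorem rho_one : rho (1 : G) = 1 := by
  ext f g
  simp [rho_apply]

theorem rho_pow (x : G) (n : ℕ) : rho (x ^ n) = rho x ^ n := by
  induction n with
  | zero => rw [pow_zero, pow_zero, rho_one]
  | succ n ih => rw [pow_succ, pow_succ, rho_mul, ih]

theorem rho_odd {c : G} {f : G → ℚ} (hf : OddFn c f) : rho c f = - f := by
  funext g
  rw [rho_apply, hf]
  rfl

theorem OddFn.rho {c : G} (hc : ∀ g, g * c = c * g) {f : G → ℚ} (hf : OddFn c f) (x : G) :
    OddFn c (rho x f) := by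
  intro g
  rw [rho_apply, rho_apply, mul_assoc, ← hc x, ← mul_assoc, hf]

variable [Fintype G]

/-- The operator given by a function. -/
noncomputable def T (d : G → ℚ) : (G → ℚ) →ₗ[ℚ] (G → ℚ) := ∑ x, d x • rho x

theorem T_apply (d f : G → ℚ) (g : G) : T d f g = ∑ x, d x * f (g * x) := by
  simp [T, rho_apply]

theorem eq_zero_of_T {c : G} (hc : c ≠ 1) (hc2 : c * c = 1) {d : G → ℚ}
    (hd : OddFn c d) (h : ∀ f, OddFn c f → T d f = 0) : d = 0 := by
  classical
  let f : G → ℚ := fun g => (if g = 1 then 1 else 0) - (if g = c then 1 else 0)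
  have hf : OddFn c f := by
    intro g
    simp only [f]
    have h1 : g * c = 1 ↔ g = c := by
      constructor
      · intro h1
        calc g = g * c * c := by rw [mul_assoc, hc2, mul_one]
          _ = c := by rw [h1, one_mul]
      · rintro rfl
        exact hc2
    have h2 : g * c = c ↔ g = 1 := by
      constructor
      · intro h2
        exact mul_right_cancel (h2.trans (one_mul c).symm)
      · rintro rfl
        rw [one_mul]
    simp only [h1, h2]
    ring
  funext g
  have h1 := congrFun (h f hf) g⁻¹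
  rw [T_apply] at h1
  simp only [f, mul_sub, Finset.sum_sub_distrib] at h1
  have e1 : ∀ x : G, g⁻¹ * x = 1 ↔ x = g := fun x => by
    rw [inv_mul_eq_one, eq_comm]
  have e2 : ∀ x : G, g⁻¹ * x = c ↔ x = g * c := fun x => by
    rw [inv_mul_eq_iff_eq_mul]
  simp only [e1, e2, mul_ite, mul_one, mul_zero, Finset.sum_ite_eq', Finset.mem_univ, if_true] at h1
  rw [hd g] at h1
  simp only [Pi.zero_apply] at h1 ⊢
  linarith

theorem adj (x : G) (f g : G → ℚ) : ∑ t, rho x f t * g t = ∑ t, f t * rho x⁻¹ g t := by
  rw [← Equiv.sum_comp (Equiv.mulRight x⁻¹)]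
  refine Finset.sum_congr rfl fun t _ => ?_
  simp [rho_apply]

theorem adj_poly (x : G) (P : ℚ[X]) (f g : G → ℚ) :
    ∑ t, aeval (rho x) P f t * g t = ∑ t, f t * aeval (rho x⁻¹) P g t := by
  induction P using Polynomial.induction_on' with
  | add P Q hP hQ =>
    simp only [map_add, LinearMap.add_apply, Pi.add_apply, add_mul, mul_add, Finset.sum_add_distrib,
      hP, hQ]
  | monomial n a =>
    simp only [aeval_monomial, ← rho_pow, Module.algebraMap_end_eq_smul_id, LinearMap.smul_apply,
      Module.End.mul_apply, LinearMap.id_apply, Pi.smul_apply, smul_eq_mul, mul_assoc, ← Finset.mul_sum]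
    rw [adj]
    rw [Finset.mul_sum, ← Finset.mul_sum]
    simp only [inv_pow, mul_left_comm, ← Finset.mul_sum]

theorem exists_poly {x : G} {d : G → ℚ} (hd : ∀ g, g ∉ zpowers x → d g = 0) :
    ∃ P : ℚ[X], T d = aeval (rho x) P := by
  classical
  have hn : ∀ g : G, ∃ n : ℕ, g ∈ zpowers x → x ^ n = g := by
    intro g
    by_cases hg : g ∈ zpowers x
    · obtain ⟨n, hn⟩ := mem_powers_iff_mem_zpowers.2 hg
      exact ⟨n, fun _ => hn⟩
    · exact ⟨0, fun h => absurd h hg⟩
  choose n hn using hn
  refine ⟨∑ g, C (d g) * X ^ n g, ?_⟩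
  rw [T, map_sum]
  refine Finset.sum_congr rfl fun g _ => ?_
  rw [map_mul, aeval_C, map_pow, aeval_X]
  by_cases hg : g ∈ zpowers x
  · rw [← rho_pow, hn g hg, Module.algebraMap_end_eq_smul_id]
    rfl
  · rw [hd g hg, zero_smul, map_zero, zero_mul]

theorem phi_irreducible (k : ℕ) : Irreducible (X ^ 2 ^ k + 1 : ℚ[X]) := by
  have h1 : cyclotomic (2 ^ (k + 1)) ℚ = X ^ 2 ^ k + 1 := by
    rw [cyclotomic_prime_pow_eq_geom_sum Nat.prime_two, Finset.sum_range_succ, Finset.sum_range_one,
      pow_zero, pow_one, add_comm]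
  rw [← h1]
  exact cyclotomic.irreducible_rat (by positivity)

/-- In a group with a sole involution there are no zero divisors among the odd functions. -/
theorem Sole.nz {c : G} (h : Sole c) {d w : G → ℚ} (hd : OddFn c d) (hw : OddFn c w)
    (hT : T d w = 0) : d = 0 ∨ w = 0 := by
  classical
  by_contra hcon
  push Not at hcon
  obtain ⟨hd0, hw0⟩ := hcon
  obtain ⟨x, hx1, hx⟩ := h.struct
  have hcx : c ∈ zpowers x := h.mem x hx1
  obtain ⟨k, hk⟩ : ∃ k : ℕ, orderOf x = 2 ^ (k + 1) := by
    obtain ⟨k, hk⟩ := h.exists_order x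
    rcases Nat.eq_zero_or_pos k with h0 | h0
    · rw [h0, pow_zero, orderOf_eq_one_iff] at hk
      exact absurd hk hx1
    · exact ⟨k - 1, by rw [hk]; congr 1; omega⟩
  have hxc : x ^ 2 ^ k = c := by
    have h1 : x ^ 2 ^ k * x ^ 2 ^ k = 1 := by
      rw [← pow_add, ← two_mul, ← pow_succ', ← hk, pow_orderOf_eq_one]
    rcases h.eq_of_sq h1 with h2 | h2
    · exfalso
      have := orderOf_dvd_of_pow_eq_one h2
      rw [hk] at this
      have := Nat.le_of_dvd (by positivity) this
      have : 2 ^ k < 2 ^ (k + 1) := Nat.pow_lt_pow_right (by norm_num) (by omega)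
      omega
    · exact h2
  have hphi : ∀ f, OddFn c f → aeval (rho x) (X ^ 2 ^ k + 1 : ℚ[X]) f = 0 := by
    intro f hf
    rw [map_add, map_pow, aeval_X, map_one, ← rho_pow, hxc, LinearMap.add_apply, rho_odd hf]
    simp
  -- an operator which is a polynomial and kills `w` kills all odd functions
  have key : ∀ Q : ℚ[X], aeval (rho x) Q w = 0 → ∀ f, OddFn c f → aeval (rho x) Q f = 0 := by
    intro Q hQ f hf
    by_cases hdvd : (X ^ 2 ^ k + 1 : ℚ[X]) ∣ Q
    · obtain ⟨R, rfl⟩ := hdvd
      rw [mul_comm, map_mul, Module.End.mul_apply, hphi f hf, map_zero]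
    · exfalso
      obtain ⟨U, V, hUV⟩ := ((phi_irreducible k).coprime_iff_not_dvd.2 hdvd)
      apply hw0
      have h1 : aeval (rho x) (U * (X ^ 2 ^ k + 1) + V * Q) w = aeval (rho x) (1 : ℚ[X]) w :=
        congrArg (fun P => aeval (rho x) P w) hUV
      rw [map_add, map_mul, map_mul, LinearMap.add_apply, Module.End.mul_apply,
        Module.End.mul_apply, hphi w hw, hQ, map_zero, map_zero, add_zero, map_one,
        Module.End.one_apply] at h1
      exact h1.symm
  rcases hx with hx | ⟨y, hy1, hy2, hy3, hy4⟩
  · -- the cyclic case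
    obtain ⟨P, hP⟩ := exists_poly (x := x) (d := d) fun g hg => absurd (hx g) hg
    rw [hP] at hT
    apply hd0
    exact eq_zero_of_T h.ne_one h.sq hd fun f hf => by rw [hP]; exact key P hT f hf
  · -- the quaternion case
    let u : G → ℚ := fun g => if g ∈ zpowers x then d g else 0
    let v : G → ℚ := fun g => if g ∈ zpowers x then d (g * y⁻¹) else 0
    obtain ⟨P, hP⟩ := exists_poly (x := x) (d := u) fun g hg => if_neg hg
    obtain ⟨R, hR⟩ := exists_poly (x := x) (d := v) fun g hg => if_neg hg
    have hcy : ∀ g, g * y⁻¹ ∉ zpowers x ∨ g ∉ zpowers x := by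
      intro g
      by_contra hno
      push Not at hno
      apply hy1
      have : y = (g * y⁻¹)⁻¹ * g := by group
      rw [this]
      exact mul_mem (inv_mem hno.1) hno.2
    have hsplit : ∀ g, d g = u g + v (g * y) := by
      intro g
      simp only [u, v]
      by_cases hg : g ∈ zpowers x
      · have h1 : g * y ∉ zpowers x := by
          intro h1
          rcases hcy (g * y) with h2 | h2
          · apply h2
            have : g * y * y⁻¹ = g := by group
            rw [this]
            exact hg
          · exact h2 h1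
        rw [if_pos hg, if_neg h1, add_zero]
      · rw [if_neg hg, if_pos ((hy4 g).resolve_left hg), zero_add]
        congr 1
        group
    have hTd : T d = aeval (rho x) P + aeval (rho x) R * rho y⁻¹ := by
      rw [← hP, ← hR]
      have h1 : T v * rho y⁻¹ = ∑ g, v (g * y) • rho g := by
        rw [T, Finset.sum_mul, ← Equiv.sum_comp (Equiv.mulRight y)]
        refine Finset.sum_congr rfl fun g _ => ?_
        rw [Equiv.coe_mulRight, smul_mul_assoc, ← rho_mul]
        congr 2
        group
      rw [h1, T, T, ← Finset.sum_add_distrib]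
      refine Finset.sum_congr rfl fun g _ => ?_
      rw [hsplit g, add_smul]
    have hyx : y⁻¹ * x = x⁻¹ * y⁻¹ := by
      have : x⁻¹ = y * x * y⁻¹ := hy2.symm
      have h2 : y⁻¹ * x⁻¹ * y = x := by rw [this]; group
      have h3 : y⁻¹ * x * y = x⁻¹ := by
        have : y⁻¹ * x * y = (y⁻¹ * x⁻¹ * y)⁻¹ := by group
        rw [this, h2]
      calc y⁻¹ * x = (y⁻¹ * x * y) * y⁻¹ := by group
        _ = _ := by rw [h3]
    have hcomY : ∀ Q : ℚ[X], rho y⁻¹ * aeval (rho x) Q = aeval (rho x⁻¹) Q * rho y⁻¹ := by
      intro Q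
      have hpow : ∀ n : ℕ, rho y⁻¹ * rho x ^ n = rho x⁻¹ ^ n * rho y⁻¹ := by
        intro n
        induction n with
        | zero => rw [pow_zero, pow_zero, mul_one, one_mul]
        | succ n ih =>
          rw [pow_succ, ← mul_assoc, ih, mul_assoc, ← rho_mul, hyx, rho_mul, ← mul_assoc, ← pow_succ]
      induction Q using Polynomial.induction_on' with
      | add P Q hP hQ => rw [map_add, map_add, mul_add, hP, hQ, add_mul]
      | monomial n a =>
        rw [aeval_monomial, aeval_monomial, ← mul_assoc, ← Algebra.commutes, mul_assoc, hpow, mul_assoc]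
    have hcomX : ∀ P Q : ℚ[X], Commute (aeval (rho x) P) (aeval (rho x⁻¹) Q) := by
      intro P Q
      have h0 : Commute (rho x) (rho x⁻¹) := by
        change rho x * rho x⁻¹ = rho x⁻¹ * rho x
        rw [← rho_mul, ← rho_mul]
        simp
      have h1 : ∀ Q : ℚ[X], Commute (rho x) (aeval (rho x⁻¹) Q) := by
        intro Q
        induction Q using Polynomial.induction_on' with
        | add P Q hP hQ => rw [map_add]; exact hP.add_right hQ
        | monomial n a =>
          rw [aeval_monomial]
          exact Commute.mul_right (show Commute (rho x) (algebraMap ℚ _ a) from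
            (Algebra.commutes a (rho x)).symm) (h0.pow_right n)
      induction P using Polynomial.induction_on' with
      | add P P' hP hP' => rw [map_add]; exact hP.add_left hP'
      | monomial n a =>
        rw [aeval_monomial]
        exact Commute.mul_left (Algebra.commutes a _) ((h1 Q).pow_left n)
    -- the norm
    let n0 := 2 ^ (k + 1) - 1
    have hinv : x⁻¹ = x ^ n0 := by
      rw [inv_eq_iff_mul_eq_one, ← pow_succ']
      have : n0 + 1 = orderOf x := by
        rw [hk]
        have : 0 < 2 ^ (k + 1) := by positivity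
        omega
      rw [this, pow_orderOf_eq_one]
    have hcomp : ∀ Q : ℚ[X], aeval (rho x⁻¹) Q = aeval (rho x) (Q.comp (X ^ n0)) := by
      intro Q
      rw [aeval_comp, map_pow, aeval_X, hinv, rho_pow]
    let Q : ℚ[X] := P.comp (X ^ n0) * P + R.comp (X ^ n0) * R
    have hQ : aeval (rho x) Q = aeval (rho x⁻¹) P * aeval (rho x) P + aeval (rho x⁻¹) R * aeval (rho x) R := by
      simp only [Q]
      rw [map_add, map_mul, map_mul, hcomp, hcomp]
    have hQw : aeval (rho x) Q w = 0 := by
      have h1 : (aeval (rho x⁻¹) P - aeval (rho x) R * rho y⁻¹) * T d =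
          aeval (rho x⁻¹) P * aeval (rho x) P - aeval (rho x⁻¹) R * aeval (rho x) R * rho c := by
        have hyy : rho y⁻¹ * rho y⁻¹ = rho c := by
          rw [← rho_mul, ← mul_inv_rev, hy3, h.inv]
        rw [hTd, sub_mul, mul_add, mul_add]
        have e1 : aeval (rho x) R * rho y⁻¹ * aeval (rho x) P =
            aeval (rho x⁻¹) P * (aeval (rho x) R * rho y⁻¹) := by
          rw [mul_assoc, hcomY, ← mul_assoc, (hcomX R P).eq, mul_assoc]
        have e2 : aeval (rho x) R * rho y⁻¹ * (aeval (rho x) R * rho y⁻¹) =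
            aeval (rho x⁻¹) R * aeval (rho x) R * rho c := by
          calc aeval (rho x) R * rho y⁻¹ * (aeval (rho x) R * rho y⁻¹)
              = aeval (rho x) R * (rho y⁻¹ * aeval (rho x) R) * rho y⁻¹ := by noncomm_ring
            _ = aeval (rho x) R * aeval (rho x⁻¹) R * (rho y⁻¹ * rho y⁻¹) := by
              rw [hcomY]; noncomm_ring
            _ = _ := by rw [hyy, (hcomX R R).eq]
        rw [e1, e2]
        abel
      have h2 := congrArg (fun M : (G → ℚ) →ₗ[ℚ] (G → ℚ) => M w) h1
      simp only [Module.End.mul_apply, LinearMap.sub_apply, hT, map_zero] at h2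
      rw [rho_odd hw] at h2
      rw [hQ, LinearMap.add_apply, Module.End.mul_apply, Module.End.mul_apply]
      simp only [map_neg, sub_neg_eq_add] at h2
      exact h2.symm
    have hzero : ∀ S : ℚ[X], ∀ f : G → ℚ,
        ∑ t, (aeval (rho x⁻¹) S * aeval (rho x) S) f t * f t =
          ∑ t, aeval (rho x) S f t * aeval (rho x) S f t := by
      intro S f
      have h1 := adj_poly x⁻¹ S (aeval (rho x) S f) f
      rw [inv_inv] at h1
      exact h1
    have hall : ∀ f, OddFn c f → aeval (rho x) P f = 0 ∧ aeval (rho x) R f = 0 := by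
      intro f hf
      have h1 := key Q hQw f hf
      rw [hQ, LinearMap.add_apply] at h1
      have h2 : ∑ t, (aeval (rho x) P f t * aeval (rho x) P f t) +
          ∑ t, (aeval (rho x) R f t * aeval (rho x) R f t) = 0 := by
        rw [← hzero, ← hzero, ← Finset.sum_add_distrib]
        refine Finset.sum_eq_zero fun t _ => ?_
        rw [← add_mul]
        have := congrFun h1 t
        simp only [Pi.add_apply, Pi.zero_apply] at this
        rw [this, zero_mul]
      have p1 : 0 ≤ ∑ t, (aeval (rho x) P f t * aeval (rho x) P f t) :=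
        Finset.sum_nonneg fun t _ => mul_self_nonneg _
      have p2 : 0 ≤ ∑ t, (aeval (rho x) R f t * aeval (rho x) R f t) :=
        Finset.sum_nonneg fun t _ => mul_self_nonneg _
      constructor
      · funext t
        have h3 := (Finset.sum_eq_zero_iff_of_nonneg fun t _ => mul_self_nonneg _).1
          (show ∑ t, (aeval (rho x) P f t * aeval (rho x) P f t) = 0 by linarith) t (Finset.mem_univ t)
        exact mul_self_eq_zero.1 h3
      · funext t
        have h3 := (Finset.sum_eq_zero_iff_of_nonneg fun t _ => mul_self_nonneg _).1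
          (show ∑ t, (aeval (rho x) R f t * aeval (rho x) R f t) = 0 by linarith) t (Finset.mem_univ t)
        exact mul_self_eq_zero.1 h3
    apply hd0
    refine eq_zero_of_T h.ne_one h.sq hd fun f hf => ?_
    rw [hTd, LinearMap.add_apply, Module.End.mul_apply, (hall f hf).1,
      (hall _ (hf.rho h.comm y⁻¹)).2, add_zero]

end Pool.Agent.H21.TC
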