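import Pool.Graph.R_pool_sql_team_seeded_620a6dc7.Helper33_dom.Main

/-!
# Removing pairs of labelled vectors
-/

set_option autoImplicit false

namespace Pool.Agent.H21.TC

open Pool.Agent.Helper33Dom

open Classical in
/-- If the labels of a list of labelled vectors are balanced with respect to an equivalence relation
and an involution, the product of the vectors is a product of balanced pairs. -/
theorem pairs_mem {Ω V X : Type*} [Field Ω] [AddCommGroup V] [Module Ω V]
    (ok : V → X → Prop) (E : X → X → Prop) (hr : ∀ x, E x x) (hsymm : ∀ x y, E x y → E y x)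
    (htrans : ∀ x y z, E x y → E y z → E x z) (bar : X → X) (hbar : ∀ x, bar (bar x) = x)
    (hEb : ∀ x y, E x y → E (bar x) (bar y)) (hall : (∃ x, E x (bar x)) → ∀ x y, E x y)
    (A : Subalgebra Ω (ExteriorAlgebra Ω V))
    (hA : ∀ v w x y, ok v x → ok w y → E y (bar x) →
      ExteriorAlgebra.ι Ω v * ExteriorAlgebra.ι Ω w ∈ A) :
    ∀ (n : ℕ) (L : List (V × X)), L.length = n → Even n → (∀ e ∈ L, ok e.1 e.2) →
      (∀ x, L.countP (fun e => E e.2 x) = L.countP (fun e => E e.2 (bar x))) →
      lprod (Ω := Ω) L ∈ A := by
  intro n
  induction n using Nat.strong_induction_on with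
  | _ n ih =>
    intro L hLn hev hok hL
    match L, hLn, hok, hL with
    | [], _, _, _ =>
      simp only [lprod, List.map_nil, List.prod_nil]
      exact Subalgebra.one_mem _
    | e :: L₀, hLn, hok, hL =>
      obtain ⟨f, hf, hfe⟩ : ∃ f ∈ L₀, E f.2 (bar e.2) := by
        by_cases h1 : E e.2 (bar e.2)
        · have h2 := hall ⟨_, h1⟩
          match L₀, hLn with
          | [], hLn =>
            exfalso
            rw [← hLn] at hev
            simp at hev
          | f :: L₁, _ => exact ⟨f, List.mem_cons_self, h2 _ _⟩
        · have h2 := hL e.2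
          rw [List.countP_cons, List.countP_cons] at h2
          simp only [hr e.2, h1, decide_true, decide_false, if_true, Bool.false_eq_true, if_false,
            add_zero] at h2
          have h3 : 0 < L₀.countP (fun e' => E e'.2 (bar e.2)) := by omega
          obtain ⟨f, hf, hfe⟩ := List.countP_pos_iff.1 h3
          exact ⟨f, hf, by simpa using hfe⟩
      have hperm : L₀.Perm (f :: L₀.erase f) := List.perm_cons_erase hf
      have hpl : lprod (Ω := Ω) (e :: L₀) = ExteriorAlgebra.ι Ω e.1 * lprod L₀ := by
        simp [lprod]
      have hpl' : lprod (Ω := Ω) (f :: L₀.erase f) = ExteriorAlgebra.ι Ω f.1 * lprod (L₀.erase f) := by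
        simp [lprod]
      obtain ⟨ε, hε⟩ := lprod_perm (Ω := Ω) hperm
      rw [hpl, hε, hpl', mul_smul_comm, ← mul_assoc]
      have hlen := hperm.length_eq
      rw [List.length_cons] at hlen hLn
      refine Subalgebra.smul_mem _ (Subalgebra.mul_mem _ (hA _ _ _ _ (hok e List.mem_cons_self)
        (hok f (List.mem_cons_of_mem _ hf)) hfe) ?_) _
      refine ih (L₀.erase f).length (by omega) _ rfl ?_ ?_ ?_
      · rw [← hLn, hlen] at hev
        have : (L₀.erase f).length + 1 + 1 = (L₀.erase f).length + 2 := by omega
        rw [this, Nat.even_add] at hev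
        simpa using hev
      · intro e' he'
        exact hok e' (List.mem_cons_of_mem _ (List.mem_of_mem_erase he'))
      · intro x
        have h1 := hL x
        rw [List.countP_cons, List.countP_cons, hperm.countP_eq, hperm.countP_eq, List.countP_cons,
          List.countP_cons] at h1
        have i1 : E f.2 x ↔ E e.2 (bar x) := by
          constructor
          · intro h
            have h2 := hEb _ _ (htrans _ _ _ (hsymm _ _ hfe) h)
            rwa [hbar] at h2
          · intro h
            have h2 := hEb _ _ h
            rw [hbar] at h2
            exact htrans _ _ _ hfe h2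
        have i2 : E f.2 (bar x) ↔ E e.2 x := by
          constructor
          · intro h
            have h2 := hEb _ _ (htrans _ _ _ (hsymm _ _ hfe) h)
            rwa [hbar, hbar] at h2
          · intro h
            exact htrans _ _ _ hfe (hEb _ _ h)
        simp only [i1, i2] at h1
        omega

end Pool.Agent.H21.TC
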